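import Mathlib
import Pool.Agent.Lib.MP_3650db_nt.Core

section

set_option autoImplicit false

/-!
The even steps of the Fibonacci sequence in residue classes, and the lifting of the integrality
conditions to a whole residue class.
-/

namespace Pool.Agent.Lib.MP3650db.P5

/-- two Fibonacci steps -/
def stp (p : ℤ × ℤ) : ℤ × ℤ := (p.1 + p.2, p.1 + 2 * p.2)

/-- `st m = (F_{2m}, F_{2m+1})` -/
def st (m : ℕ) : ℤ × ℤ := stp^[m] (0, 1)

theorem st_zero : st 0 = (0, 1) := rfl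

theorem st_succ (m : ℕ) : st (m + 1) = ((st m).1 + (st m).2, (st m).1 + 2 * (st m).2) := by
  unfold st
  rw [Function.iterate_succ_apply']
  rfl

theorem st_inv (m : ℕ) : (st m).2 ^ 2 - (st m).1 * (st m).2 - (st m).1 ^ 2 = 1 := by
  induction m with
  | zero => simp [st_zero]
  | succ m ih =>
    rw [st_succ]
    linear_combination ih

theorem st_bound (m : ℕ) : 0 ≤ (st m).1 ∧ (m : ℤ) + 1 ≤ (st m).2 := by
  induction m with
  | zero => simp [st_zero]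
  | succ m ih =>
    rw [st_succ]
    push_cast
    constructor
    · linarith [ih.1, ih.2, Int.natCast_nonneg m]
    · linarith [ih.1, ih.2, Int.natCast_nonneg m]

theorem st_add (m n : ℕ) : st (m + n) =
    ((st m).1 * (st n).2 + ((st m).2 - (st m).1) * (st n).1,
      (st m).2 * (st n).2 + (st m).1 * (st n).1) := by
  induction n with
  | zero => simp [st_zero]
  | succ n ih =>
    rw [← add_assoc, st_succ, ih, st_succ]
    ext
    · dsimp only
      ring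
    · dsimp only
      ring

/-- the residues of `st m` -/
def Res (Q : ℤ) (m : ℕ) (x y : ℤ) : Prop := Q ∣ (st m).1 - x ∧ Q ∣ (st m).2 - y

theorem res_zero (Q : ℤ) : Res Q 0 0 1 := by
  simp [Res, st_zero]

theorem res_double {Q : ℤ} {m : ℕ} {x y : ℤ} (h : Res Q m x y) (x' y' : ℤ)
    (h1 : Q ∣ x * (2 * y - x) - x') (h2 : Q ∣ x ^ 2 + y ^ 2 - y') : Res Q (2 * m) x' y' := by
  obtain ⟨⟨a, ha⟩, ⟨b, hb⟩⟩ := h
  obtain ⟨c, hc⟩ := h1
  obtain ⟨d, hd⟩ := h2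
  have hx : (st m).1 = x + Q * a := by linarith
  have hy : (st m).2 = y + Q * b := by linarith
  rw [two_mul]
  constructor
  · refine ⟨x * (2 * b - a) + a * (2 * y - x) + Q * a * (2 * b - a) + c, ?_⟩
    rw [st_add, hx, hy]
    dsimp only
    linear_combination hc
  · refine ⟨2 * x * a + Q * a ^ 2 + 2 * y * b + Q * b ^ 2 + d, ?_⟩
    rw [st_add, hx, hy]
    dsimp only
    linear_combination hd

theorem res_double_add_one {Q : ℤ} {m : ℕ} {x y : ℤ} (h : Res Q m x y) (x' y' : ℤ)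
    (h1 : Q ∣ x * (2 * y - x) + (x ^ 2 + y ^ 2) - x')
    (h2 : Q ∣ x * (2 * y - x) + 2 * (x ^ 2 + y ^ 2) - y') : Res Q (2 * m + 1) x' y' := by
  obtain ⟨⟨a, ha⟩, ⟨b, hb⟩⟩ := res_double h (x * (2 * y - x)) (x ^ 2 + y ^ 2) (by simp) (by simp)
  obtain ⟨c, hc⟩ := h1
  obtain ⟨d, hd⟩ := h2
  unfold Res
  rw [st_succ]
  dsimp only
  refine ⟨⟨a + b + c, ?_⟩, ⟨a + 2 * b + d, ?_⟩⟩
  · linear_combination ha + hb + hc
  · linear_combination ha + 2 * hb + hd

/-- infinitely many `m` in the residue class -/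
theorem exists_res (Q : ℕ) (hQ : 0 < Q) (m0 B : ℕ) (x y : ℤ) (h : Res Q m0 x y) :
    ∃ m, B ≤ m ∧ Res Q m x y := by
  have : NeZero Q := ⟨hQ.ne'⟩
  let T : Equiv.Perm (ZMod Q × ZMod Q) :=
    { toFun := fun p => (p.1 + p.2, p.1 + 2 * p.2)
      invFun := fun p => (2 * p.1 - p.2, p.2 - p.1)
      left_inv := by
        intro p
        ext
        · dsimp only
          ring
        · dsimp only
          ring
      right_inv := by
        intro p
        ext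
        · dsimp only
          ring
        · dsimp only
          ring }
  have hT : ∀ p, T p = (p.1 + p.2, p.1 + 2 * p.2) := fun p => rfl
  have hst : ∀ m : ℕ, (T ^ m) (0, 1) = (((st m).1 : ZMod Q), ((st m).2 : ZMod Q)) := by
    intro m
    induction m with
    | zero => simp [st_zero]
    | succ m ih =>
      rw [pow_succ', Equiv.Perm.mul_apply, ih, hT, st_succ]
      push_cast
      rfl
  have hN : 0 < orderOf T := orderOf_pos T
  refine ⟨m0 + orderOf T * B, by nlinarith, ?_⟩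
  have h1 := hst (m0 + orderOf T * B)
  rw [pow_add, pow_mul, pow_orderOf_eq_one, one_pow, mul_one, hst m0] at h1
  have h2 : ((st m0).1 : ZMod Q) = ((st (m0 + orderOf T * B)).1 : ZMod Q) := congrArg Prod.fst h1
  have h3 : ((st m0).2 : ZMod Q) = ((st (m0 + orderOf T * B)).2 : ZMod Q) := congrArg Prod.snd h1
  rw [ZMod.intCast_eq_intCast_iff_dvd_sub] at h2 h3
  constructor
  · have := dvd_add h2 h.1
    rwa [sub_add_sub_cancel] at this
  · have := dvd_add h3 h.2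
    rwa [sub_add_sub_cancel] at this

/-- lifting of the integrality conditions from one pair `(f₀, L₀)` to its residue class -/
theorem lift_data (C a M l f0 L0 c0 e30 e40 e50 f L : ℤ)
    (hc : M * c0 = -16 * C ^ 2 * (25 * C ^ 2 * f0 + a))
    (h3 : M * e30 = 8 * C ^ 2 * (a * f0 + 20 * C ^ 2))
    (h4 : M * e40 = 16 * C ^ 4 * L0 ^ 2)
    (h5 : 50 * e50 = 10 * e30 ^ 2 - 6 * e40 + 25 * e30 * e40 + c0 ^ 2 * L0)
    (he : 2 ∣ e40) (hf : 50 * l * M ∣ f - f0) (hL : 50 * l * M ∣ L - L0) :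
    ∃ c e3 e4 e5 : ℤ, M * c = -16 * C ^ 2 * (25 * C ^ 2 * f + a) ∧
      M * e3 = 8 * C ^ 2 * (a * f + 20 * C ^ 2) ∧ M * e4 = 16 * C ^ 4 * L ^ 2 ∧
      50 * e5 = 10 * e3 ^ 2 - 6 * e4 + 25 * e3 * e4 + c ^ 2 * L ∧ 2 ∣ e4 ∧
      l ∣ e3 - e30 ∧ l ∣ e4 - e40 ∧ l ∣ e5 - e50 := by
  obtain ⟨k, hk⟩ := hf
  obtain ⟨j, hj⟩ := hL
  have hf' : f = f0 + 50 * l * M * k := by linarith
  have hL' : L = L0 + 50 * l * M * j := by linarith
  set c1 : ℤ := -400 * C ^ 4 * k with hc1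
  set e31 : ℤ := 8 * C ^ 2 * a * k with he31
  set e41 : ℤ := 16 * C ^ 4 * (2 * L0 * j + 50 * l * M * j ^ 2) with he41
  obtain ⟨e, he'⟩ := he
  refine ⟨c0 + 50 * l * c1, e30 + 50 * l * e31, e40 + 50 * l * e41,
    e50 + l * (10 * (2 * e30 * e31 + 50 * l * e31 ^ 2) - 6 * e41
      + 25 * (e30 * e41 + e31 * e40 + 50 * l * e31 * e41)
      + (2 * c0 * c1 + 50 * l * c1 ^ 2) * L + c0 ^ 2 * (M * j)), ?_, ?_, ?_, ?_, ?_, ?_, ?_, ?_⟩
  · rw [hf', hc1]
    linear_combination hc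
  · rw [hf', he31]
    linear_combination h3
  · rw [hL', he41]
    linear_combination h4
  · rw [hL']
    linear_combination h5
  · exact ⟨e + 25 * l * e41, by rw [he']; ring⟩
  · exact ⟨50 * e31, by ring⟩
  · exact ⟨50 * e41, by ring⟩
  · exact ⟨_, by rw [add_sub_cancel_left]⟩

end Pool.Agent.Lib.MP3650db.P5
end

section

set_option autoImplicit false

/-!
Fast evaluation of the residues of `st m`, and the lifting of the integrality conditions for the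
families with the scaling parameter `s`.
-/

namespace Pool.Agent.Lib.MP3650db.P5

/-- addition of `b` (zero or one) to the index -/
def addB (Q b : ℕ) (p : ℕ × ℕ) : ℕ × ℕ := ((p.1 + b * p.2) % Q, (p.2 + b * (p.1 + p.2)) % Q)

/-- doubling of the index and addition of `b` -/
def stepB (Q b : ℕ) (p : ℕ × ℕ) : ℕ × ℕ :=
  addB Q b ((p.1 * (2 * p.2 + (Q - 1) * p.1)) % Q, (p.1 * p.1 + p.2 * p.2) % Q)

/-- the residues of `st n` modulo `Q`, for `n < 2 ^ k` -/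
def ff (Q : ℕ) : ℕ → ℕ → ℕ × ℕ
  | 0, _ => (0, 1)
  | k + 1, n => stepB Q (n % 2) (ff Q k (n / 2))

theorem dvd_sub_mod (Q n : ℕ) (z : ℤ) (h : (Q : ℤ) ∣ z - (n : ℤ)) : (Q : ℤ) ∣ z - ((n % Q : ℕ) : ℤ) := by
  have h1 : ((n % Q : ℕ) : ℤ) = (n : ℤ) - Q * ((n / Q : ℕ) : ℤ) := by
    have := Nat.mod_add_div n Q
    have h2 : ((n % Q : ℕ) : ℤ) + Q * ((n / Q : ℕ) : ℤ) = n := by exact_mod_cast this
    linarith
  rw [h1]
  obtain ⟨c, hc⟩ := h
  exact ⟨c + ((n / Q : ℕ) : ℤ), by linear_combination hc⟩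

theorem ff_spec (Q : ℕ) (hQ : 0 < Q) (k : ℕ) : ∀ n : ℕ, n < 2 ^ k →
    Res Q n ((ff Q k n).1 : ℤ) ((ff Q k n).2 : ℤ) := by
  induction k with
  | zero =>
    intro n hn
    have : n = 0 := by simpa using hn
    subst this
    exact res_zero Q
  | succ k ih =>
    intro n hn
    have h1 : n / 2 < 2 ^ k := by
      rw [pow_succ] at hn
      omega
    have h2 := ih (n / 2) h1
    set p : ℕ × ℕ := ff Q k (n / 2) with hp
    have h3 : ff Q (k + 1) n = stepB Q (n % 2) p := rfl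
    rw [h3]
    have hQ1 : ((Q - 1 : ℕ) : ℤ) = (Q : ℤ) - 1 := by
      push_cast [Nat.cast_sub (show 1 ≤ Q from hQ)]
      ring
    have h4 : Res Q (2 * (n / 2)) (((p.1 * (2 * p.2 + (Q - 1) * p.1)) % Q : ℕ) : ℤ)
        (((p.1 * p.1 + p.2 * p.2) % Q : ℕ) : ℤ) := by
      refine res_double h2 _ _ ?_ ?_
      · apply dvd_sub_mod
        push_cast
        rw [hQ1]
        exact ⟨-(p.1 : ℤ) ^ 2, by ring⟩
      · apply dvd_sub_mod
        push_cast
        exact ⟨0, by ring⟩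
    rcases Nat.mod_two_eq_zero_or_one n with h | h
    · have h5 : 2 * (n / 2) = n := by omega
      rw [h5] at h4
      rw [h]
      unfold stepB addB
      dsimp only
      constructor
      · apply dvd_sub_mod
        simpa using h4.1
      · apply dvd_sub_mod
        simpa using h4.2
    · have h5 : n = 2 * (n / 2) + 1 := by omega
      rw [h]
      unfold stepB addB
      dsimp only
      obtain ⟨⟨a, ha⟩, ⟨b, hb⟩⟩ := h4
      constructor
      · apply dvd_sub_mod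
        rw [h5, st_succ]
        refine ⟨a + b, ?_⟩
        push_cast at ha hb ⊢
        linear_combination ha + hb
      · apply dvd_sub_mod
        rw [h5, st_succ]
        refine ⟨a + 2 * b, ?_⟩
        push_cast at ha hb ⊢
        linear_combination ha + 2 * hb

/-- the residues from an evaluation of `ff` -/
theorem res_of_ff (Q k n x y : ℕ) (hQ : 0 < Q) (hn : n < 2 ^ k) (h : ff Q k n = (x, y)) :
    Res Q n x y := by
  have := ff_spec Q hQ k n hn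
  rw [h] at this
  exact this

/-- infinitely many `m` in the residue class of `m0` -/
theorem exists_class (Q : ℕ) (hQ : 0 < Q) (m0 B : ℕ) :
    ∃ m, B ≤ m ∧ ∀ (q : ℤ) (x y : ℤ), q ∣ (Q : ℤ) → Res q m0 x y → Res q m x y := by
  obtain ⟨m, hm, h1, h2⟩ := exists_res Q hQ m0 B (st m0).1 (st m0).2 ⟨by simp, by simp⟩
  refine ⟨m, hm, fun q x y hq h => ⟨?_, ?_⟩⟩
  · have := dvd_add (hq.trans h1) h.1
    rwa [sub_add_sub_cancel] at this
  · have := dvd_add (hq.trans h2) h.2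
    rwa [sub_add_sub_cancel] at this

/-- lifting of the integrality conditions, for the families with the parameter `s` -/
theorem lift_s (s n M l f0 L0 D0 c0 e30 e40 e50 f L : ℤ)
    (hD : 4 * D0 = 5 * s ^ 2 * (5 * f0 + 2) + 4 * n)
    (hc : M * c0 = -4 * s ^ 2 * D0)
    (h3 : M * e30 = s ^ 2 * ((2 * n + 5 * s ^ 2) * f0 + 10 * s ^ 2))
    (h4 : M * e40 = s ^ 4 * L0 ^ 2)
    (h5 : 50 * e50 = 10 * e30 ^ 2 - 6 * e40 + 25 * e30 * e40 + c0 ^ 2 * L0)
    (he : 2 ∣ e40) (hf : 200 * l * M ∣ f - f0) (hL : 200 * l * M ∣ L - L0) :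
    ∃ D c e3 e4 e5 : ℤ, 4 * D = 5 * s ^ 2 * (5 * f + 2) + 4 * n ∧ M * c = -4 * s ^ 2 * D ∧
      M * e3 = s ^ 2 * ((2 * n + 5 * s ^ 2) * f + 10 * s ^ 2) ∧ M * e4 = s ^ 4 * L ^ 2 ∧
      50 * e5 = 10 * e3 ^ 2 - 6 * e4 + 25 * e3 * e4 + c ^ 2 * L ∧ 2 ∣ e4 ∧
      l ∣ e3 - e30 ∧ l ∣ e4 - e40 ∧ l ∣ e5 - e50 := by
  obtain ⟨k, hk⟩ := hf
  obtain ⟨j, hj⟩ := hL
  have hf' : f = f0 + 200 * l * M * k := by linarith
  have hL' : L = L0 + 200 * l * M * j := by linarith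
  set c1 : ℤ := -100 * s ^ 4 * k with hc1
  set e31 : ℤ := 4 * s ^ 2 * (2 * n + 5 * s ^ 2) * k with he31
  set e41 : ℤ := 4 * s ^ 4 * (2 * L0 * j + 200 * l * M * j ^ 2) with he41
  obtain ⟨e, he'⟩ := he
  refine ⟨D0 + 25 * s ^ 2 * (50 * l * M * k), c0 + 50 * l * c1, e30 + 50 * l * e31,
    e40 + 50 * l * e41,
    e50 + l * (10 * (2 * e30 * e31 + 50 * l * e31 ^ 2) - 6 * e41
      + 25 * (e30 * e41 + e31 * e40 + 50 * l * e31 * e41)
      + (2 * c0 * c1 + 50 * l * c1 ^ 2) * L + c0 ^ 2 * (4 * M * j)), ?_, ?_, ?_, ?_, ?_, ?_, ?_, ?_, ?_⟩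
  · rw [hf']
    linear_combination hD
  · rw [hc1]
    linear_combination hc
  · rw [hf', he31]
    linear_combination h3
  · rw [hL', he41]
    linear_combination h4
  · rw [hL']
    linear_combination h5
  · exact ⟨e + 25 * l * e41, by rw [he']; ring⟩
  · exact ⟨50 * e31, by ring⟩
  · exact ⟨50 * e41, by ring⟩
  · exact ⟨_, by rw [add_sub_cancel_left]⟩

end Pool.Agent.Lib.MP3650db.P5
end

section

set_option autoImplicit false

/-!
Galois descent of invariant ideals for a ring extension with an automorphism `s` of order five which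
lies in no inertia group, and an element of trace one.
-/

namespace Pool.Agent.Lib.MP3650db.P5

variable {R S : Type*} [CommRing R] [IsDomain R] [CommRing S] [IsDomain S] [Algebra R S]

section

variable (s : S →+* S) (h5 : ∀ y, s (s (s (s (s y)))) = y)
  (hR : ∀ r : R, s (algebraMap R S r) = algebraMap R S r)
  (hfix : ∀ y : S, s y = y → ∃ r : R, algebraMap R S r = y)
  (t : S) (ht1 : t + s t + s (s t) + s (s (s t)) + s (s (s (s t))) = 1)

include h5 in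
/-- Hilbert 90 with an integral solution -/
theorem hilbert90 (hd1 : t ≠ s t) (hd2 : t ≠ s (s t)) (hd3 : t ≠ s (s (s t)))
    (hd4 : t ≠ s (s (s (s t)))) (u : S)
    (hu : u * s u * s (s u) * s (s (s u)) * s (s (s (s u))) = 1) :
    ∃ x : S, x ≠ 0 ∧ x = u * s x := by
  by_contra hcon
  push Not at hcon
  have key : ∀ b : S, b + u * s b + u * s u * s (s b) + u * s u * s (s u) * s (s (s b)) +
      u * s u * s (s u) * s (s (s u)) * s (s (s (s b))) = 0 := by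
    intro b
    by_contra hb
    apply hcon _ hb
    simp only [map_add, map_mul, h5]
    linear_combination - b * hu
  have k0 := key 1
  have k1 := key t
  have k2 := key (t ^ 2)
  have k3 := key (t ^ 3)
  have k4 := key (t ^ 4)
  simp only [map_one, map_pow] at k0 k2 k3 k4
  set a := s t with ha
  set b := s a with hb
  set c := s b with hc
  set d := s c with hdd
  have h : (t - a) * (t - b) * (t - c) * (t - d) = 0 := by
    linear_combination k4 - (a + b + c + d) * k3 + (a * b + a * c + a * d + b * c + b * d + c * d) * k2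
      - (a * b * c + a * b * d + a * c * d + b * c * d) * k1 + a * b * c * d * k0
  rcases mul_eq_zero.1 h with h | h
  · rcases mul_eq_zero.1 h with h | h
    · rcases mul_eq_zero.1 h with h | h
      · exact hd1 (sub_eq_zero.1 h)
      · exact hd2 (sub_eq_zero.1 h)
    · exact hd3 (sub_eq_zero.1 h)
  · exact hd4 (sub_eq_zero.1 h)

/-- the trace -/
def tr (y : S) : S := y + s y + s (s y) + s (s (s y)) + s (s (s (s y)))

include h5 in
theorem s_tr (y : S) : s (tr s y) = tr s y := by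
  unfold tr
  simp only [map_add, h5]
  ring

/-- the dual identity -/
theorem dual (y₁ y₂ y₃ y₄ x : S) :
    (y₁ - s y₁) * (y₂ - s (s y₂)) * (y₃ - s (s (s y₃))) * (y₄ - s (s (s (s y₄)))) * x =
      tr s (y₁ * y₂ * y₃ * y₄ * x) - s y₁ * tr s (y₂ * y₃ * y₄ * x)
      - s (s y₂) * (tr s (y₁ * y₃ * y₄ * x) - s y₁ * tr s (y₃ * y₄ * x))
      - s (s (s y₃)) * (tr s (y₁ * y₂ * y₄ * x) - s y₁ * tr s (y₂ * y₄ * x)
        - s (s y₂) * (tr s (y₁ * y₄ * x) - s y₁ * tr s (y₄ * x)))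
      - s (s (s (s y₄))) * (tr s (y₁ * y₂ * y₃ * x) - s y₁ * tr s (y₂ * y₃ * x)
        - s (s y₂) * (tr s (y₁ * y₃ * x) - s y₁ * tr s (y₃ * x))
        - s (s (s y₃)) * (tr s (y₁ * y₂ * x) - s y₁ * tr s (y₂ * x)
          - s (s y₂) * (tr s (y₁ * x) - s y₁ * tr s x))) := by
  unfold tr
  simp only [map_mul]
  ring

include h5 hR hfix in
theorem tr_mem (A : Ideal R) (z : S) (hz : z ∈ A.map (algebraMap R S)) :
    ∀ y : S, ∃ r ∈ A, algebraMap R S r = tr s (y * z) := by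
  unfold Ideal.map at hz
  refine Submodule.span_induction ?_ ?_ ?_ ?_ hz
  · rintro _ ⟨r, hr, rfl⟩ y
    obtain ⟨r', hr'⟩ := hfix _ (s_tr s h5 y)
    refine ⟨r' * r, A.mul_mem_left _ hr, ?_⟩
    rw [map_mul, hr']
    unfold tr
    simp only [map_mul, hR]
    ring
  · intro y
    refine ⟨0, A.zero_mem, ?_⟩
    unfold tr
    simp
  · intro a b _ _ ha hb y
    obtain ⟨r, hr, h1⟩ := ha y
    obtain ⟨r', hr', h2⟩ := hb y
    refine ⟨r + r', A.add_mem hr hr', ?_⟩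
    rw [map_add, h1, h2]
    unfold tr
    simp only [mul_add, map_add]
    ring
  · intro a x _ hx y
    obtain ⟨r, hr, h1⟩ := hx (y * a)
    exact ⟨r, hr, by rw [h1, smul_eq_mul, mul_assoc]⟩

include ht1 h5 hR hfix in
theorem map_inj (hinj : Function.Injective (algebraMap R S)) (A B : Ideal R)
    (h : A.map (algebraMap R S) = B.map (algebraMap R S)) : A = B := by
  have key : ∀ A B : Ideal R, A.map (algebraMap R S) = B.map (algebraMap R S) → A ≤ B := by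
    intro A B h b hb
    have hb' : algebraMap R S b ∈ B.map (algebraMap R S) := by
      rw [← h]; exact Ideal.mem_map_of_mem _ hb
    obtain ⟨r, hr, h1⟩ := tr_mem s h5 hR hfix B _ hb' t
    have h2 : tr s (t * algebraMap R S b) = algebraMap R S b := by
      unfold tr
      simp only [map_mul, hR]
      linear_combination (algebraMap R S b) * ht1
    rw [h2] at h1
    rw [← hinj h1]
    exact hr
  exact le_antisymm (key A B h) (key B A h.symm)

include ht1 h5 hR hfix in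
/-- the main step: an ideal of `R` which is not principal while its fifth power is -/
theorem exists_ideal (hd1 : t ≠ s t) (hd2 : t ≠ s (s t)) (hd3 : t ≠ s (s (s t)))
    (hd4 : t ≠ s (s (s (s t))))
    (hM : ∀ M : Ideal S, M.IsMaximal → (∃ y, y - s y ∉ M) ∧ (∃ y, y - s (s y) ∉ M) ∧
      (∃ y, y - s (s (s y)) ∉ M) ∧ (∃ y, y - s (s (s (s y))) ∉ M))
    (hinj : Function.Injective (algebraMap R S)) (u : Sˣ)
    (hu : (u : S) * s u * s (s u) * s (s (s u)) * s (s (s (s u))) = 1)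
    (hcob : ∀ ξ : Sˣ, (u : S) * s ξ ≠ ξ) :
    ∃ J : Ideal R, J ≠ ⊥ ∧ (¬ ∃ j, J = Ideal.span {j}) ∧ ∃ y, J ^ 5 = Ideal.span {y} := by
  obtain ⟨x, hx0, hx⟩ := hilbert90 s h5 t hd1 hd2 hd3 hd4 (u : S) hu
  -- the conjugates of `x` are multiples of `x` by units
  have hsx : s x = (↑u⁻¹ : S) * x := by
    conv_rhs => rw [hx]
    rw [← mul_assoc, Units.inv_mul, one_mul]
  have hconj : ∀ w : Sˣ, ∃ w' : Sˣ, s ((w : S) * x) = (w' : S) * x := by
    intro w
    refine ⟨Units.map (s : S →* S) w * u⁻¹, ?_⟩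
    rw [map_mul, hsx, Units.val_mul, ← mul_assoc]
    rfl
  obtain ⟨w1, hw1⟩ := hconj 1
  obtain ⟨w2, hw2⟩ := hconj w1
  obtain ⟨w3, hw3⟩ := hconj w2
  obtain ⟨w4, hw4⟩ := hconj w3
  rw [Units.val_one, one_mul] at hw1
  rw [← hw1] at hw2
  rw [← hw2] at hw3
  rw [← hw3] at hw4
  obtain ⟨y, hy⟩ := hfix (x * s x * s (s x) * s (s (s x)) * s (s (s (s x)))) (by
    simp only [map_mul, h5]; ring)
  set I : Ideal S := Ideal.span {x} with hI
  set J : Ideal R := I.comap (algebraMap R S) with hJ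
  have hxI : x ∈ I := Ideal.mem_span_singleton_self x
  have htrI : ∀ b : S, tr s (b * x) ∈ I := by
    intro b
    unfold tr
    simp only [map_mul]
    rw [hw4, hw3, hw2, hw1]
    refine I.add_mem (I.add_mem (I.add_mem (I.add_mem (I.mul_mem_left _ hxI) ?_) ?_) ?_) ?_ <;>
      exact I.mul_mem_left _ (I.mul_mem_left _ hxI)
  have hmem : ∀ b : S, tr s (b * x) ∈ J.map (algebraMap R S) := by
    intro b
    obtain ⟨r, hr⟩ := hfix _ (s_tr s h5 (b * x))
    rw [← hr]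
    apply Ideal.mem_map_of_mem
    rw [hJ, Ideal.mem_comap, hr]
    exact htrI b
  have hmem1 : tr s x ∈ J.map (algebraMap R S) := by
    have := hmem 1
    rwa [one_mul] at this
  have hmap : J.map (algebraMap R S) = I := by
    apply le_antisymm
    · exact Ideal.map_comap_le
    · rw [hI, Ideal.span_le, Set.singleton_subset_iff, SetLike.mem_coe]
      set I' := J.map (algebraMap R S) with hI'
      -- the colon ideal
      by_contra hcon
      have hne : I'.colon {x} ≠ ⊤ := by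
        intro h
        apply hcon
        have h1 : (1 : S) ∈ I'.colon {x} := by rw [h]; trivial
        rw [Submodule.mem_colon_singleton] at h1
        simpa using h1
      obtain ⟨M, hMmax, hle⟩ := Ideal.exists_le_maximal _ hne
      obtain ⟨⟨y₁, h1⟩, ⟨y₂, h2⟩, ⟨y₃, h3⟩, ⟨y₄, h4⟩⟩ := hM M hMmax
      have hprime := hMmax.isPrime
      have hz : (y₁ - s y₁) * (y₂ - s (s y₂)) * (y₃ - s (s (s y₃))) * (y₄ - s (s (s (s y₄)))) ∉ M := by
        intro h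
        rcases hprime.mem_or_mem h with h | h
        · rcases hprime.mem_or_mem h with h | h
          · rcases hprime.mem_or_mem h with h | h
            · exact h1 h
            · exact h2 h
          · exact h3 h
        · exact h4 h
      apply hz
      apply hle
      rw [Submodule.mem_colon_singleton, smul_eq_mul, dual s y₁ y₂ y₃ y₄ x]
      have sm := fun (a b : S) (ha : a ∈ I') (hb : b ∈ I') => Ideal.sub_mem I' ha hb
      have mm := fun (a b : S) (hb : b ∈ I') => Ideal.mul_mem_left I' a hb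
      refine sm _ _ (sm _ _ (sm _ _ (sm _ _ (hmem _) (mm _ _ (hmem _))) (mm _ _ (sm _ _ (hmem _)
        (mm _ _ (hmem _))))) (mm _ _ (sm _ _ (sm _ _ (hmem _) (mm _ _ (hmem _))) (mm _ _ (sm _ _
        (hmem _) (mm _ _ (hmem _))))))) (mm _ _ (sm _ _ (sm _ _ (sm _ _ (hmem _) (mm _ _ (hmem _)))
        (mm _ _ (sm _ _ (hmem _) (mm _ _ (hmem _))))) (mm _ _ (sm _ _ (sm _ _ (hmem _) (mm _ _
        (hmem _))) (mm _ _ (sm _ _ (hmem _) (mm _ _ hmem1)))))))
  have hs0 : ∀ z : S, z ≠ 0 → s z ≠ 0 := by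
    intro z hz h
    apply hz
    have := h5 z
    rw [h] at this
    simpa using this.symm
  refine ⟨J, ?_, ?_, y, ?_⟩
  · intro h
    have hyJ : y ∈ J := by
      rw [hJ, Ideal.mem_comap, hy]
      simp only [mul_assoc]
      exact Ideal.mul_mem_right _ _ hxI
    rw [h, Ideal.mem_bot] at hyJ
    rw [hyJ, map_zero] at hy
    exact (mul_ne_zero (mul_ne_zero (mul_ne_zero (mul_ne_zero hx0 (hs0 _ hx0)) (hs0 _ (hs0 _ hx0)))
      (hs0 _ (hs0 _ (hs0 _ hx0)))) (hs0 _ (hs0 _ (hs0 _ (hs0 _ hx0))))) hy.symm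
  · rintro ⟨j, hj⟩
    rw [hj, Ideal.map_span, Set.image_singleton, hI, Ideal.span_singleton_eq_span_singleton] at hmap
    obtain ⟨ξ, hξ⟩ := hmap
    apply hcob ξ
    have hj0 : algebraMap R S j ≠ 0 := by
      intro h
      rw [h, zero_mul] at hξ
      exact hx0 hξ.symm
    have e : algebraMap R S j * ((u : S) * s ξ) = algebraMap R S j * ξ := by
      rw [hξ]
      have : s x = algebraMap R S j * s ξ := by rw [← hξ, map_mul, hR]
      conv_rhs => rw [hx, this]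
      ring
    exact mul_left_cancel₀ hj0 e
  · apply map_inj s h5 hR hfix t ht1 hinj
    rw [Ideal.map_pow, hmap, hI, Ideal.span_singleton_pow, Ideal.map_span, Set.image_singleton, hy,
      Ideal.span_singleton_eq_span_singleton]
    refine ⟨w1 * w2 * w3 * w4, ?_⟩
    rw [hw4, hw3, hw2, hw1]
    push_cast
    ring

end

end Pool.Agent.Lib.MP3650db.P5
end

section

set_option autoImplicit false

/-!
Units of a number field with an automorphism of order five whose norm is torsion: some unit is not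
a torsion unit times a coboundary.
-/

namespace Pool.Agent.Lib.MP3650db.P5

open NumberField NumberField.Units

variable (L : Type*) [Field L] [NumberField L]

/-- some unit is not a torsion unit times a fifth power -/
theorem exists_not_torsion_mul_pow (h : 0 < Units.rank L) :
    ∃ w : (𝓞 L)ˣ, ∀ ζ ∈ torsion L, ∀ η : (𝓞 L)ˣ, w ≠ ζ * η ^ 5 := by
  let i : Fin (Units.rank L) := ⟨0, h⟩
  refine ⟨fundSystem L i, fun ζ hζ η he => ?_⟩
  obtain ⟨⟨ζ', e⟩, h1, -⟩ := exist_unique_eq_mul_prod L η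
  obtain ⟨z, -, huniq⟩ := exist_unique_eq_mul_prod L (fundSystem L i)
  have h2 := huniq (1, Pi.single i 1) (by
    simp only [OneMemClass.coe_one, one_mul]
    rw [Finset.prod_eq_single i]
    · simp
    · intro j _ hj
      rw [Pi.single_eq_of_ne hj, zpow_zero]
    · intro hi
      exact absurd (Finset.mem_univ i) hi)
  have h3 := huniq (⟨ζ, hζ⟩ * ζ' ^ 5, fun j => e j * 5) (by
    simp only [Subgroup.coe_mul, SubmonoidClass.coe_pow]
    rw [he, h1, mul_pow, ← Finset.prod_pow, mul_assoc]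
    congr 2
    apply Finset.prod_congr rfl
    intro j _
    rw [zpow_mul, zpow_ofNat])
  have h4 := congrFun (congrArg Prod.snd (h2.trans h3.symm)) i
  simp only [Pi.single_eq_same] at h4
  omega

/-- `(1 - σ) ^ 4 = 1 + σ + σ² + σ³ + σ⁴ + 5 (-σ + σ² - σ³)` -/
theorem delta_four {E : Type*} [AddCommGroup E] (σ : E →+ E) (v : E) :
    (v - σ v - σ (v - σ v) - σ (v - σ v - σ (v - σ v))) -
      σ (v - σ v - σ (v - σ v) - σ (v - σ v - σ (v - σ v))) =
    (v + σ v + σ (σ v) + σ (σ (σ v)) + σ (σ (σ (σ v)))) +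
      (5 : ℕ) • (-σ v + σ (σ v) - σ (σ (σ v))) := by
  simp only [map_sub]
  abel

/-- some unit is not a torsion unit times `ξ / σ ξ` -/
theorem exists_unit_not_coboundary (h : 0 < Units.rank L) (σ : (𝓞 L)ˣ →* (𝓞 L)ˣ)
    (hN : ∀ v : (𝓞 L)ˣ, v * σ v * σ (σ v) * σ (σ (σ v)) * σ (σ (σ (σ v))) ∈ torsion L) :
    ∃ w : (𝓞 L)ˣ, ∀ ζ ∈ torsion L, ∀ ξ : (𝓞 L)ˣ, w ≠ ζ * (ξ / σ ξ) := by
  by_contra hcon
  push Not at hcon
  obtain ⟨w, hw⟩ := exists_not_torsion_mul_pow L h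
  have hs : ∀ z ∈ torsion L, σ z ∈ torsion L := by
    intro z hz
    rw [torsion, CommGroup.mem_torsion, isOfFinOrder_iff_pow_eq_one] at hz ⊢
    obtain ⟨n, hn, hz⟩ := hz
    exact ⟨n, hn, by rw [← map_pow, hz, map_one]⟩
  have hd : ∀ z ∈ torsion L, z / σ z ∈ torsion L := fun z hz => div_mem hz (hs z hz)
  have step : ∀ a : (𝓞 L)ˣ, ∃ ζ ∈ torsion L, ∃ ξ : (𝓞 L)ˣ, a = ζ * (ξ / σ ξ) := hcon
  obtain ⟨ζ₁, hζ₁, ξ₁, h1⟩ := step w
  obtain ⟨ζ₂, hζ₂, ξ₂, h2⟩ := step ξ₁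
  obtain ⟨ζ₃, hζ₃, ξ₃, h3⟩ := step ξ₂
  obtain ⟨ζ₄, hζ₄, ξ₄, h4⟩ := step ξ₃
  -- everything in terms of `ξ₄`
  let δ : (𝓞 L)ˣ → (𝓞 L)ˣ := fun z => z / σ z
  have hδ : ∀ a b, δ (a * b) = δ a * δ b := by
    intro a b
    simp only [δ, map_mul]
    rw [mul_div_mul_comm]
  have hδt : ∀ z ∈ torsion L, δ z ∈ torsion L := hd
  have e : w = (ζ₁ * δ ζ₂ * δ (δ ζ₃) * δ (δ (δ ζ₄))) * δ (δ (δ (δ ξ₄))) := by
    have g1 : w = ζ₁ * δ ξ₁ := h1
    have g2 : ξ₁ = ζ₂ * δ ξ₂ := h2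
    have g3 : ξ₂ = ζ₃ * δ ξ₃ := h3
    have g4 : ξ₃ = ζ₄ * δ ξ₄ := h4
    rw [g1, g2, hδ, g3, hδ, hδ, g4, hδ, hδ, hδ]
    simp only [mul_assoc]
  have key : δ (δ (δ (δ ξ₄))) = (ξ₄ * σ ξ₄ * σ (σ ξ₄) * σ (σ (σ ξ₄)) * σ (σ (σ (σ ξ₄)))) *
      ((σ ξ₄)⁻¹ * σ (σ ξ₄) / σ (σ (σ ξ₄))) ^ 5 :=
    delta_four (E := Additive (𝓞 L)ˣ) (MonoidHom.toAdditive σ) (Additive.ofMul ξ₄)
  refine hw (ζ₁ * δ ζ₂ * δ (δ ζ₃) * δ (δ (δ ζ₄)) *
    (ξ₄ * σ ξ₄ * σ (σ ξ₄) * σ (σ (σ ξ₄)) * σ (σ (σ (σ ξ₄))))) ?_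
    ((σ ξ₄)⁻¹ * σ (σ ξ₄) / σ (σ (σ ξ₄))) ?_
  · exact mul_mem (mul_mem (mul_mem (mul_mem hζ₁ (hδt _ hζ₂)) (hδt _ (hδt _ hζ₃)))
      (hδt _ (hδt _ (hδt _ hζ₄)))) (hN ξ₄)
  · rw [e, key]
    simp only [mul_assoc]

/-- `12 = (1 + σ + σ² + σ³ + σ⁴) * 2 + (1 - σ) * (...)`: the norm of `v ^ 12`. -/
theorem norm_identity {E : Type*} [AddCommGroup E] (σ : E →+ E) (v : E) :
    (5 : ℕ) • v = (v + σ v + σ (σ v) + σ (σ (σ v)) + σ (σ (σ (σ v)))) +
      (((4 : ℕ) • v + (3 : ℕ) • σ v + (2 : ℕ) • σ (σ v) + σ (σ (σ v))) -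
        σ ((4 : ℕ) • v + (3 : ℕ) • σ v + (2 : ℕ) • σ (σ v) + σ (σ (σ v)))) := by
  simp only [map_add, map_nsmul]
  abel

/-- a unit of norm one which is not `ξ / σ ξ` -/
theorem exists_unit_norm_one (h : 0 < Units.rank L) (σ : (𝓞 L)ˣ →* (𝓞 L)ˣ)
    (hN : ∀ v : (𝓞 L)ˣ, (v * σ v * σ (σ v) * σ (σ (σ v)) * σ (σ (σ (σ v)))) ^ 12 = 1) :
    ∃ u : (𝓞 L)ˣ, u * σ u * σ (σ u) * σ (σ (σ u)) * σ (σ (σ (σ u))) = 1 ∧
      ∀ ξ : (𝓞 L)ˣ, u ≠ ξ / σ ξ := by
  have hT : ∀ v : (𝓞 L)ˣ, v * σ v * σ (σ v) * σ (σ (σ v)) * σ (σ (σ (σ v))) ∈ torsion L := by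
    intro v
    rw [torsion, CommGroup.mem_torsion, isOfFinOrder_iff_pow_eq_one]
    exact ⟨12, by norm_num, hN v⟩
  obtain ⟨w, hw⟩ := exists_unit_not_coboundary L h σ hT
  refine ⟨w ^ 12, ?_, ?_⟩
  · rw [← hN w]
    simp only [mul_pow, map_pow]
  · intro ξ hξ
    -- `w ^ 25 = w * (w ^ 12) ^ 2`, and `w ^ 5` is a norm times a coboundary
    have key : w ^ 5 = (w * σ w * σ (σ w) * σ (σ (σ w)) * σ (σ (σ (σ w)))) *
        ((w ^ 4 * (σ w) ^ 3 * (σ (σ w)) ^ 2 * σ (σ (σ w))) /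
          σ (w ^ 4 * (σ w) ^ 3 * (σ (σ w)) ^ 2 * σ (σ (σ w)))) :=
      norm_identity (E := Additive (𝓞 L)ˣ) (MonoidHom.toAdditive σ) (Additive.ofMul w)
    set ν := w * σ w * σ (σ w) * σ (σ (σ w)) * σ (σ (σ (σ w))) with hν
    set c := w ^ 4 * (σ w) ^ 3 * (σ (σ w)) ^ 2 * σ (σ (σ w)) with hc
    refine hw (ν ^ 5) (pow_mem (hT w) 5) (c ^ 5 / ξ ^ 2) ?_
    have e1 : w * (w ^ 12) ^ 2 = (w ^ 5) ^ 5 := by
      rw [← pow_mul, ← pow_mul, ← pow_succ']
    have e2 : w = (w ^ 5) ^ 5 / (w ^ 12) ^ 2 := by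
      rw [eq_div_iff_mul_eq', mul_comm]
      rw [mul_comm]; exact e1
    conv_lhs => rw [e2, key, hξ]
    rw [map_div, map_pow, map_pow, mul_pow, div_pow, div_pow]
    rw [mul_div_assoc, div_div_div_comm]

end Pool.Agent.Lib.MP3650db.P5
end

section

set_option autoImplicit false

/-!
Hilbert's theorem 94 for an unramified cyclic extension of degree five, in the special shape used here.
-/

namespace Pool.Agent.Lib.MP3650db.P5

open NumberField ComplexConjugate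

section Aux

variable {K : Type} [Field K] [NumberField K]

/-- units of an imaginary quadratic field are twelfth roots of unity -/
theorem unit_pow_twelve (w : K) (n : ℤ) (hn : n < 0) (hw : w ^ 2 = (n : K))
    (hgen : Algebra.adjoin ℚ {w} = ⊤) (u : (𝓞 K)ˣ) : u ^ 12 = 1 := by
  obtain ⟨φ⟩ : Nonempty (K →+* ℂ) := inferInstance
  obtain ⟨⟨t, ht⟩, ⟨b, hb⟩⟩ := trace_norm_int φ w n hn hw hgen (u : 𝓞 K)
  obtain ⟨-, ⟨b', hb'⟩⟩ := trace_norm_int φ w n hn hw hgen ((u⁻¹ : (𝓞 K)ˣ) : 𝓞 K)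
  have huu : φ ((u : 𝓞 K) : K) * φ (((u⁻¹ : (𝓞 K)ˣ) : 𝓞 K) : K) = 1 := by
    rw [← map_mul, ← map_mul]
    simp
  have hbb : b * b' = 1 := by
    have : ((b * b' : ℤ) : ℂ) = 1 := by
      push_cast
      rw [← hb, ← hb']
      have h := congrArg (fun z => z * conj z) huu
      simp only [map_mul, map_one, mul_one] at h
      linear_combination h
    exact_mod_cast this
  have hbnn : 0 ≤ b := by
    have h1 : ((Complex.normSq (φ ((u : 𝓞 K) : K)) : ℝ) : ℂ) = (b : ℂ) := by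
      rw [← hb, Complex.mul_conj]
    have h2 : Complex.normSq (φ ((u : 𝓞 K) : K)) = (b : ℝ) := by exact_mod_cast h1
    have h3 := Complex.normSq_nonneg (φ ((u : 𝓞 K) : K))
    rw [h2] at h3
    exact_mod_cast h3
  have hb1 : b = 1 := by
    rcases Int.eq_one_or_neg_one_of_mul_eq_one hbb with h | h
    · exact h
    · omega
  subst hb1
  set z : ℂ := φ ((u : 𝓞 K) : K) with hz
  -- z^2 - t z + 1 = 0
  have hquad : z ^ 2 - t * z + 1 = 0 := by
    have h1 : z * conj z = 1 := by rw [hb]; simp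
    linear_combination z * ht - h1
  have ht2 : t ^ 2 ≤ 4 := by
    have hre : 2 * z.re = t := by
      have := congrArg Complex.re ht
      simp at this
      linarith
    have hns : z.re ^ 2 + z.im ^ 2 = 1 := by
      have h1 : ((Complex.normSq z : ℝ) : ℂ) = 1 := by
        rw [← Complex.mul_conj, hb]; simp
      have h2 : Complex.normSq z = 1 := by exact_mod_cast h1
      rw [Complex.normSq_apply] at h2
      nlinarith
    have : (t : ℝ) ^ 2 ≤ 4 := by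
      rw [← hre]; nlinarith [sq_nonneg z.im]
    exact_mod_cast this
  have ht3 : -2 ≤ t ∧ t ≤ 2 := by
    constructor <;> nlinarith
  have hinj : Function.Injective φ := φ.injective
  -- reduce to the ring of integers
  have hK : ((u : 𝓞 K) : K) ^ 2 - t * ((u : 𝓞 K) : K) + 1 = 0 := by
    apply hinj
    simpa using hquad
  have hO : (u : 𝓞 K) ^ 2 - t * (u : 𝓞 K) + 1 = 0 := by
    apply RingOfIntegers.ext
    simpa using hK
  obtain ⟨ht4, ht5⟩ := ht3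
  suffices hv : (u : 𝓞 K) ^ 12 = 1 by
    apply Units.ext
    rw [Units.val_pow_eq_pow_val, hv, Units.val_one]
  have hcase : t = -2 ∨ t = -1 ∨ t = 0 ∨ t = 1 ∨ t = 2 := by omega
  rcases hcase with h | h | h | h | h
  · subst h
    have h1 : ((u : 𝓞 K) + 1) ^ 2 = 0 := by
      push_cast at hO
      linear_combination hO
    have h2 : (u : 𝓞 K) + 1 = 0 := by simpa using h1
    have h3 : (u : 𝓞 K) = -1 := by linear_combination h2
    rw [h3]; norm_num
  · subst h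
    have h3 : (u : 𝓞 K) ^ 3 = 1 := by
      push_cast at hO
      linear_combination ((u : 𝓞 K) - 1) * hO
    rw [show (12 : ℕ) = 3 * 4 by norm_num, pow_mul, h3, one_pow]
  · subst h
    have h3 : (u : 𝓞 K) ^ 2 = -1 := by
      push_cast at hO
      linear_combination hO
    rw [show (12 : ℕ) = 2 * 6 by norm_num, pow_mul, h3]; norm_num
  · subst h
    have h3 : (u : 𝓞 K) ^ 3 = -1 := by
      push_cast at hO
      linear_combination ((u : 𝓞 K) + 1) * hO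
    rw [show (12 : ℕ) = 3 * 4 by norm_num, pow_mul, h3]; norm_num
  · subst h
    have h1 : ((u : 𝓞 K) - 1) ^ 2 = 0 := by
      push_cast at hO
      linear_combination hO
    have h2 : (u : 𝓞 K) - 1 = 0 := by simpa using h1
    have h3 : (u : 𝓞 K) = 1 := by linear_combination h2
    rw [h3]; norm_num

end Aux

/-- the congruences of an element which is totally ramified are contradictory -/
theorem no_total_ramification {S : Type*} [CommRing S] (M : Ideal S) [M.IsMaximal] (t a b c d e : S)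
    (h1 : t + a + b + c + d = 1)
    (h2 : t * a + t * b + t * c + t * d + a * b + a * c + a * d + b * c + b * d + c * d = 0)
    (h4 : t * a * b * c + t * a * b * d + t * a * c * d + t * b * c * d + a * b * c * d = 2 * e)
    (ha : t - a ∈ M) (hb : t - b ∈ M) (hc : t - c ∈ M) (hd : t - d ∈ M) : False := by
  have hprime : M.IsPrime := Ideal.IsMaximal.isPrime inferInstance
  have q : ∀ z, (Ideal.Quotient.mk M z = 0 ↔ z ∈ M) := fun z => Ideal.Quotient.eq_zero_iff_mem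
  have : IsDomain (S ⧸ M) := Ideal.Quotient.isDomain M
  have ea : Ideal.Quotient.mk M a = Ideal.Quotient.mk M t := by
    have := (q _).2 ha; rw [map_sub] at this; exact (sub_eq_zero.1 this).symm
  have eb : Ideal.Quotient.mk M b = Ideal.Quotient.mk M t := by
    have := (q _).2 hb; rw [map_sub] at this; exact (sub_eq_zero.1 this).symm
  have ec : Ideal.Quotient.mk M c = Ideal.Quotient.mk M t := by
    have := (q _).2 hc; rw [map_sub] at this; exact (sub_eq_zero.1 this).symm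
  have ed : Ideal.Quotient.mk M d = Ideal.Quotient.mk M t := by
    have := (q _).2 hd; rw [map_sub] at this; exact (sub_eq_zero.1 this).symm
  have g1 := congrArg (Ideal.Quotient.mk M) h1
  have g2 := congrArg (Ideal.Quotient.mk M) h2
  have g4 := congrArg (Ideal.Quotient.mk M) h4
  simp only [map_add, map_mul, map_one, map_zero, map_ofNat, ea, eb, ec, ed] at g1 g2 g4
  set T := Ideal.Quotient.mk M t
  set E := Ideal.Quotient.mk M e
  have g1' : 5 * T = 1 := by linear_combination g1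
  have g2' : (2 : S ⧸ M) = 0 := by
    have : 10 * T ^ 2 = 0 := by linear_combination g2
    linear_combination 5 * this - (10 * T + 2) * g1'
  have g3 : T ^ 3 = 0 := by
    linear_combination g4 + E * g2' - T ^ 3 * g1'
  have g5 : T = 0 := by simpa using g3
  rw [g5, mul_zero] at g1'
  exact zero_ne_one g1'

/-- If `L / K` has an automorphism of order five with fixed field `K` and an integral element `t`
whose conjugates have elementary symmetric functions `1, 0, *, 2 e, *`, if the units of `K` are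
twelfth roots of unity and `L` has a unit of infinite order, then `5` divides the class number
of `K`. -/
theorem five_dvd_of_quintic {K L : Type*} [Field K] [NumberField K] [Field L] [NumberField L]
    [Algebra K L] (σ : L →ₐ[K] L) (h5 : ∀ y, σ (σ (σ (σ (σ y)))) = y)
    (hfix : ∀ y, σ y = y → ∃ r : K, algebraMap K L r = y)
    (t : L) (hint : IsIntegral ℤ t)
    (ht1 : t + σ t + σ (σ t) + σ (σ (σ t)) + σ (σ (σ (σ t))) = 1)
    (ht2 : t * σ t + t * σ (σ t) + t * σ (σ (σ t)) + t * σ (σ (σ (σ t))) + σ t * σ (σ t) +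
      σ t * σ (σ (σ t)) + σ t * σ (σ (σ (σ t))) + σ (σ t) * σ (σ (σ t)) +
      σ (σ t) * σ (σ (σ (σ t))) + σ (σ (σ t)) * σ (σ (σ (σ t))) = 0)
    (e : ℤ)
    (ht4 : t * σ t * σ (σ t) * σ (σ (σ t)) + t * σ t * σ (σ t) * σ (σ (σ (σ t))) +
      t * σ t * σ (σ (σ t)) * σ (σ (σ (σ t))) + t * σ (σ t) * σ (σ (σ t)) * σ (σ (σ (σ t))) +
      σ t * σ (σ t) * σ (σ (σ t)) * σ (σ (σ (σ t))) = 2 * (e : L))
    (hunits : ∀ v : (𝓞 K)ˣ, v ^ 12 = 1) (hrank : 0 < Units.rank L) :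
    5 ∣ classNumber K := by
  classical
  let s : 𝓞 L →+* 𝓞 L := RingOfIntegers.mapRingHom (σ : L →+* L)
  have hs : ∀ y : 𝓞 L, ((s y : 𝓞 L) : L) = σ (y : L) := fun y => rfl
  have h5' : ∀ y, s (s (s (s (s y)))) = y := by
    intro y
    apply RingOfIntegers.ext
    rw [hs, hs, hs, hs, hs, h5]
  have hcoe : ∀ r : 𝓞 K, ((algebraMap (𝓞 K) (𝓞 L) r : 𝓞 L) : L) = algebraMap K L (r : K) :=
    fun r => rfl
  have hR : ∀ r : 𝓞 K, s (algebraMap (𝓞 K) (𝓞 L) r) = algebraMap (𝓞 K) (𝓞 L) r := by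
    intro r
    apply RingOfIntegers.ext
    rw [hs, hcoe, AlgHom.commutes]
  have hfix' : ∀ y : 𝓞 L, s y = y → ∃ r : 𝓞 K, algebraMap (𝓞 K) (𝓞 L) r = y := by
    intro y hy
    have h1 : σ (y : L) = y := by rw [← hs, hy]
    obtain ⟨r, hr⟩ := hfix _ h1
    have hri : IsIntegral ℤ r := by
      have h2 : IsIntegral ℤ (algebraMap K L r) := by rw [hr]; exact y.2
      exact (isIntegral_algebraMap_iff (algebraMap K L).injective).1 h2
    exact ⟨⟨r, hri⟩, RingOfIntegers.ext hr⟩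
  let t' : 𝓞 L := ⟨t, hint⟩
  have ht' : ((t' : 𝓞 L) : L) = t := rfl
  have ht1' : t' + s t' + s (s t') + s (s (s t')) + s (s (s (s t'))) = 1 := by
    apply RingOfIntegers.ext
    simpa [hs, ht'] using ht1
  have ht2' : t' * s t' + t' * s (s t') + t' * s (s (s t')) + t' * s (s (s (s t'))) +
      s t' * s (s t') + s t' * s (s (s t')) + s t' * s (s (s (s t'))) +
      s (s t') * s (s (s t')) + s (s t') * s (s (s (s t'))) +
      s (s (s t')) * s (s (s (s t'))) = 0 := by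
    apply RingOfIntegers.ext
    simpa [hs, ht'] using ht2
  have ht4' : t' * s t' * s (s t') * s (s (s t')) + t' * s t' * s (s t') * s (s (s (s t'))) +
      t' * s t' * s (s (s t')) * s (s (s (s t'))) +
      t' * s (s t') * s (s (s t')) * s (s (s (s t'))) +
      s t' * s (s t') * s (s (s t')) * s (s (s (s t'))) = 2 * (e : 𝓞 L) := by
    apply RingOfIntegers.ext
    have h2 : (algebraMap (𝓞 L) L) 2 = 2 := map_ofNat _ 2
    simpa [hs, ht', h2] using ht4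
  have hinj : Function.Injective (algebraMap (𝓞 K) (𝓞 L)) := RingOfIntegers.algebraMap.injective K L
  -- no inertia
  have hM : ∀ M : Ideal (𝓞 L), M.IsMaximal → (∃ y, y - s y ∉ M) ∧ (∃ y, y - s (s y) ∉ M) ∧
      (∃ y, y - s (s (s y)) ∉ M) ∧ (∃ y, y - s (s (s (s y))) ∉ M) := by
    intro M hMmax
    have key := fun ha hb hc hd => no_total_ramification M t' (s t') (s (s t')) (s (s (s t')))
      (s (s (s (s t')))) (e : 𝓞 L) ht1' ht2' ht4' ha hb hc hd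
    have tr := fun (x y z : 𝓞 L) (h : x - y ∈ M) (h' : y - z ∈ M) =>
      (by have := M.add_mem h h'; rwa [sub_add_sub_cancel] at this : x - z ∈ M)
    refine ⟨?_, ?_, ?_, ?_⟩
    · by_contra hcon
      push Not at hcon
      have a1 := hcon t'
      have a2 := tr _ _ _ a1 (hcon (s t'))
      have a3 := tr _ _ _ a2 (hcon (s (s t')))
      have a4 := tr _ _ _ a3 (hcon (s (s (s t'))))
      exact key a1 a2 a3 a4
    · by_contra hcon
      push Not at hcon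
      have a2 := hcon t'
      have a4 := tr _ _ _ a2 (hcon (s (s t')))
      have a1 := tr _ _ _ a4 (hcon (s (s (s (s t')))))
      rw [h5'] at a1
      have a3 := tr _ _ _ a1 (hcon (s t'))
      exact key a1 a2 a3 a4
    · by_contra hcon
      push Not at hcon
      have a3 := hcon t'
      have a1 := tr _ _ _ a3 (hcon (s (s (s t'))))
      rw [h5'] at a1
      have a4 := tr _ _ _ a1 (hcon (s t'))
      have a2 := tr _ _ _ a4 (hcon (s (s (s (s t')))))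
      rw [h5'] at a2
      exact key a1 a2 a3 a4
    · by_contra hcon
      push Not at hcon
      have a4 := hcon t'
      have a3 := tr _ _ _ a4 (hcon (s (s (s (s t')))))
      rw [h5'] at a3
      have a2 := tr _ _ _ a3 (hcon (s (s (s t'))))
      rw [h5'] at a2
      have a1 := tr _ _ _ a2 (hcon (s (s t')))
      rw [h5'] at a1
      exact key a1 a2 a3 a4
  -- the conjugates are distinct
  obtain ⟨M0, hM0⟩ := Ideal.exists_maximal (𝓞 L)
  have hd : t' ≠ s t' ∧ t' ≠ s (s t') ∧ t' ≠ s (s (s t')) ∧ t' ≠ s (s (s (s t'))) := by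
    have key := fun ha hb hc hd => no_total_ramification M0 t' (s t') (s (s t')) (s (s (s t')))
      (s (s (s (s t')))) (e : 𝓞 L) ht1' ht2' ht4' ha hb hc hd
    have z : ∀ x : 𝓞 L, t' = x → t' - x ∈ M0 := by
      intro x hx
      rw [← hx, sub_self]
      exact M0.zero_mem
    refine ⟨?_, ?_, ?_, ?_⟩
    · intro h
      have a1 := h
      have a2 : t' = s (s t') := by rw [← a1]; exact a1
      have a3 : t' = s (s (s t')) := by rw [← a2]; exact a1
      have a4 : t' = s (s (s (s t'))) := by rw [← a3]; exact a1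
      exact key (z _ a1) (z _ a2) (z _ a3) (z _ a4)
    · intro h
      have a2 := h
      have a4 : t' = s (s (s (s t'))) := by rw [← a2]; exact a2
      have a1 : t' = s t' := by
        have h1 := congrArg (fun x => s (s x)) a4
        simp only [h5'] at h1
        exact a2.trans h1
      have a3 : t' = s (s (s t')) := by rw [← a2]; exact a1
      exact key (z _ a1) (z _ a2) (z _ a3) (z _ a4)
    · intro h
      have a3 := h
      have a1 : t' = s t' := by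
        have h1 := congrArg (fun x => s (s (s x))) a3
        simp only [h5'] at h1
        exact a3.trans h1
      have a2 : t' = s (s t') := by rw [← a1]; exact a1
      have a4 : t' = s (s (s (s t'))) := by rw [← a3]; exact a1
      exact key (z _ a1) (z _ a2) (z _ a3) (z _ a4)
    · intro h
      have a4 := h
      have a1 : t' = s t' := by
        have h1 := congrArg s a4
        simp only [h5'] at h1
        exact h1.symm
      have a2 : t' = s (s t') := by rw [← a1]; exact a1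
      have a3 : t' = s (s (s t')) := by rw [← a2]; exact a1
      exact key (z _ a1) (z _ a2) (z _ a3) (z _ a4)
  -- the unit
  let S : (𝓞 L)ˣ →* (𝓞 L)ˣ := Units.map (s : 𝓞 L →* 𝓞 L)
  have hS : ∀ v : (𝓞 L)ˣ, ((S v : (𝓞 L)ˣ) : 𝓞 L) = s v := fun v => rfl
  have hS5 : ∀ v, S (S (S (S (S v)))) = v := by
    intro v
    apply Units.ext
    rw [hS, hS, hS, hS, hS, h5']
  have hfixu : ∀ v : (𝓞 L)ˣ, S v = v → v ^ 12 = 1 := by
    intro v hv
    have h1 : s (v : 𝓞 L) = v := by rw [← hS, hv]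
    have h2 : s ((v⁻¹ : (𝓞 L)ˣ) : 𝓞 L) = ((v⁻¹ : (𝓞 L)ˣ) : 𝓞 L) := by
      rw [← hS, map_inv, hv]
    obtain ⟨r, hr⟩ := hfix' _ h1
    obtain ⟨r', hr'⟩ := hfix' _ h2
    have h12 : r * r' = 1 := by
      apply hinj
      rw [map_mul, hr, hr', map_one, Units.mul_inv]
    have h21 : r' * r = 1 := by rw [mul_comm]; exact h12
    have h4 := hunits ⟨r, r', h12, h21⟩
    have h5 : r ^ 12 = 1 := by
      have := congrArg (fun z : (𝓞 K)ˣ => (z : 𝓞 K)) h4
      simpa using this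
    apply Units.ext
    rw [Units.val_pow_eq_pow_val, ← hr, ← map_pow, h5, map_one, Units.val_one]
  have hN : ∀ v : (𝓞 L)ˣ, (v * S v * S (S v) * S (S (S v)) * S (S (S (S v)))) ^ 12 = 1 := by
    intro v
    apply hfixu
    simp only [map_mul, hS5]
    simp only [mul_comm, mul_left_comm]
  obtain ⟨u, hu1, hu2⟩ := exists_unit_norm_one L hrank S hN
  have hu1' : (u : 𝓞 L) * s u * s (s u) * s (s (s u)) * s (s (s (s u))) = 1 := by
    have := congrArg (fun z : (𝓞 L)ˣ => (z : 𝓞 L)) hu1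
    simpa [hS] using this
  have hu2' : ∀ ξ : (𝓞 L)ˣ, (u : 𝓞 L) * s ξ ≠ ξ := by
    intro ξ hξ
    apply hu2 ξ
    rw [eq_div_iff_mul_eq']
    apply Units.ext
    rw [Units.val_mul, hS]
    exact hξ
  obtain ⟨J, hJ0, hJp, y, hJ5⟩ := exists_ideal s h5' hR hfix' t' ht1' hd.1 hd.2.1 hd.2.2.1 hd.2.2.2
    hM hinj u hu1' hu2'
  have hJm : J ∈ nonZeroDivisors (Ideal (𝓞 K)) := mem_nonZeroDivisors_iff_ne_zero.2 hJ0
  let c : ClassGroup (𝓞 K) := ClassGroup.mk0 ⟨J, hJm⟩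
  have hc1 : c ≠ 1 := by
    intro h
    rw [ClassGroup.mk0_eq_one_iff] at h
    obtain ⟨j, hj⟩ := h
    exact hJp ⟨j, hj⟩
  have hc5 : c ^ 5 = 1 := by
    rw [← map_pow, ClassGroup.mk0_eq_one_iff]
    exact ⟨y, by simpa using hJ5⟩
  have : Fact (Nat.Prime 5) := ⟨by norm_num⟩
  have hord : orderOf c = 5 := orderOf_eq_prime hc5 hc1
  rw [classNumber, ← hord]
  exact orderOf_dvd_card

end Pool.Agent.Lib.MP3650db.P5
end

section

set_option autoImplicit false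

/-!
A cyclic extension of degree five from five elements `r 0, …, r 4` of a Galois extension which every
automorphism permutes cyclically.
-/

namespace Pool.Agent.Lib.MP3650db.P5

open IntermediateField

section

variable {K A : Type*} [Field K] [Field A] [Algebra K A] (r : ℕ → A)

theorem per_mul (hper : ∀ k, r (k + 5) = r k) (m k : ℕ) : r (k + 5 * m) = r k := by
  induction m with
  | zero => rfl
  | succ m ih => rw [mul_add, mul_one, ← add_assoc, hper, ih]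

theorem pow_shift (g : A ≃ₐ[K] A) (j : ℕ) (hg : ∀ k, g (r k) = r (k + j)) (m : ℕ) :
    ∀ k, (g ^ m) (r k) = r (k + m * j) := by
  induction m with
  | zero => intro k; simp
  | succ m ih =>
    intro k
    rw [pow_succ, AlgEquiv.mul_apply, hg, ih]
    congr 1
    ring

theorem exists_mul_eq (j : ℕ) (hj : ¬ 5 ∣ j) : ∃ m q : ℕ, m * j = 1 + 5 * q := by
  have h : j % 5 = 1 ∨ j % 5 = 2 ∨ j % 5 = 3 ∨ j % 5 = 4 := by omega
  rcases h with h | h | h | h
  · exact ⟨1, j / 5, by omega⟩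
  · exact ⟨3, 3 * (j / 5) + 1, by omega⟩
  · exact ⟨2, 2 * (j / 5) + 1, by omega⟩
  · exact ⟨4, 4 * (j / 5) + 3, by omega⟩

variable [IsGalois K A]

/-- the generator -/
theorem exists_gen (hper : ∀ k, r (k + 5) = r k)
    (hsh : ∀ g : A ≃ₐ[K] A, ∃ j, ∀ k, g (r k) = r (k + j)) (h0 : ∀ c : K, algebraMap K A c ≠ r 0) :
    ∃ g : A ≃ₐ[K] A, ∀ k, g (r k) = r (k + 1) := by
  by_contra hcon
  push Not at hcon
  have hall : ∀ g : A ≃ₐ[K] A, g (r 0) = r 0 := by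
    intro g
    obtain ⟨j, hj⟩ := hsh g
    by_cases h : 5 ∣ j
    · obtain ⟨q, rfl⟩ := h
      rw [hj, per_mul r hper]
    · exfalso
      obtain ⟨m, q, hm⟩ := exists_mul_eq j h
      obtain ⟨k, hk⟩ := hcon (g ^ m)
      apply hk
      rw [pow_shift r g j hj, hm, ← add_assoc, per_mul r hper]
  have := (InfiniteGalois.mem_range_algebraMap_iff_fixed (k := K) (r 0)).2 hall
  obtain ⟨c, hc⟩ := this
  exact h0 c hc

theorem inj_zero (hper : ∀ k, r (k + 5) = r k)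
    (hsh : ∀ g : A ≃ₐ[K] A, ∃ j, ∀ k, g (r k) = r (k + j)) (h0 : ∀ c : K, algebraMap K A c ≠ r 0)
    (j : ℕ) (hj : r j = r 0) : 5 ∣ j := by
  by_contra h
  obtain ⟨g, hg⟩ := exists_gen r hper hsh h0
  have h1 : ∀ i, r (i + j) = r i := by
    intro i
    have e1 := pow_shift r g 1 hg i j
    have e2 := pow_shift r g 1 hg i 0
    rw [hj] at e1
    rw [e1] at e2
    rw [mul_one, zero_add] at e2
    rw [add_comm] at e2
    exact e2
  obtain ⟨m, q, hm⟩ := exists_mul_eq j h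
  have h2 : ∀ n i, r (i + n * j) = r i := by
    intro n
    induction n with
    | zero => intro i; simp
    | succ n ih =>
      intro i
      rw [add_mul, one_mul, ← add_assoc, h1, ih]
  have h3 : ∀ i, r (i + 1) = r i := by
    intro i
    rw [← h2 m i, hm, ← add_assoc, per_mul r hper]
  have h4 : ∀ i, r i = r 0 := by
    intro i
    induction i with
    | zero => rfl
    | succ i ih => rw [h3, ih]
  have hall : ∀ g : A ≃ₐ[K] A, g (r 0) = r 0 := by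
    intro g
    obtain ⟨j, hj⟩ := hsh g
    rw [hj, h4]
  obtain ⟨c, hc⟩ := (InfiniteGalois.mem_range_algebraMap_iff_fixed (k := K) (r 0)).2 hall
  exact h0 c hc

theorem fix_of_fix (g : A ≃ₐ[K] A) (a : A) (h : g a = a) : g ∈ (K⟮a⟯).fixingSubgroup := by
  have h1 : K⟮a⟯ ≤ fixedField (Subgroup.zpowers g) := by
    rw [adjoin_simple_le_iff]
    rw [mem_fixedField_iff]
    intro f hf
    obtain ⟨n, rfl⟩ := hf
    have : g ∈ MulAction.stabilizer (A ≃ₐ[K] A) a := h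
    exact (zpow_mem this n : _)
  have h2 := (IntermediateField.le_iff_le (Subgroup.zpowers g) K⟮a⟯).1 h1
  exact h2 (Subgroup.mem_zpowers g)

/-- the cyclic extension of degree five -/
theorem exists_cyclic (hper : ∀ k, r (k + 5) = r k)
    (hsh : ∀ g : A ≃ₐ[K] A, ∃ j, ∀ k, g (r k) = r (k + j)) (h0 : ∀ c : K, algebraMap K A c ≠ r 0) :
    ∃ (L : IntermediateField K A) (σ : L →ₐ[K] L) (t : L), FiniteDimensional K L ∧
      (t : A) = r 0 ∧ ((σ t : L) : A) = r 1 ∧ ((σ (σ t) : L) : A) = r 2 ∧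
      ((σ (σ (σ t)) : L) : A) = r 3 ∧ ((σ (σ (σ (σ t))) : L) : A) = r 4 ∧
      (∀ y, σ (σ (σ (σ (σ y)))) = y) ∧ (∀ y, σ y = y → ∃ c : K, algebraMap K L c = y) := by
  obtain ⟨g, hg⟩ := exists_gen r hper hsh h0
  have hinj := inj_zero r hper hsh h0
  have hint : IsIntegral K (r 0) := Algebra.IsIntegral.isIntegral (r 0)
  have hfixall : ∀ f : A ≃ₐ[K] A, f (r 0) = r 0 → ∀ k, f (r k) = r k := by
    intro f hf k
    obtain ⟨j, hj⟩ := hsh f
    have h1 := hj 0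
    rw [zero_add, hf] at h1
    obtain ⟨q, hq⟩ := hinj j h1.symm
    rw [hj, hq, per_mul r hper]
  have hmem : ∀ k, r k ∈ K⟮r 0⟯ := by
    intro k
    rw [← InfiniteGalois.fixedField_fixingSubgroup K⟮r 0⟯, mem_fixedField_iff]
    intro f hf
    apply hfixall
    exact (mem_fixingSubgroup_iff _ f).1 hf (r 0) (mem_adjoin_simple_self K (r 0))
  have hnormal : Normal K K⟮r 0⟯ := by
    rw [normal_iff_forall_map_le']
    intro f
    rw [adjoin_map, Set.image_singleton, adjoin_simple_le_iff]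
    obtain ⟨j, hj⟩ := hsh f
    have : (f : A →ₐ[K] A) (r 0) = r (0 + j) := hj 0
    rw [this]
    exact hmem _
  have hfin : FiniteDimensional K K⟮r 0⟯ := adjoin.finiteDimensional hint
  let s : K⟮r 0⟯ ≃ₐ[K] K⟮r 0⟯ := g.restrictNormal K⟮r 0⟯
  have hs : ∀ y : K⟮r 0⟯, ((s y : K⟮r 0⟯) : A) = g (y : A) := fun y =>
    AlgEquiv.restrictNormal_commutes g K⟮r 0⟯ y
  have hpow : ∀ y : K⟮r 0⟯, g (g (g (g (g (y : A))))) = y := by
    intro y
    have h1 : (g * g * g * g * g) (r 0) = r 0 := by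
      simp only [AlgEquiv.mul_apply, hg]
      exact hper 0
    have h2 := fix_of_fix _ _ h1
    exact (mem_fixingSubgroup_iff _ _).1 h2 (y : A) y.2
  refine ⟨K⟮r 0⟯, (s : K⟮r 0⟯ →ₐ[K] K⟮r 0⟯), ⟨r 0, hmem 0⟩, hfin, rfl, ?_, ?_, ?_, ?_, ?_, ?_⟩
  · exact (hs _).trans (hg 0)
  · refine (hs _).trans ?_
    have : (((s : K⟮r 0⟯ →ₐ[K] K⟮r 0⟯) ⟨r 0, hmem 0⟩ : K⟮r 0⟯) : A) = r 1 := (hs _).trans (hg 0)
    rw [this]
    exact hg 1
  · refine (hs _).trans ?_
    have e1 : (((s : K⟮r 0⟯ →ₐ[K] K⟮r 0⟯) ⟨r 0, hmem 0⟩ : K⟮r 0⟯) : A) = r 1 := (hs _).trans (hg 0)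
    have e2 : (((s : K⟮r 0⟯ →ₐ[K] K⟮r 0⟯) ((s : K⟮r 0⟯ →ₐ[K] K⟮r 0⟯) ⟨r 0, hmem 0⟩) : K⟮r 0⟯) : A) =
      r 2 := by
      refine (hs _).trans ?_
      rw [e1]; exact hg 1
    rw [e2]
    exact hg 2
  · refine (hs _).trans ?_
    have e1 : (((s : K⟮r 0⟯ →ₐ[K] K⟮r 0⟯) ⟨r 0, hmem 0⟩ : K⟮r 0⟯) : A) = r 1 := (hs _).trans (hg 0)
    have e2 : (((s : K⟮r 0⟯ →ₐ[K] K⟮r 0⟯) ((s : K⟮r 0⟯ →ₐ[K] K⟮r 0⟯) ⟨r 0, hmem 0⟩) : K⟮r 0⟯) : A) =
      r 2 := by
      refine (hs _).trans ?_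
      rw [e1]; exact hg 1
    have e3 : (((s : K⟮r 0⟯ →ₐ[K] K⟮r 0⟯) ((s : K⟮r 0⟯ →ₐ[K] K⟮r 0⟯)
      ((s : K⟮r 0⟯ →ₐ[K] K⟮r 0⟯) ⟨r 0, hmem 0⟩)) : K⟮r 0⟯) : A) = r 3 := by
      refine (hs _).trans ?_
      rw [e2]; exact hg 2
    rw [e3]
    exact hg 3
  · intro y
    apply Subtype.ext
    change ((s (s (s (s (s y)))) : K⟮r 0⟯) : A) = y
    rw [hs, hs, hs, hs, hs]
    exact hpow y
  · intro y hy
    have hy' : g (y : A) = y := by
      have := congrArg (fun z : K⟮r 0⟯ => (z : A)) hy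
      exact (hs y).symm.trans this
    have hall : ∀ f : A ≃ₐ[K] A, f (y : A) = y := by
      intro f
      obtain ⟨j, hj⟩ := hsh f
      have h1 : (f⁻¹ * g ^ j) (r 0) = r 0 := by
        rw [AlgEquiv.mul_apply, pow_shift r g 1 hg, mul_one]
        have h2 := hj 0
        rw [← h2]
        exact f.symm_apply_apply (r 0)
      have h2 := (mem_fixingSubgroup_iff _ _).1 (fix_of_fix _ _ h1) (y : A) y.2
      rw [AlgEquiv.mul_apply] at h2
      have h3 : (g ^ j) (y : A) = y := by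
        clear h2 h1 hj
        induction j with
        | zero => simp
        | succ j ih => rw [pow_succ, AlgEquiv.mul_apply, hy', ih]
      rw [h3] at h2
      have h4 := congrArg f h2
      have h5 : f (f⁻¹ (y : A)) = y := f.apply_symm_apply (y : A)
      rw [h5] at h4
      exact h4.symm
    obtain ⟨c, hc⟩ := (InfiniteGalois.mem_range_algebraMap_iff_fixed (k := K) (y : A)).2 hall
    exact ⟨c, Subtype.ext hc⟩

end

end Pool.Agent.Lib.MP3650db.P5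
end

section

set_option autoImplicit false

/-!
The roots `(1 + x + 1/x + x²/γ + γ/x²) / 5`, `x ^ 5 = α γ²`, of a quintic polynomial with rational
coefficients, and the action of automorphisms on them.
-/

namespace Pool.Agent.Lib.MP3650db.P5

variable {A : Type*} [Field A]

/-- the root attached to a fifth root `x` of `α γ²` -/
def rt (γ x : A) : A := (1 + x + x⁻¹ + x ^ 2 / γ + γ / x ^ 2) / 5

theorem quintic_aux (u v : A) (hu : u ≠ 0) (hv : v ≠ 0) :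
    (u + u⁻¹ + v + v⁻¹) ^ 5 - 10 * (u + u⁻¹ + v + v⁻¹) ^ 3
      - 5 * (u * v ^ 2 + (u * v ^ 2)⁻¹ + u ^ 2 / v + v / u ^ 2) * (u + u⁻¹ + v + v⁻¹) ^ 2
      + 5 * (1 - (u * v ^ 2 + (u * v ^ 2)⁻¹) * (u ^ 2 / v + v / u ^ 2)) * (u + u⁻¹ + v + v⁻¹)
      - (u ^ 5 + (u ^ 5)⁻¹ + v ^ 5 + (v ^ 5)⁻¹) = 0 := by
  field_simp
  ring

theorem quintic_rt [CharZero A] (x α γ T N t : A) (hx : x ≠ 0) (hγ : γ ≠ 0)
    (hα : x ^ 5 = α * γ ^ 2)
    (hT : α + α⁻¹ + γ + γ⁻¹ = T + 4) (hN : (α + α⁻¹) * (γ + γ⁻¹) = N + 2 * T + 4)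
    (ht : α * γ ^ 2 + (α * γ ^ 2)⁻¹ + γ / α ^ 2 + α ^ 2 / γ = t) :
    (rt γ x) ^ 5 - (rt γ x) ^ 4 - T / 25 * (rt γ x) ^ 2 - N / 125 * rt γ x
      - (t - 4 - 5 * T - 5 * N) / 3125 = 0 := by
  have h := quintic_aux x (x ^ 2 / γ) hx (div_ne_zero (pow_ne_zero 2 hx) hγ)
  have e1 : x * (x ^ 2 / γ) ^ 2 = α := by
    field_simp
    linear_combination hα
  have e2 : x ^ 2 / (x ^ 2 / γ) = γ := by field_simp
  have e3 : x ^ 2 / γ / x ^ 2 = γ⁻¹ := by field_simp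
  have e4 : (x ^ 2 / γ) ^ 5 = α ^ 2 / γ := by
    have : (x ^ 2 / γ) ^ 5 = (x ^ 5) ^ 2 / γ ^ 5 := by field_simp
    rw [this, hα]
    field_simp
  have hα0 : α ≠ 0 := by
    rintro rfl
    rw [zero_mul] at hα
    exact hx (by simpa using hα)
  have e5 : (α ^ 2 / γ)⁻¹ = γ / α ^ 2 := by rw [inv_div]
  have e6 : (x ^ 2 / γ)⁻¹ = γ / x ^ 2 := by rw [inv_div]
  have ht' : α * γ ^ 2 + (α * γ ^ 2)⁻¹ + α ^ 2 / γ + γ / α ^ 2 = t := by
    rw [← ht]; ring
  rw [e1, e2, e3, e4, hα, e5, e6, hT, hN, ht'] at h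
  unfold rt
  set S := x + x⁻¹ + x ^ 2 / γ + γ / x ^ 2 with hS
  have e7 : 1 + x + x⁻¹ + x ^ 2 / γ + γ / x ^ 2 = 1 + S := by rw [hS]; ring
  rw [e7]
  linear_combination h / 3125

/-- an automorphism with `γ ↦ α` -/
theorem rt_conj2 (α γ y : A) (hy : y ≠ 0) (hα : α ≠ 0) (hγ : γ ≠ 0) (h : y ^ 5 = α ^ 2 / γ) :
    rt α y = rt γ (α / y ^ 2) := by
  have e1 : (α / y ^ 2) ^ 2 / γ = y := by
    have : (α / y ^ 2) ^ 2 / γ = (α ^ 2 / γ) / y ^ 4 := by field_simp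
    rw [this, ← h]
    field_simp
  have e2 : γ / (α / y ^ 2) ^ 2 = y⁻¹ := by
    rw [← e1, inv_div, e1]
  have e3 : (α / y ^ 2)⁻¹ = y ^ 2 / α := by rw [inv_div]
  unfold rt
  rw [e1, e2, e3]
  ring

/-- an automorphism with `γ ↦ α⁻¹` -/
theorem rt_conj3 (α γ y : A) (hy : y ≠ 0) (hα : α ≠ 0) (hγ : γ ≠ 0) (h : y ^ 5 = γ / α ^ 2) :
    rt α⁻¹ y = rt γ (α * y ^ 2) := by
  have e1 : (α * y ^ 2) ^ 2 / γ = y⁻¹ := by
    have : (α * y ^ 2) ^ 2 / γ = y ^ 4 / (γ / α ^ 2) := by field_simp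
    rw [this, ← h]
    field_simp
  have e2 : γ / (α * y ^ 2) ^ 2 = y := by
    have := congrArg (·⁻¹) e1
    simpa using this
  have e3 : (α * y ^ 2)⁻¹ = α⁻¹ / y ^ 2 := by field_simp
  have e4 : y ^ 2 / α⁻¹ = α * y ^ 2 := by field_simp
  unfold rt
  rw [e1, e2, e3, e4]
  ring

/-- an automorphism with `γ ↦ γ⁻¹` -/
theorem rt_conj4 (α γ y : A) (hy : y ≠ 0) (hα : α ≠ 0) (hγ : γ ≠ 0) :
    rt γ⁻¹ y = rt γ y⁻¹ := by
  unfold rt
  have e1 : y ^ 2 / γ⁻¹ = γ / (y⁻¹) ^ 2 := by field_simp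
  have e2 : γ⁻¹ / y ^ 2 = (y⁻¹) ^ 2 / γ := by field_simp
  rw [e1, e2, inv_inv]
  ring

end Pool.Agent.Lib.MP3650db.P5
end

section

set_option autoImplicit false

/-!
The numbers `α`, `γ` attached to a fifth root of unity, and the cyclic permutation of the five roots
by the automorphisms.
-/

namespace Pool.Agent.Lib.MP3650db.P5

variable {A : Type*} [Field A] [CharZero A]

/-- the number `α` attached to the fifth root of unity `z` -/
def al (d : A) (a0 a1 w0 w1 : ℚ) (z : A) : A :=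
  (2 + ((a0 : A) + (a1 : A) * (1 + z + z ^ 4)) +
    ((w0 : A) + (w1 : A) * (1 + z + z ^ 4)) * (z - z ^ 4) * d) / 2

section

variable (d z : A) (a0 a1 w0 w1 D : ℚ) (hd : d ^ 2 = -(D : A))
  (hz : z ^ 4 + z ^ 3 + z ^ 2 + z + 1 = 0)
  (h1 : a0 ^ 2 + a1 ^ 2 + 4 * a0 = D * (2 * w0 ^ 2 + 2 * w0 * w1 + 3 * w1 ^ 2))
  (h2 : 2 * a0 * a1 + a1 ^ 2 + 4 * a1 = D * (w0 ^ 2 + 6 * w0 * w1 + 4 * w1 ^ 2))

include hz in
theorem z_five : z ^ 5 = 1 := by linear_combination (z - 1) * hz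

include hz in
theorem phi_sq : (1 + z + z ^ 4) ^ 2 = (1 + z + z ^ 4) + 1 := by
  linear_combination (z ^ 4 - z ^ 3 + 2 * z - 1) * hz

include hz in
theorem theta_sq : (z - z ^ 4) ^ 2 = -(2 + (1 + z + z ^ 4)) := by
  linear_combination (z ^ 4 - z ^ 3 - 2 * z + 3) * hz

include hz in
theorem al_four : al d a0 a1 w0 w1 (z ^ 4) = (2 + ((a0 : A) + (a1 : A) * (1 + z + z ^ 4)) -
    ((w0 : A) + (w1 : A) * (1 + z + z ^ 4)) * (z - z ^ 4) * d) / 2 := by
  have h16 : (z ^ 4) ^ 4 = z := by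
    linear_combination (z * (z ^ 10 + z ^ 5 + 1)) * (z_five z hz)
  unfold al
  rw [h16]
  ring

include hd hz h1 h2 in
theorem al_mul : al d a0 a1 w0 w1 z * al d a0 a1 w0 w1 (z ^ 4) = 1 := by
  rw [al_four d z a0 a1 w0 w1 hz]
  unfold al
  have e1 := phi_sq z hz
  have e2 := theta_sq z hz
  set p := 1 + z + z ^ 4 with hp
  set q := z - z ^ 4 with hq
  have g1 : (a0 : A) ^ 2 + a1 ^ 2 + 4 * a0 = D * (2 * w0 ^ 2 + 2 * w0 * w1 + 3 * w1 ^ 2) := by
    exact_mod_cast congrArg (fun x : ℚ => (x : A)) h1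
  have g2 : 2 * (a0 : A) * a1 + a1 ^ 2 + 4 * a1 = D * (w0 ^ 2 + 6 * w0 * w1 + 4 * w1 ^ 2) := by
    exact_mod_cast congrArg (fun x : ℚ => (x : A)) h2
  linear_combination (g1 + p * g2) / 4 +
    ((a1 : A) ^ 2 - (D : A) * ((w0 : A) * 2 * w1 + w1 ^ 2 * 3 + w1 ^ 2 * p)) / 4 * e1
    - ((w0 : A) + w1 * p) ^ 2 * d ^ 2 / 4 * e2 + ((w0 : A) + w1 * p) ^ 2 * (2 + p) / 4 * hd

include hz in
theorem ne_one : z ≠ 1 := by
  rintro rfl
  norm_num at hz

include hz in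
theorem prim : IsPrimitiveRoot z 5 := by
  have : Fact (Nat.Prime 5) := ⟨by norm_num⟩
  exact IsPrimitiveRoot.iff_orderOf.2 (orderOf_eq_prime (z_five z hz) (ne_one z hz))

theorem al_map (g : A →+* A) (hg : g d = d) (y : A) :
    g (al d a0 a1 w0 w1 y) = al d a0 a1 w0 w1 (g y) := by
  unfold al
  simp only [map_div₀, map_add, map_mul, map_sub, map_pow, map_ofNat, map_one, hg, map_ratCast]

include hd hz h1 h2 in
/-- every automorphism over `ℚ(d)` permutes the roots cyclically -/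
theorem shift (b : A) (hb : b ^ 5 = al d a0 a1 w0 w1 z * al d a0 a1 w0 w1 (z ^ 3) ^ 2)
    (g : A →+* A) (hg : g d = d) :
    ∃ j : ℕ, ∀ k : ℕ, g (rt (al d a0 a1 w0 w1 (z ^ 3)) (z ^ k * b)) =
      rt (al d a0 a1 w0 w1 (z ^ 3)) (z ^ (k + j) * b) := by
  have h5 := z_five z hz
  have hz3 : (z ^ 3) ^ 4 + (z ^ 3) ^ 3 + (z ^ 3) ^ 2 + z ^ 3 + 1 = 0 := by
    linear_combination (z ^ 8 - z ^ 7 + z ^ 5 - z ^ 4 + z ^ 3 - z + 1) * hz
  have m1 := al_mul d z a0 a1 w0 w1 D hd hz h1 h2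
  have m2 := al_mul d (z ^ 3) a0 a1 w0 w1 D hd hz3 h1 h2
  have e12 : (z ^ 3) ^ 4 = z ^ 2 := by linear_combination (z ^ 7 + z ^ 2) * h5
  rw [e12] at m2
  set f := al d a0 a1 w0 w1 with hf
  set α := f z with hα
  set γ := f (z ^ 3) with hγ
  have hα0 : α ≠ 0 := left_ne_zero_of_mul_eq_one m1
  have hγ0 : γ ≠ 0 := left_ne_zero_of_mul_eq_one m2
  have hαi : f (z ^ 4) = α⁻¹ := (eq_inv_of_mul_eq_one_right m1)
  have hγi : f (z ^ 2) = γ⁻¹ := (eq_inv_of_mul_eq_one_right m2)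
  have hb0 : b ≠ 0 := by
    rintro rfl
    have : α * γ ^ 2 = 0 := by rw [← hb]; ring
    exact (mul_ne_zero hα0 (pow_ne_zero 2 hγ0)) this
  have hgb0 : g b ≠ 0 := (map_ne_zero g).2 hb0
  have hp := prim z hz
  have hz0 : z ≠ 0 := hp.ne_zero (by norm_num)
  -- from a fifth root of `α γ ^ 2` to a shift
  have fin : ∀ x0 : A, x0 ^ 5 = α * γ ^ 2 → ∃ j : ℕ, ∀ k : ℕ, z ^ k * x0 = z ^ (k + j) * b := by
    intro x0 hx0
    have h6 : (x0 / b) ^ 5 = 1 := by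
      rw [div_pow, hx0, hb, div_self (mul_ne_zero hα0 (pow_ne_zero 2 hγ0))]
    obtain ⟨j, -, hj⟩ := hp.eq_pow_of_pow_eq_one h6
    refine ⟨j, fun k => ?_⟩
    rw [pow_add, mul_assoc, hj]
    field_simp
  have hgz : (g z) ^ 5 = 1 := by rw [← map_pow, h5, map_one]
  obtain ⟨i, hi, hi'⟩ := hp.eq_pow_of_pow_eq_one hgz
  have hgb5 : (g b) ^ 5 = f (g z) * f ((g z) ^ 3) ^ 2 := by
    rw [← map_pow, hb, map_mul, map_pow, hα, hγ, hf, al_map _ _ _ _ _ _ hg, al_map _ _ _ _ _ _ hg,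
      map_pow]
  have hgγ : g γ = f ((g z) ^ 3) := by
    rw [hγ, hf, al_map _ _ _ _ _ _ hg, map_pow]
  have hgrt : ∀ x : A, g (rt γ x) = rt (g γ) (g x) := by
    intro x
    unfold rt
    simp only [map_div₀, map_add, map_pow, map_ofNat, map_one, map_inv₀]
  have hi5 : i = 0 ∨ i = 1 ∨ i = 2 ∨ i = 3 ∨ i = 4 := by omega
  rcases hi5 with h | h | h | h | h
  · exfalso
    rw [h, pow_zero] at hi'
    have h7 : g z = g 1 := by rw [← hi', map_one]
    exact ne_one z hz (g.injective h7)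
  · -- `g z = z`
    rw [h, pow_one] at hi'
    rw [← hi'] at hgb5 hgγ
    obtain ⟨j, hj⟩ := fin (g b) hgb5
    refine ⟨j, fun k => ?_⟩
    rw [hgrt, hgγ, map_mul, map_pow, ← hi', hj]
  · -- `g z = z ^ 2`
    rw [h] at hi'
    have e6 : (z ^ 2) ^ 3 = z := by linear_combination z * h5
    rw [← hi', e6, hγi, ← hα] at hgb5
    rw [← hi', e6, ← hα] at hgγ
    have hgb5' : (g b) ^ 5 = α ^ 2 / γ := by rw [hgb5]; field_simp
    obtain ⟨j, hj⟩ := fin (α / (g b) ^ 2) (by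
      have : (α / (g b) ^ 2) ^ 5 = α ^ 5 / ((g b) ^ 5) ^ 2 := by field_simp
      rw [this, hgb5']
      field_simp)
    refine ⟨j, fun k => ?_⟩
    rw [hgrt, hgγ, map_mul, map_pow, ← hi']
    have hy5 : ((z ^ 2) ^ k * g b) ^ 5 = α ^ 2 / γ := by
      rw [mul_pow, hgb5']
      have : ((z ^ 2) ^ k) ^ 5 = (z ^ 5) ^ (2 * k) := by
        rw [← pow_mul, ← pow_mul, ← pow_mul]; congr 1; ring
      rw [this, h5, one_pow, one_mul]
    rw [rt_conj2 α γ _ (mul_ne_zero (pow_ne_zero _ (pow_ne_zero _ hz0)) hgb0) hα0 hγ0 hy5, ← hj]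
    congr 1
    rw [mul_pow, div_eq_iff (mul_ne_zero (pow_ne_zero _ (pow_ne_zero _ (pow_ne_zero _ hz0)))
      (pow_ne_zero _ hgb0))]
    have : z ^ k * (((z ^ 2) ^ k) ^ 2) = 1 := by
      have : z ^ k * (((z ^ 2) ^ k) ^ 2) = (z ^ 5) ^ k := by
        rw [← pow_mul, ← pow_mul, ← pow_mul, ← pow_add]; congr 1; ring
      rw [this, h5, one_pow]
    have h8 : z ^ k * (α / (g b) ^ 2) * (((z ^ 2) ^ k) ^ 2 * (g b) ^ 2) =
        (z ^ k * (((z ^ 2) ^ k) ^ 2)) * α := by field_simp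
    rw [h8, this, one_mul]
  · -- `g z = z ^ 3`
    rw [h] at hi'
    have e9 : (z ^ 3) ^ 3 = z ^ 4 := by linear_combination z ^ 4 * h5
    rw [← hi', e9, hαi, ← hγ] at hgb5
    rw [← hi', e9, hαi] at hgγ
    have hgb5' : (g b) ^ 5 = γ / α ^ 2 := by rw [hgb5]; field_simp
    obtain ⟨j, hj⟩ := fin (α * (g b) ^ 2) (by
      have : (α * (g b) ^ 2) ^ 5 = α ^ 5 * ((g b) ^ 5) ^ 2 := by ring
      rw [this, hgb5']
      field_simp)
    refine ⟨j, fun k => ?_⟩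
    rw [hgrt, hgγ, map_mul, map_pow, ← hi']
    have hy5 : ((z ^ 3) ^ k * g b) ^ 5 = γ / α ^ 2 := by
      rw [mul_pow, hgb5']
      have : ((z ^ 3) ^ k) ^ 5 = (z ^ 5) ^ (3 * k) := by
        rw [← pow_mul, ← pow_mul, ← pow_mul]; congr 1; ring
      rw [this, h5, one_pow, one_mul]
    rw [rt_conj3 α γ _ (mul_ne_zero (pow_ne_zero _ (pow_ne_zero _ hz0)) hgb0) hα0 hγ0 hy5, ← hj]
    congr 1
    have : ((z ^ 3) ^ k) ^ 2 = z ^ k := by
      have : ((z ^ 3) ^ k) ^ 2 = (z ^ 5) ^ k * z ^ k := by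
        rw [← pow_mul, ← pow_mul, ← pow_mul, ← pow_add]; congr 1; ring
      rw [this, h5, one_pow, one_mul]
    rw [mul_pow, this]
    ring
  · -- `g z = z ^ 4`
    rw [h] at hi'
    have e12' : (z ^ 4) ^ 3 = z ^ 2 := by linear_combination (z ^ 7 + z ^ 2) * h5
    rw [← hi', e12', hαi, hγi] at hgb5
    rw [← hi', e12', hγi] at hgγ
    obtain ⟨j, hj⟩ := fin ((g b)⁻¹) (by
      rw [inv_pow, hgb5]
      field_simp)
    refine ⟨j, fun k => ?_⟩
    rw [hgrt, hgγ, map_mul, map_pow, ← hi']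
    rw [rt_conj4 α γ _ (mul_ne_zero (pow_ne_zero _ (pow_ne_zero _ hz0)) hgb0) hα0 hγ0, ← hj]
    congr 1
    rw [mul_inv]
    congr 1
    apply inv_eq_of_mul_eq_one_right
    have : (z ^ 4) ^ k * z ^ k = (z ^ 5) ^ k := by
      rw [← pow_mul, ← pow_mul, ← pow_add]; congr 1; ring
    rw [this, h5, one_pow]

include hd hz h1 h2 in
/-- the quintic polynomial of the roots -/
theorem quintic (x : A) (hx : x ^ 5 = al d a0 a1 w0 w1 z * al d a0 a1 w0 w1 (z ^ 3) ^ 2)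
    (T N t : ℚ) (hT : T = 2 * a0 + a1) (hN : N = a0 ^ 2 + a0 * a1 - a1 ^ 2)
    (ht : 2 * t = (4 + 2 * T + N) * (T + 4) - 2 * (T + 4) +
      5 * D * (w0 ^ 2 + w0 * w1 - w1 ^ 2) * a1) :
    (rt (al d a0 a1 w0 w1 (z ^ 3)) x) ^ 5 - (rt (al d a0 a1 w0 w1 (z ^ 3)) x) ^ 4
      - (T : A) / 25 * (rt (al d a0 a1 w0 w1 (z ^ 3)) x) ^ 2
      - (N : A) / 125 * rt (al d a0 a1 w0 w1 (z ^ 3)) x
      - ((t : A) - 4 - 5 * T - 5 * N) / 3125 = 0 := by
  have h5 := z_five z hz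
  have hz3 : (z ^ 3) ^ 4 + (z ^ 3) ^ 3 + (z ^ 3) ^ 2 + z ^ 3 + 1 = 0 := by
    linear_combination (z ^ 8 - z ^ 7 + z ^ 5 - z ^ 4 + z ^ 3 - z + 1) * hz
  have m1 := al_mul d z a0 a1 w0 w1 D hd hz h1 h2
  have m2 := al_mul d (z ^ 3) a0 a1 w0 w1 D hd hz3 h1 h2
  have f1 := al_four d z a0 a1 w0 w1 hz
  have f2 := al_four d (z ^ 3) a0 a1 w0 w1 hz3
  have e12 : (z ^ 3) ^ 4 = z ^ 2 := by linear_combination (z ^ 7 + z ^ 2) * h5
  have hTA : (T : A) = 2 * a0 + a1 := by rw [hT]; push_cast; ring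
  have hNA : (N : A) = a0 ^ 2 + a0 * a1 - a1 ^ 2 := by rw [hN]; push_cast; ring
  have htA : 2 * (t : A) = (4 + 2 * T + N) * (T + 4) - 2 * (T + 4) +
      5 * D * (w0 ^ 2 + w0 * w1 - w1 ^ 2) * a1 := by
    exact_mod_cast congrArg (fun x : ℚ => (x : A)) ht
  -- the conjugate of `φ`
  have p1 := phi_sq z hz
  have p2 : 1 + z ^ 3 + (z ^ 3) ^ 4 = 1 - (1 + z + z ^ 4) := by
    rw [e12]; linear_combination hz
  have p3 : (z - z ^ 4) * (z ^ 3 - (z ^ 3) ^ 4) = 2 * (1 + z + z ^ 4) - 1 := by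
    rw [e12]
    linear_combination (-z ^ 3 + 2 * z ^ 2 - z - 1) * hz
  have s1 : al d a0 a1 w0 w1 z = (2 + ((a0 : A) + (a1 : A) * (1 + z + z ^ 4)) +
    ((w0 : A) + (w1 : A) * (1 + z + z ^ 4)) * (z - z ^ 4) * d) / 2 := rfl
  have s2 : al d a0 a1 w0 w1 (z ^ 3) = (2 + ((a0 : A) + (a1 : A) * (1 + z ^ 3 + (z ^ 3) ^ 4)) +
    ((w0 : A) + (w1 : A) * (1 + z ^ 3 + (z ^ 3) ^ 4)) * (z ^ 3 - (z ^ 3) ^ 4) * d) / 2 := rfl
  rw [p2] at s2 f2
  set α := al d a0 a1 w0 w1 z with hα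
  set γ := al d a0 a1 w0 w1 (z ^ 3) with hγ
  set α' := al d a0 a1 w0 w1 (z ^ 4) with hα'
  set γ' := al d a0 a1 w0 w1 ((z ^ 3) ^ 4) with hγ'
  set p := 1 + z + z ^ 4 with hp
  set q := z - z ^ 4 with hq
  set q' := z ^ 3 - (z ^ 3) ^ 4 with hq'
  have hα0 : α ≠ 0 := left_ne_zero_of_mul_eq_one m1
  have hγ0 : γ ≠ 0 := left_ne_zero_of_mul_eq_one m2
  have hαi : α' = α⁻¹ := (eq_inv_of_mul_eq_one_right m1)
  have hγi : γ' = γ⁻¹ := (eq_inv_of_mul_eq_one_right m2)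
  have hx0 : x ≠ 0 := by
    rintro rfl
    have : α * γ ^ 2 = 0 := by rw [← hx]; ring
    exact (mul_ne_zero hα0 (pow_ne_zero 2 hγ0)) this
  have u1 : α + α' = 2 + (a0 + a1 * p) := by rw [s1, f1]; ring
  have u2 : γ + γ' = 2 + (a0 + a1 * (1 - p)) := by rw [s2, f2]; ring
  have v1 : α - α' = (w0 + w1 * p) * q * d := by rw [s1, f1]; ring
  have v2 : γ - γ' = (w0 + w1 * (1 - p)) * q' * d := by rw [s2, f2]; ring
  refine quintic_rt x α γ T N t hx0 hγ0 hx ?_ ?_ ?_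
  · rw [← hαi, ← hγi, hTA]
    linear_combination u1 + u2
  · rw [← hαi, ← hγi, u1, u2, hTA, hNA]
    linear_combination (-(a1 : A) ^ 2) * p1
  · have t1 : α * γ ^ 2 + (α * γ ^ 2)⁻¹ + γ / α ^ 2 + α ^ 2 / γ =
        α * γ ^ 2 + α' * γ' ^ 2 + γ * α' ^ 2 + α ^ 2 * γ' := by
      rw [hαi, hγi]; field_simp
    rw [t1]
    have t2 : 2 * (α * γ ^ 2 + α' * γ' ^ 2 + γ * α' ^ 2 + α ^ 2 * γ') =
        (α + α') * (γ + γ') ^ 2 - 2 * (α + α') + (γ + γ') * (α + α') ^ 2 - 2 * (γ + γ')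
          + (α - α') * (γ - γ') * ((γ + γ') - (α + α')) := by
      linear_combination (-2 * α - 2 * α') * m2 + (-2 * γ - 2 * γ') * m1
    have t3 : (α - α') * (γ - γ') = -(D : A) * (w0 ^ 2 + w0 * w1 - w1 ^ 2) * (2 * p - 1) := by
      rw [v1, v2]
      linear_combination (w0 + w1 * p) * (w0 + w1 * (1 - p)) * d ^ 2 * p3 +
        (w0 + w1 * p) * (w0 + w1 * (1 - p)) * (2 * p - 1) * hd
        + D * w1 ^ 2 * (2 * p - 1) * p1
    rw [t3, u1, u2] at t2
    have h2 : (2 : A) ≠ 0 := two_ne_zero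
    apply mul_left_cancel₀ h2
    rw [t2, htA, hTA, hNA]
    linear_combination (-(a1 : A) ^ 2 * (2 * a0 + a1 + 4) +
      4 * D * (w0 ^ 2 + w0 * w1 - w1 ^ 2) * a1) * p1

end

end Pool.Agent.Lib.MP3650db.P5
end

section

set_option autoImplicit false

/-!
The criterion: from a unit of the mirror field to the divisibility by five of a class number.
-/

namespace Pool.Agent.Lib.MP3650db.P5

open NumberField ComplexConjugate

/-- the quintic `Z⁵ - Z⁴ - e₃ Z² - e₄ Z - e₅` has no linear and no quadratic factor modulo `ℓ` -/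
def IrrMod (ℓ : ℕ) (e3 e4 e5 : ℤ) : Prop :=
  (∀ x : ZMod ℓ, x ^ 5 - x ^ 4 - (e3 : ZMod ℓ) * x ^ 2 - (e4 : ZMod ℓ) * x - (e5 : ZMod ℓ) ≠ 0) ∧
  ∀ s p : ZMod ℓ, ¬ (s ^ 4 - 3 * s ^ 2 * p + p ^ 2 - (s ^ 3 - 2 * s * p) - (e3 : ZMod ℓ) * s -
      (e4 : ZMod ℓ) = 0 ∧
    -(s ^ 3 - 2 * s * p) * p + (s ^ 2 - p) * p + (e3 : ZMod ℓ) * p - (e5 : ZMod ℓ) = 0)

/-- no root in an imaginary quadratic field -/
theorem no_root {K : Type} [Field K] [NumberField K] (w : K) (n : ℤ) (hn : n < 0)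
    (hw : w ^ 2 = (n : K)) (hgen : Algebra.adjoin ℚ {w} = ⊤) (e3 e4 e5 : ℤ) (ℓ : ℕ)
    (hℓ : IrrMod ℓ e3 e4 e5) (c : K)
    (hc : c ^ 5 - c ^ 4 - (e3 : K) * c ^ 2 - (e4 : K) * c - (e5 : K) = 0) : False := by
  obtain ⟨φ⟩ : Nonempty (K →+* ℂ) := inferInstance
  have hint : IsIntegral ℤ c := by
    refine ⟨Polynomial.X ^ 5 - Polynomial.X ^ 4 - Polynomial.C e3 * Polynomial.X ^ 2 -
      Polynomial.C e4 * Polynomial.X - Polynomial.C e5, by monicity!, ?_⟩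
    simp only [Polynomial.eval₂_sub, Polynomial.eval₂_mul, Polynomial.eval₂_pow,
      Polynomial.eval₂_X, Polynomial.eval₂_C]
    simp only [algebraMap_int_eq, eq_intCast]
    exact hc
  obtain ⟨⟨s, hs'⟩, ⟨p, hp'⟩⟩ := trace_norm_int φ w n hn hw hgen (⟨c, hint⟩ : 𝓞 K)
  have hs : φ c + conj (φ c) = s := hs'
  have hp : φ c * conj (φ c) = p := hp'
  set z : ℂ := φ c with hz
  have hquad : z ^ 2 = s * z - p := by
    linear_combination z * hs - hp
  have hF : z ^ 5 - z ^ 4 - (e3 : ℂ) * z ^ 2 - (e4 : ℂ) * z - (e5 : ℂ) = 0 := by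
    have := congrArg φ hc
    simpa using this
  set ρ1 : ℤ := s ^ 4 - 3 * s ^ 2 * p + p ^ 2 - (s ^ 3 - 2 * s * p) - e3 * s - e4 with hρ1
  set ρ0 : ℤ := -(s ^ 3 - 2 * s * p) * p + (s ^ 2 - p) * p + e3 * p - e5 with hρ0
  have hlin : (ρ1 : ℂ) * z + (ρ0 : ℂ) = 0 := by
    rw [hρ1, hρ0]
    push_cast
    linear_combination hF - (z ^ 3 + (s - 1) * z ^ 2 + (s ^ 2 - p - s) * z +
      (s ^ 3 - 2 * s * p - (s ^ 2 - p) - e3)) * hquad
  by_cases h1 : ρ1 = 0
  · have h0 : ρ0 = 0 := by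
      rw [h1] at hlin
      simpa using hlin
    apply hℓ.2 (s : ZMod ℓ) (p : ZMod ℓ)
    constructor
    · have := congrArg (fun x : ℤ => (x : ZMod ℓ)) h1
      rw [hρ1] at this
      push_cast at this
      exact this
    · have := congrArg (fun x : ℤ => (x : ZMod ℓ)) h0
      rw [hρ0] at this
      push_cast at this
      exact this
  · have h1' : (ρ1 : ℂ) ≠ 0 := by exact_mod_cast h1
    have hzq : z = (((-ρ0 : ℚ) / (ρ1 : ℚ) : ℚ) : ℂ) := by
      push_cast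
      rw [eq_div_iff h1']
      linear_combination hlin
    have hzint : IsIntegral ℤ z := hint.map (φ.toIntAlgHom)
    rw [hzq] at hzint
    obtain ⟨m, hm⟩ := rat_isIntegral _ hzint
    rw [← hzq] at hm
    have hFm : (m : ℤ) ^ 5 - m ^ 4 - e3 * m ^ 2 - e4 * m - e5 = 0 := by
      rw [← hm] at hF
      exact_mod_cast hF
    apply hℓ.1 (m : ZMod ℓ)
    have := congrArg (fun x : ℤ => (x : ZMod ℓ)) hFm
    push_cast at this
    exact this

/-- Vieta's formulas for five distinct roots of the quintic -/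
theorem vieta {A : Type*} [Field A] [CharZero A] (e3 e4 e5 : A) (r : ℕ → A)
    (hinj : Set.InjOn r (Finset.range 5 : Finset ℕ))
    (hr : ∀ k, r k ^ 5 - r k ^ 4 - e3 * r k ^ 2 - e4 * r k - e5 = 0) :
    r 0 + r 1 + r 2 + r 3 + r 4 = 1 ∧
    r 0 * r 1 + r 0 * r 2 + r 0 * r 3 + r 0 * r 4 + r 1 * r 2 + r 1 * r 3 + r 1 * r 4 +
      r 2 * r 3 + r 2 * r 4 + r 3 * r 4 = 0 ∧
    r 0 * r 1 * r 2 * r 3 + r 0 * r 1 * r 2 * r 4 + r 0 * r 1 * r 3 * r 4 + r 0 * r 2 * r 3 * r 4 +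
      r 1 * r 2 * r 3 * r 4 = -e4 := by
  classical
  set s1 := r 0 + r 1 + r 2 + r 3 + r 4 with hs1
  set s2 := r 0 * r 1 + r 0 * r 2 + r 0 * r 3 + r 0 * r 4 + r 1 * r 2 + r 1 * r 3 + r 1 * r 4 +
      r 2 * r 3 + r 2 * r 4 + r 3 * r 4 with hs2
  set s4 := r 0 * r 1 * r 2 * r 3 + r 0 * r 1 * r 2 * r 4 + r 0 * r 1 * r 3 * r 4 +
    r 0 * r 2 * r 3 * r 4 + r 1 * r 2 * r 3 * r 4 with hs4
  let s3 := r 0 * r 1 * r 2 + r 0 * r 1 * r 3 + r 0 * r 1 * r 4 + r 0 * r 2 * r 3 +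
    r 0 * r 2 * r 4 + r 0 * r 3 * r 4 + r 1 * r 2 * r 3 + r 1 * r 2 * r 4 + r 1 * r 3 * r 4 +
    r 2 * r 3 * r 4
  let s5 := r 0 * r 1 * r 2 * r 3 * r 4
  let P : Polynomial A := Polynomial.C (s1 - 1) * Polynomial.X ^ 4 +
    Polynomial.C (-s2) * Polynomial.X ^ 3 + Polynomial.C (s3 - e3) * Polynomial.X ^ 2 +
    Polynomial.C (-s4 - e4) * Polynomial.X + Polynomial.C (s5 - e5)
  have hev : ∀ z, P.eval z = (s1 - 1) * z ^ 4 + (-s2) * z ^ 3 + (s3 - e3) * z ^ 2 +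
      (-s4 - e4) * z + (s5 - e5) := by
    intro z
    simp only [P, Polynomial.eval_add, Polynomial.eval_mul, Polynomial.eval_pow,
      Polynomial.eval_X, Polynomial.eval_C]
  have hdeg : P.degree < (Finset.range 5).card := by
    rw [Finset.card_range]
    have : P.degree ≤ 4 := by
      simp only [P]
      compute_degree
    exact lt_of_le_of_lt this (by norm_num)
  have hP : P = 0 := by
    refine Polynomial.eq_zero_of_degree_lt_of_eval_index_eq_zero (s := Finset.range 5) hinj hdeg ?_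
    intro i hi
    rw [Finset.mem_range] at hi
    rw [hev]
    have hri := hr i
    interval_cases i <;> simp only [hs1, hs2, hs4, s3, s5] <;> linear_combination hri
  have hz : ∀ z, (s1 - 1) * z ^ 4 + (-s2) * z ^ 3 + (s3 - e3) * z ^ 2 +
      (-s4 - e4) * z + (s5 - e5) = 0 := by
    intro z
    rw [← hev, hP, Polynomial.eval_zero]
  have z0 := hz 0
  have z1 := hz 1
  have z2 := hz (-1)
  have z3 := hz 2
  have z4 := hz (-2)
  refine ⟨?_, ?_, ?_⟩
  · linear_combination (z3 + z4 - 4 * z1 - 4 * z2 + 6 * z0) / 24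
  · linear_combination -(z3 - z4 - 2 * z1 + 2 * z2) / 12
  · linear_combination -(8 * z1 - 8 * z2 - z3 + z4) / 12

/-- the criterion -/
theorem five_dvd_of_data (K : Type) [Field K] [NumberField K] (D : ℤ) (hD : 0 < D)
    (hK : ∃ x : K, x ^ 2 = ((-D : ℤ) : K) ∧ Algebra.adjoin ℚ {x} = ⊤)
    (a0 a1 w0 w1 T N : ℚ)
    (h1 : a0 ^ 2 + a1 ^ 2 + 4 * a0 = D * (2 * w0 ^ 2 + 2 * w0 * w1 + 3 * w1 ^ 2))
    (h2 : 2 * a0 * a1 + a1 ^ 2 + 4 * a1 = D * (w0 ^ 2 + 6 * w0 * w1 + 4 * w1 ^ 2))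
    (e3 e4 e5 : ℤ) (hT : T = 2 * a0 + a1) (hN : N = a0 ^ 2 + a0 * a1 - a1 ^ 2)
    (hT' : T = 25 * e3) (hN' : N = 125 * e4) (he4 : 2 ∣ e4)
    (ht : 2 * (3125 * e5 + 4 + 5 * T + 5 * N) = (4 + 2 * T + N) * (T + 4) - 2 * (T + 4) +
      5 * D * (w0 ^ 2 + w0 * w1 - w1 ^ 2) * a1)
    (ℓ : ℕ) (hℓ : IrrMod ℓ e3 e4 e5) :
    5 ∣ NumberField.classNumber K := by
  classical
  obtain ⟨w, hw, hgen⟩ := hK
  have hn : -D < 0 := by omega
  let A : Type := AlgebraicClosure K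
  have hcz : CharZero A := charZero_of_injective_algebraMap (algebraMap K A).injective
  have hgal : IsGalois K A := ⟨⟩
  -- the fifth root of unity
  obtain ⟨z, hz'⟩ := IsAlgClosed.exists_root (k := A) (Polynomial.X ^ 4 + Polynomial.X ^ 3 +
    Polynomial.X ^ 2 + Polynomial.X + 1) (by
      have : (Polynomial.X ^ 4 + Polynomial.X ^ 3 + Polynomial.X ^ 2 + Polynomial.X + 1 :
        Polynomial A).degree = 4 := by compute_degree!
      rw [this]; norm_num)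
  have hz : z ^ 4 + z ^ 3 + z ^ 2 + z + 1 = 0 := by
    simpa [Polynomial.IsRoot] using hz'
  set d : A := algebraMap K A w with hd'
  have hd : d ^ 2 = -(((D : ℚ)) : A) := by
    rw [hd', ← map_pow, hw, map_intCast]
    push_cast
    ring
  obtain ⟨b, hb⟩ := IsAlgClosed.exists_pow_nat_eq
    (al d a0 a1 w0 w1 z * al d a0 a1 w0 w1 (z ^ 3) ^ 2) (n := 5) (by norm_num)
  set r : ℕ → A := fun k => rt (al d a0 a1 w0 w1 (z ^ 3)) (z ^ k * b) with hr
  have h5 := z_five z hz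
  have hper : ∀ k, r (k + 5) = r k := by
    intro k
    simp only [hr]
    rw [pow_add, h5, mul_one]
  have hsh : ∀ g : A ≃ₐ[K] A, ∃ j, ∀ k, g (r k) = r (k + j) := by
    intro g
    exact shift d z a0 a1 w0 w1 D hd hz h1 h2 b hb (g : A →+* A) (g.commutes w)
  have hquin : ∀ k, r k ^ 5 - r k ^ 4 - (e3 : A) * r k ^ 2 - (e4 : A) * r k - (e5 : A) = 0 := by
    intro k
    have hx : (z ^ k * b) ^ 5 = al d a0 a1 w0 w1 z * al d a0 a1 w0 w1 (z ^ 3) ^ 2 := by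
      rw [mul_pow, hb, ← pow_mul, mul_comm k 5, pow_mul, h5, one_pow, one_mul]
    have h := quintic d z a0 a1 w0 w1 D hd hz h1 h2 (z ^ k * b) hx T N
      (3125 * e5 + 4 + 5 * T + 5 * N) hT hN ht
    have hTA : (T : A) = 25 * (e3 : A) := by rw [hT']; push_cast; ring
    have hNA : (N : A) = 125 * (e4 : A) := by rw [hN']; push_cast; ring
    push_cast at h
    rw [hTA, hNA] at h
    simp only [hr]
    linear_combination h
  have h0 : ∀ c : K, algebraMap K A c ≠ r 0 := by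
    intro c hc
    have h := hquin 0
    rw [← hc] at h
    refine no_root w (-D) hn hw hgen e3 e4 e5 ℓ hℓ c ?_
    apply (algebraMap K A).injective
    simp only [map_sub, map_mul, map_pow, map_intCast, map_zero]
    exact h
  obtain ⟨L, σ, t, hfin, ht0, ht1, ht2, ht3, ht4, hσ5, hσfix⟩ := exists_cyclic r hper hsh h0
  have hinj0 := inj_zero r hper hsh h0
  obtain ⟨g1, hg1⟩ := exists_gen r hper hsh h0
  have hinj : Set.InjOn r (Finset.range 5 : Finset ℕ) := by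
    have key : ∀ i j, i ≤ j → j < 5 → r i = r j → i = j := by
      intro i j hij hj h
      have h6 := congrArg (g1 ^ (5 - i)) h
      rw [pow_shift r g1 1 hg1, pow_shift r g1 1 hg1] at h6
      have h7 : r (i + (5 - i) * 1) = r 0 := by
        have : i + (5 - i) * 1 = 0 + 5 := by omega
        rw [this, hper]
      have h8 : r (j + (5 - i) * 1) = r (j - i) := by
        have : j + (5 - i) * 1 = (j - i) + 5 := by omega
        rw [this, hper]
      rw [h7, h8] at h6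
      have := hinj0 _ h6.symm
      omega
    intro i hi j hj h
    simp only [Finset.coe_range, Set.mem_Iio] at hi hj
    rcases le_total i j with hij | hij
    · exact key i j hij hj h
    · exact (key j i hij hi h.symm).symm
  obtain ⟨v1, v2, v4⟩ := vieta (e3 : A) (e4 : A) (e5 : A) r hinj hquin
  have hfinQ : FiniteDimensional ℚ L := FiniteDimensional.trans ℚ K L
  have hnfL : NumberField L := { to_charZero := inferInstance, to_finiteDimensional := hfinQ }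
  obtain ⟨e, he⟩ := he4
  -- integrality
  have htint : IsIntegral ℤ t := by
    have hA : IsIntegral ℤ (t : A) := by
      rw [ht0]
      refine ⟨Polynomial.X ^ 5 - Polynomial.X ^ 4 - Polynomial.C e3 * Polynomial.X ^ 2 -
        Polynomial.C e4 * Polynomial.X - Polynomial.C e5, by monicity!, ?_⟩
      simp only [Polynomial.eval₂_sub, Polynomial.eval₂_mul, Polynomial.eval₂_pow,
        Polynomial.eval₂_X, Polynomial.eval₂_C]
      simp only [algebraMap_int_eq, eq_intCast]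
      exact hquin 0
    exact (isIntegral_algebraMap_iff (algebraMap L A).injective).1 hA
  have hK2 : 2 ≤ Module.finrank ℚ K := by
    by_contra hlt
    have hpos : 0 < Module.finrank ℚ K := Module.finrank_pos
    have h1' : Module.finrank ℚ K = 1 := by omega
    have hbt := Subalgebra.bot_eq_top_iff_finrank_eq_one.2 h1'
    have hwb : w ∈ (⊥ : Subalgebra ℚ K) := by rw [hbt]; trivial
    obtain ⟨q, hq⟩ := Algebra.mem_bot.1 hwb
    have hq2 : q ^ 2 = ((-D : ℤ) : ℚ) := by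
      apply (algebraMap ℚ K).injective
      rw [map_pow, hq, hw, map_intCast]
    have hDq : (0 : ℚ) < D := by exact_mod_cast hD
    push_cast at hq2
    nlinarith [sq_nonneg q]
  have hL2 : 2 ≤ Module.finrank K L := by
    by_contra hlt
    have hpos : 0 < Module.finrank K L := Module.finrank_pos
    have h1' : Module.finrank K L = 1 := by omega
    have hbot := IntermediateField.finrank_eq_one_iff.1 h1'
    have : r 0 ∈ L := by rw [← ht0]; exact t.2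
    rw [hbot, IntermediateField.mem_bot] at this
    obtain ⟨c, hc⟩ := this
    exact h0 c hc
  have hrank : 0 < Units.rank L := by
    have e1 : Module.finrank ℚ K * Module.finrank K L = Module.finrank ℚ L :=
      Module.finrank_mul_finrank ℚ K L
    have e2 := InfinitePlace.card_add_two_mul_card_eq_rank L
    have e3 := InfinitePlace.card_eq_nrRealPlaces_add_nrComplexPlaces L
    have e4 : 4 ≤ Module.finrank ℚ L := by
      rw [← e1]
      exact Nat.mul_le_mul hK2 hL2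
    rw [← e2] at e4
    rw [Units.rank]
    omega
  refine five_dvd_of_quintic σ hσ5 hσfix t htint ?_ ?_ (-e) ?_
    (unit_pow_twelve w (-D) hn hw hgen) hrank
  · apply Subtype.ext
    push_cast
    rw [ht0, ht1, ht2, ht3, ht4]
    exact v1
  · apply Subtype.ext
    push_cast
    rw [ht0, ht1, ht2, ht3, ht4]
    exact v2
  · have hE : algebraMap L A (2 * ((-e : ℤ) : L)) = -(e4 : A) := by
      have h6 : (e4 : A) = 2 * (e : A) := by
        rw [he]
        exact (Int.cast_mul 2 e).trans (by rw [Int.cast_ofNat])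
      rw [h6, map_mul, map_ofNat, map_intCast]
      rw [Int.cast_neg]
      ring
    apply Subtype.ext
    refine Eq.trans ?_ hE.symm
    push_cast
    rw [ht0, ht1, ht2, ht3, ht4]
    exact v4

end Pool.Agent.Lib.MP3650db.P5
end

section

set_option autoImplicit false

/-!
The criterion for the family `4D = 5s²(5f + 2) + 4n`, where `f = 5u² + 2 - 2ub`, `b² = 5u² + 4`
(so that `f` is a Fibonacci number and `5ub - 10u² - 4` the Lucas number of the same index).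
-/

namespace Pool.Agent.Lib.MP3650db.P5

/-- the first norm equation with denominators -/
theorem norm_one_div (M D A0 A1 W0 W1 : ℚ) (hM : M ≠ 0)
    (key : A0 ^ 2 + A1 ^ 2 + 4 * M * A0 = D * (2 * W0 ^ 2 + 2 * W0 * W1 + 3 * W1 ^ 2)) :
    (A0 / M) ^ 2 + (A1 / M) ^ 2 + 4 * (A0 / M) =
      D * (2 * (W0 / M) ^ 2 + 2 * (W0 / M) * (W1 / M) + 3 * (W1 / M) ^ 2) := by
  field_simp
  linear_combination key

/-- the second norm equation with denominators -/
theorem norm_two_div (M D A0 A1 W0 W1 : ℚ) (hM : M ≠ 0)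
    (key : 2 * A0 * A1 + A1 ^ 2 + 4 * M * A1 = D * (W0 ^ 2 + 6 * W0 * W1 + 4 * W1 ^ 2)) :
    2 * (A0 / M) * (A1 / M) + (A1 / M) ^ 2 + 4 * (A1 / M) =
      D * ((W0 / M) ^ 2 + 6 * (W0 / M) * (W1 / M) + 4 * (W1 / M) ^ 2) := by
  field_simp
  linear_combination key

/-- the criterion for the Pell family `D = 25 k² f + a` with rational `a` and `k` -/
theorem five_dvd_of_pell_rat (K : Type) [Field K] [NumberField K] (a k : ℚ)
    (u b D c e3 e4 e5 : ℤ) (qb : (b : ℚ) ^ 2 = 5 * (u : ℚ) ^ 2 + 4)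
    (qM : a ^ 2 - 500 * k ^ 4 ≠ 0) (hD : 0 < D)
    (qD : (D : ℚ) = 25 * k ^ 2 * (5 * (u : ℚ) ^ 2 + 2 - 2 * u * b) + a)
    (hK : ∃ x : K, x ^ 2 = ((-D : ℤ) : K) ∧ Algebra.adjoin ℚ {x} = ⊤)
    (qc : (a ^ 2 - 500 * k ^ 4) * (c : ℚ) = -16 * k ^ 2 * D)
    (q3 : (a ^ 2 - 500 * k ^ 4) * (e3 : ℚ) =
      8 * k ^ 2 * (a * (5 * (u : ℚ) ^ 2 + 2 - 2 * u * b) + 20 * k ^ 2))
    (q4 : (a ^ 2 - 500 * k ^ 4) * (e4 : ℚ) = 16 * k ^ 4 * (5 * (u : ℚ) * b - 10 * u ^ 2 - 4) ^ 2)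
    (q5 : 50 * (e5 : ℚ) = 10 * (e3 : ℚ) ^ 2 - 6 * e4 + 25 * e3 * e4 +
      (c : ℚ) ^ 2 * (5 * u * b - 10 * u ^ 2 - 4))
    (he : 2 ∣ e4) (l : ℕ) (hl : IrrMod l e3 e4 e5) : 5 ∣ NumberField.classNumber K := by
  set M : ℚ := a ^ 2 - 500 * k ^ 4 with hMdef
  set f : ℚ := 5 * (u : ℚ) ^ 2 + 2 - 2 * u * b with hf
  set Lu : ℚ := 5 * (u : ℚ) * b - 10 * u ^ 2 - 4 with hLu
  have ea0 : (25 * (e3 : ℚ) - 5 * c) / 2 =
      (20 * k ^ 2 * (5 * a * f + 100 * k ^ 2 + 50 * k ^ 2 * f + 2 * a)) / M := by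
    rw [eq_div_iff qM]
    rw [qD] at qc
    linear_combination (25 / 2) * q3 - (5 / 2) * qc
  have ea1 : (5 * (c : ℚ)) = (-80 * k ^ 2 * D) / M := by
    rw [eq_div_iff qM]
    linear_combination 5 * qc
  have key1 : (20 * k ^ 2 * (5 * a * f + 100 * k ^ 2 + 50 * k ^ 2 * f + 2 * a)) ^ 2 +
      (-80 * k ^ 2 * D) ^ 2 +
      4 * M * (20 * k ^ 2 * (5 * a * f + 100 * k ^ 2 + 50 * k ^ 2 * f + 2 * a)) =
      D * (2 * (4 * k * ((5 * u - 3 * b) * (a + 10 * k ^ 2) - 20 * k ^ 2 * b)) ^ 2 +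
        2 * (4 * k * ((5 * u - 3 * b) * (a + 10 * k ^ 2) - 20 * k ^ 2 * b)) *
          (4 * k * ((a + 50 * k ^ 2) * b - 100 * k ^ 2 * u)) +
        3 * (4 * k * ((a + 50 * k ^ 2) * b - 100 * k ^ 2 * u)) ^ 2) := by
    rw [qD, hMdef, hf]
    linear_combination (-30000 * (u : ℚ) ^ 2 * a ^ 2 * k ^ 4 - 1000000 * u ^ 2 * a * k ^ 6 -
      15000000 * u ^ 2 * k ^ 8 + 12000 * u * b * a ^ 2 * k ^ 4 + 400000 * u * b * a * k ^ 6 +
      6000000 * u * b * k ^ 8 - 240 * a ^ 3 * k ^ 2 - 20000 * a ^ 2 * k ^ 4 - 520000 * a * k ^ 6 -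
      6000000 * k ^ 8) * qb
  have key2 : 2 * (20 * k ^ 2 * (5 * a * f + 100 * k ^ 2 + 50 * k ^ 2 * f + 2 * a)) *
        (-80 * k ^ 2 * D) +
      (-80 * k ^ 2 * D) ^ 2 +
      4 * M * (-80 * k ^ 2 * D) =
      D * ((4 * k * ((5 * u - 3 * b) * (a + 10 * k ^ 2) - 20 * k ^ 2 * b)) ^ 2 +
        6 * (4 * k * ((5 * u - 3 * b) * (a + 10 * k ^ 2) - 20 * k ^ 2 * b)) *
          (4 * k * ((a + 50 * k ^ 2) * b - 100 * k ^ 2 * u)) +
        4 * (4 * k * ((a + 50 * k ^ 2) * b - 100 * k ^ 2 * u)) ^ 2) := by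
    rw [qD, hMdef, hf]
    linear_combination (10000 * (u : ℚ) ^ 2 * a ^ 2 * k ^ 4 + 1000000 * u ^ 2 * a * k ^ 6 +
      5000000 * u ^ 2 * k ^ 8 - 4000 * u * b * a ^ 2 * k ^ 4 - 400000 * u * b * a * k ^ 6 -
      2000000 * u * b * k ^ 8 + 80 * a ^ 3 * k ^ 2 + 12000 * a ^ 2 * k ^ 4 + 440000 * a * k ^ 6 +
      2000000 * k ^ 8) * qb
  have key3 : (20 * k ^ 2 * (5 * a * f + 100 * k ^ 2 + 50 * k ^ 2 * f + 2 * a)) ^ 2 +
      (20 * k ^ 2 * (5 * a * f + 100 * k ^ 2 + 50 * k ^ 2 * f + 2 * a)) *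
        (-80 * k ^ 2 * D) -
      (-80 * k ^ 2 * D) ^ 2 = 2000 * k ^ 4 * Lu ^ 2 * M := by
    rw [qD, hMdef, hf, hLu]
    linear_combination (-10000 * (u : ℚ) ^ 2 * a ^ 2 * k ^ 4 + 5000000 * u ^ 2 * k ^ 8) * qb
  have key4 : (4 * k * ((5 * u - 3 * b) * (a + 10 * k ^ 2) - 20 * k ^ 2 * b)) ^ 2 +
        (4 * k * ((5 * u - 3 * b) * (a + 10 * k ^ 2) - 20 * k ^ 2 * b)) *
          (4 * k * ((a + 50 * k ^ 2) * b - 100 * k ^ 2 * u)) -
        (4 * k * ((a + 50 * k ^ 2) * b - 100 * k ^ 2 * u)) ^ 2 = -80 * k ^ 2 * Lu * M := by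
    rw [hMdef, hLu]
    linear_combination (80 * a ^ 2 * k ^ 2 - 40000 * k ^ 6) * qb
  refine five_dvd_of_data K D hD hK ((25 * (e3 : ℚ) - 5 * c) / 2) (5 * (c : ℚ))
    ((4 * k * ((5 * u - 3 * b) * (a + 10 * k ^ 2) - 20 * k ^ 2 * b)) / M)
    ((4 * k * ((a + 50 * k ^ 2) * b - 100 * k ^ 2 * u)) / M) (25 * (e3 : ℚ)) (125 * (e4 : ℚ))
    ?_ ?_ e3 e4 e5 (by ring) ?_ rfl rfl he ?_ l hl
  · rw [ea0, ea1]
    exact norm_one_div M D _ _ _ _ qM key1
  · rw [ea0, ea1]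
    exact norm_two_div M D _ _ _ _ qM key2
  · rw [ea0, ea1]
    have e4' : 125 * (e4 : ℚ) = (125 * (16 * k ^ 4 * Lu ^ 2)) / M := by
      rw [eq_div_iff qM]
      linear_combination 125 * q4
    rw [e4', div_pow, div_pow, div_mul_div_comm, ← pow_two M, ← add_div, ← sub_div, key3]
    rw [div_eq_div_iff qM (pow_ne_zero 2 qM)]
    ring
  · have hw : 5 * (D : ℚ) * (((4 * k * ((5 * u - 3 * b) * (a + 10 * k ^ 2) - 20 * k ^ 2 * b)) / M) ^ 2 +
        ((4 * k * ((5 * u - 3 * b) * (a + 10 * k ^ 2) - 20 * k ^ 2 * b)) / M) *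
          ((4 * k * ((a + 50 * k ^ 2) * b - 100 * k ^ 2 * u)) / M) -
        ((4 * k * ((a + 50 * k ^ 2) * b - 100 * k ^ 2 * u)) / M) ^ 2) = 25 * c * Lu := by
      rw [div_pow, div_pow, div_mul_div_comm, ← pow_two M, ← add_div, ← sub_div, key4]
      rw [← mul_div_assoc, div_eq_iff (pow_ne_zero 2 qM)]
      linear_combination (-25 * Lu * M) * qc
    rw [hw]
    linear_combination 125 * q5

/-- the criterion for the Pell family `4D = 5s²(5f + 2) + 4n` -/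
theorem five_dvd_of_pell_s (K : Type) [Field K] [NumberField K] (n s u b D c e3 e4 e5 : ℤ)
    (hb : b ^ 2 = 5 * u ^ 2 + 4) (hM : n ^ 2 + 5 * s ^ 2 * n - 25 * s ^ 4 ≠ 0) (hD : 0 < D)
    (hD4 : 4 * D = 5 * s ^ 2 * (5 * (5 * u ^ 2 + 2 - 2 * u * b) + 2) + 4 * n)
    (hK : ∃ x : K, x ^ 2 = ((-D : ℤ) : K) ∧ Algebra.adjoin ℚ {x} = ⊤)
    (hc : (n ^ 2 + 5 * s ^ 2 * n - 25 * s ^ 4) * c = -4 * s ^ 2 * D)
    (h3 : (n ^ 2 + 5 * s ^ 2 * n - 25 * s ^ 4) * e3 =
      s ^ 2 * ((2 * n + 5 * s ^ 2) * (5 * u ^ 2 + 2 - 2 * u * b) + 10 * s ^ 2))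
    (h4 : (n ^ 2 + 5 * s ^ 2 * n - 25 * s ^ 4) * e4 = s ^ 4 * (5 * u * b - 10 * u ^ 2 - 4) ^ 2)
    (h5 : 50 * e5 = 10 * e3 ^ 2 - 6 * e4 + 25 * e3 * e4 + c ^ 2 * (5 * u * b - 10 * u ^ 2 - 4))
    (he : 2 ∣ e4) (l : ℕ) (hl : IrrMod l e3 e4 e5) : 5 ∣ NumberField.classNumber K := by
  have qb : (b : ℚ) ^ 2 = 5 * (u : ℚ) ^ 2 + 4 := by exact_mod_cast hb
  have qM : ((n : ℚ) ^ 2 + 5 * s ^ 2 * n - 25 * s ^ 4) ≠ 0 := by exact_mod_cast hM
  have qD4 : 4 * (D : ℚ) = 5 * s ^ 2 * (5 * (5 * u ^ 2 + 2 - 2 * u * b) + 2) + 4 * n := by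
    exact_mod_cast hD4
  have qc : ((n : ℚ) ^ 2 + 5 * s ^ 2 * n - 25 * s ^ 4) * c = -4 * s ^ 2 * D := by exact_mod_cast hc
  have q3 : ((n : ℚ) ^ 2 + 5 * s ^ 2 * n - 25 * s ^ 4) * e3 =
      s ^ 2 * ((2 * n + 5 * s ^ 2) * (5 * u ^ 2 + 2 - 2 * u * b) + 10 * s ^ 2) := by
    exact_mod_cast h3
  have q4 : ((n : ℚ) ^ 2 + 5 * s ^ 2 * n - 25 * s ^ 4) * e4 =
      s ^ 4 * (5 * u * b - 10 * u ^ 2 - 4) ^ 2 := by exact_mod_cast h4
  have q5 : 50 * (e5 : ℚ) =
      10 * (e3 : ℚ) ^ 2 - 6 * e4 + 25 * e3 * e4 + c ^ 2 * (5 * u * b - 10 * u ^ 2 - 4) := by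
    exact_mod_cast h5
  have eM : ((n : ℚ) + 5 * s ^ 2 / 2) ^ 2 - 500 * ((s : ℚ) / 2) ^ 4 =
      (n : ℚ) ^ 2 + 5 * s ^ 2 * n - 25 * s ^ 4 := by ring
  refine five_dvd_of_pell_rat K ((n : ℚ) + 5 * s ^ 2 / 2) ((s : ℚ) / 2) u b D c e3 e4 e5 qb ?_ hD
    ?_ hK ?_ ?_ ?_ q5 he l hl
  · rw [eM]; exact qM
  · linear_combination qD4 / 4
  · rw [eM]
    linear_combination qc
  · rw [eM]
    linear_combination q3
  · rw [eM]
    linear_combination q4

end Pool.Agent.Lib.MP3650db.P5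
end

section

set_option autoImplicit false

/-!
The application of the criterion to a residue class of the sequence, for the families with the
scaling parameter `s`.
-/

namespace Pool.Agent.Lib.MP3650db.P5

/-- `F_{4m-3}` -/
def fm (m : ℕ) : ℤ :=
  5 * (st m).1 ^ 2 + 2 - 2 * (st m).1 * (2 * (st m).2 - (st m).1)

/-- `L_{4m-3}` -/
def lm (m : ℕ) : ℤ :=
  5 * (st m).1 * (2 * (st m).2 - (st m).1) - 10 * (st m).1 ^ 2 - 4

theorem fm_bound (m : ℕ) : (m : ℤ) ^ 2 ≤ 5 * fm m := by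
  have h1 := st_inv m
  obtain ⟨h2, h3⟩ := st_bound m
  have h4 : 5 * fm m = (5 * (st m).1 - 3 * (st m).2) ^ 2 + (st m).2 ^ 2 := by
    unfold fm
    linear_combination (-10) * h1
  rw [h4]
  have h5 : (m : ℤ) ^ 2 ≤ (st m).2 ^ 2 := by
    apply pow_le_pow_left₀ (Int.natCast_nonneg m)
    linarith
  nlinarith [sq_nonneg (5 * (st m).1 - 3 * (st m).2)]

theorem fm_res {Q : ℤ} {m : ℕ} {x y : ℤ} (h : Res Q m x y) (f0 : ℤ)
    (hf : Q ∣ 7 * x ^ 2 - 4 * x * y + 2 - f0) : Q ∣ fm m - f0 := by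
  obtain ⟨⟨a, ha⟩, ⟨b, hb⟩⟩ := h
  obtain ⟨c, hc⟩ := hf
  have hx : (st m).1 = x + Q * a := by linarith
  have hy : (st m).2 = y + Q * b := by linarith
  refine ⟨7 * (2 * x * a + Q * a ^ 2) - 4 * (x * b + y * a + Q * a * b) + c, ?_⟩
  unfold fm
  rw [hx, hy]
  linear_combination hc

theorem lm_res {Q : ℤ} {m : ℕ} {x y : ℤ} (h : Res Q m x y) (l0 : ℤ)
    (hl : Q ∣ 10 * x * y - 15 * x ^ 2 - 4 - l0) : Q ∣ lm m - l0 := by
  obtain ⟨⟨a, ha⟩, ⟨b, hb⟩⟩ := h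
  obtain ⟨c, hc⟩ := hl
  have hx : (st m).1 = x + Q * a := by linarith
  have hy : (st m).2 = y + Q * b := by linarith
  refine ⟨10 * (x * b + y * a + Q * a * b) - 15 * (2 * x * a + Q * a ^ 2) + c, ?_⟩
  unfold lm
  rw [hx, hy]
  linear_combination hc

theorem irrMod_congr (l : ℕ) (e3 e4 e5 d3 d4 d5 : ℤ) (h3 : (l : ℤ) ∣ e3 - d3) (h4 : (l : ℤ) ∣ e4 - d4)
    (h5 : (l : ℤ) ∣ e5 - d5) (h : IrrMod l d3 d4 d5) : IrrMod l e3 e4 e5 := by
  have g3 : (e3 : ZMod l) = d3 := ((ZMod.intCast_eq_intCast_iff_dvd_sub d3 e3 l).2 h3).symm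
  have g4 : (e4 : ZMod l) = d4 := ((ZMod.intCast_eq_intCast_iff_dvd_sub d4 e4 l).2 h4).symm
  have g5 : (e5 : ZMod l) = d5 := ((ZMod.intCast_eq_intCast_iff_dvd_sub d5 e5 l).2 h5).symm
  unfold IrrMod at h ⊢
  rw [g3, g4, g5]
  exact h

/-- one field of the window: `4 D = 5 s² (5 F + 2) + 4 n` -/
theorem five_dvd_of_res_s (s n M : ℤ) (l : ℕ) (Q f0 L0 D0 c0 e30 e40 e50 d3 d4 d5 : ℤ)
    (hMn : n ^ 2 + 5 * s ^ 2 * n - 25 * s ^ 4 = M) (hM : M ≠ 0) (hQ : 200 * (l : ℤ) * M ∣ Q)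
    (hD0 : 4 * D0 = 5 * s ^ 2 * (5 * f0 + 2) + 4 * n)
    (hc : M * c0 = -4 * s ^ 2 * D0)
    (h3 : M * e30 = s ^ 2 * ((2 * n + 5 * s ^ 2) * f0 + 10 * s ^ 2))
    (h4 : M * e40 = s ^ 4 * L0 ^ 2)
    (h5 : 50 * e50 = 10 * e30 ^ 2 - 6 * e40 + 25 * e30 * e40 + c0 ^ 2 * L0)
    (he : 2 ∣ e40) (g3 : (l : ℤ) ∣ e30 - d3) (g4 : (l : ℤ) ∣ e40 - d4) (g5 : (l : ℤ) ∣ e50 - d5)
    (hl : IrrMod l d3 d4 d5) (m : ℕ) (hf : Q ∣ fm m - f0) (hL : Q ∣ lm m - L0)
    (K : Type) [Field K] [NumberField K] (D : ℤ) (hD : 0 < D)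
    (hDm : 4 * D = 5 * s ^ 2 * (5 * fm m + 2) + 4 * n)
    (hK : ∃ x : K, x ^ 2 = ((-D : ℤ) : K) ∧ Algebra.adjoin ℚ {x} = ⊤) :
    5 ∣ NumberField.classNumber K := by
  obtain ⟨D', c, e3, e4, e5, k0, k1, k2, k3, k4, k5, k6, k7, k8⟩ :=
    lift_s s n M l f0 L0 D0 c0 e30 e40 e50 (fm m) (lm m) hD0 hc h3 h4 h5 he (hQ.trans hf)
      (hQ.trans hL)
  have hDD : D' = D := by linarith
  subst hDD
  subst hMn
  have hinv := st_inv m
  refine five_dvd_of_pell_s K n s (st m).1 (2 * (st m).2 - (st m).1) D' c e3 e4 e5 ?_ hM hD k0 hK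
    k1 k2 k3 k4 k5 l ?_
  · linear_combination 4 * hinv
  · refine irrMod_congr l _ _ _ d3 d4 d5 ?_ ?_ ?_ hl
    · have := dvd_add k6 g3
      rwa [sub_add_sub_cancel] at this
    · have := dvd_add k7 g4
      rwa [sub_add_sub_cancel] at this
    · have := dvd_add k8 g5
      rwa [sub_add_sub_cancel] at this

/-- `4 D` is divisible by `4` if `F` is `2` modulo `4` -/
theorem exists_D (s f : ℤ) (hf : (4 : ℤ) ∣ f - 2) : ∃ E : ℤ, 4 * E = 5 * s ^ 2 * (5 * f + 2) := by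
  obtain ⟨k, hk⟩ := hf
  exact ⟨5 * s ^ 2 * (5 * k + 3), by linear_combination (-25) * s ^ 2 * hk⟩

end Pool.Agent.Lib.MP3650db.P5
end
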