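import Mathlib
import Pool.Agent.Lib.MP_3650db_nt.Core

section

set_option autoImplicit false

/-!
Galois descent of invariant ideals for a ring extension with an automorphism `s` of order three and
an element `t` with `t + s t + s (s t) = 1` and `t * s t + s t * s (s t) + s (s t) * t = 0`.
-/

namespace Pool.Agent.Lib.MP3650db

variable {R S : Type*} [CommRing R] [IsDomain R] [CommRing S] [IsDomain S] [Algebra R S]

section

variable (s : S →+* S) (h3 : ∀ y, s (s (s y)) = y) (hR : ∀ r : R, s (algebraMap R S r) = algebraMap R S r)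
  (hfix : ∀ y : S, s y = y → ∃ r : R, algebraMap R S r = y)
  (t : S) (ht1 : t + s t + s (s t) = 1) (ht2 : t * s t + s t * s (s t) + s (s t) * t = 0)

include ht1 ht2 in
theorem ne_sigma : t ≠ s t := by
  intro h
  have h2 : s (s t) = t := by rw [← h, ← h]
  rw [h2, ← h] at ht1 ht2
  have h4 : t = 0 := by
    have : t * (t + t + t) = 0 := by linear_combination ht2
    rw [ht1, mul_one] at this
    exact this
  rw [h4] at ht1
  simp at ht1

include h3 ht1 ht2 in
theorem ne_sigma_sigma : t ≠ s (s t) := by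
  intro h
  apply ne_sigma s t ht1 ht2
  have := congrArg s h
  rw [h3] at this
  exact this.symm

include h3 ht1 ht2 in
/-- Hilbert 90 with an integral solution -/
theorem hilbert90 (u : S) (hu : u * s u * s (s u) = 1) : ∃ x : S, x ≠ 0 ∧ x = u * s x := by
  by_contra hcon
  push Not at hcon
  have key : ∀ b : S, b + u * s b + u * s u * s (s b) = 0 := by
    intro b
    by_contra hb
    apply hcon _ hb
    simp only [map_add, map_mul, h3]
    linear_combination - b * hu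
  have k0 := key 1
  have k1 := key t
  have k2 := key (t ^ 2)
  simp only [map_one, map_pow] at k0 k2
  have h : (t - s t) * (t - s (s t)) = 0 := by
    linear_combination k2 - (s t + s (s t)) * k1 + s t * s (s t) * k0
  rcases mul_eq_zero.1 h with h | h
  · exact ne_sigma s t ht1 ht2 (sub_eq_zero.1 h)
  · exact ne_sigma_sigma s h3 t ht1 ht2 (sub_eq_zero.1 h)

/-- the trace -/
def tr (y : S) : S := y + s y + s (s y)

include h3 in
theorem s_tr (y : S) : s (tr s y) = tr s y := by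
  unfold tr
  rw [map_add, map_add, h3]
  ring

include ht1 ht2 h3 in
/-- the dual basis -/
theorem dual (a : S) : a = ((s (s t)) ^ 2 - t * s t) * tr s a + (t - s (s t)) * tr s (t * a)
    + (s t - s (s t)) * tr s (s t * a) := by
  unfold tr
  simp only [map_mul, h3]
  set t0 := t
  set t1 := s t
  set t2 := s (s t)
  set a1 := s a
  set a2 := s (s a)
  have h2 : t2 = 1 - t0 - t1 := by linear_combination ht1
  have e : t0 * t1 + t1 * t2 + t2 * t0 = 0 := ht2
  rw [h2] at e ⊢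
  have e' : t0 ^ 2 + t0 * t1 + t1 ^ 2 = t0 + t1 := by linear_combination -e
  linear_combination (-3 * a) * e'

include ht1 h3 hR hfix in
/-- traces of elements of an extended ideal lie in the ideal -/
theorem tr_mem (A : Ideal R) (z : S) (hz : z ∈ A.map (algebraMap R S)) :
    ∀ y : S, ∃ r ∈ A, algebraMap R S r = tr s (y * z) := by
  rw [Ideal.map] at hz
  induction hz using Submodule.span_induction with
  | mem x hx =>
    obtain ⟨r, hr, rfl⟩ := hx
    intro y
    obtain ⟨q, hq⟩ := hfix _ (s_tr s h3 y)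
    refine ⟨q * r, A.mul_mem_left _ hr, ?_⟩
    rw [map_mul, hq]
    unfold tr
    simp only [map_mul, hR]
    ring
  | zero =>
    intro y
    exact ⟨0, A.zero_mem, by simp [tr]⟩
  | add x z _ _ hx hz =>
    intro y
    obtain ⟨r, hr, h1⟩ := hx y
    obtain ⟨r', hr', h2⟩ := hz y
    refine ⟨r + r', A.add_mem hr hr', ?_⟩
    rw [map_add, h1, h2]
    unfold tr
    simp only [mul_add, map_add]
    ring
  | smul a x _ hx =>
    intro y
    obtain ⟨r, hr, h1⟩ := hx (y * a)
    exact ⟨r, hr, by rw [h1, smul_eq_mul, mul_assoc]⟩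

include ht1 h3 hR hfix in
theorem map_inj (hinj : Function.Injective (algebraMap R S)) (A B : Ideal R)
    (h : A.map (algebraMap R S) = B.map (algebraMap R S)) : A = B := by
  have key : ∀ A B : Ideal R, A.map (algebraMap R S) = B.map (algebraMap R S) → A ≤ B := by
    intro A B h b hb
    have hb' : algebraMap R S b ∈ B.map (algebraMap R S) := by
      rw [← h]; exact Ideal.mem_map_of_mem _ hb
    obtain ⟨r, hr, h1⟩ := tr_mem s h3 hR hfix t ht1 B _ hb' t
    have h2 : tr s (t * algebraMap R S b) = algebraMap R S b := by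
      unfold tr
      simp only [map_mul, hR]
      linear_combination (algebraMap R S b) * ht1
    rw [h2] at h1
    rw [← hinj h1]
    exact hr
  exact le_antisymm (key A B h) (key B A h.symm)

include ht1 ht2 h3 hR hfix in
/-- the main step: an ideal of `R` which is not principal while its cube is -/
theorem exists_ideal (hinj : Function.Injective (algebraMap R S)) (u : Sˣ)
    (hu : (u : S) * s u * s (s u) = 1)
    (hcob : ∀ ξ : Sˣ, (u : S) * s ξ ≠ ξ) :
    ∃ J : Ideal R, J ≠ ⊥ ∧ (¬ ∃ j, J = Ideal.span {j}) ∧ ∃ y, J ^ 3 = Ideal.span {y} := by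
  obtain ⟨x, hx0, hx⟩ := hilbert90 s h3 t ht1 ht2 (u : S) hu
  have hsx : s x = (↑u⁻¹ : S) * x := by
    conv_rhs => rw [hx]
    rw [← mul_assoc, Units.inv_mul, one_mul]
  set v : S := s (↑u⁻¹ : S) with hv
  have hvu : v * s u = 1 := by rw [hv, ← map_mul, Units.inv_mul, map_one]
  have hssx : s (s x) = v * (↑u⁻¹ : S) * x := by
    conv_lhs => rw [hsx]
    rw [map_mul, hsx, ← hv, mul_assoc]
  obtain ⟨y, hy⟩ := hfix (x * s x * s (s x)) (by
    rw [map_mul, map_mul, h3]; ring)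
  set I : Ideal S := Ideal.span {x} with hI
  set J : Ideal R := I.comap (algebraMap R S) with hJ
  have hxI : x ∈ I := Ideal.mem_span_singleton_self x
  have htrI : ∀ b : S, tr s (b * x) ∈ I := by
    intro b
    unfold tr
    simp only [map_mul]
    refine I.add_mem (I.add_mem (I.mul_mem_left _ hxI) ?_) ?_
    · rw [hsx]; exact I.mul_mem_left _ (I.mul_mem_left _ hxI)
    · rw [hssx]; exact I.mul_mem_left _ (I.mul_mem_left _ hxI)
  have hmem : ∀ b : S, tr s (b * x) ∈ J.map (algebraMap R S) := by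
    intro b
    obtain ⟨r, hr⟩ := hfix _ (s_tr s h3 (b * x))
    rw [← hr]
    apply Ideal.mem_map_of_mem
    rw [hJ, Ideal.mem_comap, hr]
    exact htrI b
  have hmap : J.map (algebraMap R S) = I := by
    apply le_antisymm
    · exact Ideal.map_comap_le
    · rw [hI, Ideal.span_le, Set.singleton_subset_iff]
      rw [SetLike.mem_coe, dual s h3 t ht1 ht2 x]
      have h1 := hmem 1
      rw [one_mul] at h1
      exact Ideal.add_mem _ (Ideal.add_mem _ (Ideal.mul_mem_left _ _ h1)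
        (Ideal.mul_mem_left _ _ (hmem _))) (Ideal.mul_mem_left _ _ (hmem _))
  have hsx0 : s x ≠ 0 := by
    intro h
    rw [h, mul_zero] at hx
    exact hx0 hx
  have hssx0 : s (s x) ≠ 0 := by
    intro h
    have := congrArg s h
    rw [h3, map_zero] at this
    exact hx0 this
  refine ⟨J, ?_, ?_, y, ?_⟩
  · intro h
    have hyJ : y ∈ J := by
      rw [hJ, Ideal.mem_comap, hy, mul_assoc]
      exact Ideal.mul_mem_right _ _ hxI
    rw [h, Ideal.mem_bot] at hyJ
    rw [hyJ, map_zero] at hy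
    exact (mul_ne_zero (mul_ne_zero hx0 hsx0) hssx0) hy.symm
  · rintro ⟨j, hj⟩
    rw [hj, Ideal.map_span, Set.image_singleton, hI, Ideal.span_singleton_eq_span_singleton] at hmap
    obtain ⟨ξ, hξ⟩ := hmap
    apply hcob ξ
    have hj0 : algebraMap R S j ≠ 0 := by
      intro h
      rw [h, zero_mul] at hξ
      exact hx0 hξ.symm
    have e : algebraMap R S j * ((u : S) * s ξ) = algebraMap R S j * ξ := by
      rw [hξ]
      have : s x = algebraMap R S j * s ξ := by rw [← hξ, map_mul, hR]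
      conv_rhs => rw [hx, this]
      ring
    exact mul_left_cancel₀ hj0 e
  · apply map_inj s h3 hR hfix t ht1 hinj
    rw [Ideal.map_pow, hmap, hI, Ideal.span_singleton_pow, Ideal.map_span, Set.image_singleton, hy,
      Ideal.span_singleton_eq_span_singleton]
    refine ⟨⟨(↑u⁻¹ : S) * (v * (↑u⁻¹ : S)), (u : S) * (s u * u), ?_, ?_⟩, ?_⟩
    · have := Units.inv_mul u
      linear_combination (v * s u * (↑u⁻¹ : S) * u + v * s u) * this + hvu
    · have := Units.inv_mul u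
      linear_combination (v * s u * (↑u⁻¹ : S) * u + v * s u) * this + hvu
    · simp only
      rw [hssx, hsx]
      ring

end

end Pool.Agent.Lib.MP3650db
end

section

set_option autoImplicit false

/-!
Units of a number field with an automorphism of order three whose norm is torsion: some unit is not
a torsion unit times a coboundary.
-/

namespace Pool.Agent.Lib.MP3650db

open NumberField NumberField.Units

variable (L : Type*) [Field L] [NumberField L]

/-- some unit is not a torsion unit times a cube -/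
theorem exists_not_torsion_mul_cube (h : 0 < Units.rank L) :
    ∃ w : (𝓞 L)ˣ, ∀ ζ ∈ torsion L, ∀ η : (𝓞 L)ˣ, w ≠ ζ * η ^ 3 := by
  let i : Fin (Units.rank L) := ⟨0, h⟩
  refine ⟨fundSystem L i, fun ζ hζ η he => ?_⟩
  obtain ⟨⟨ζ', e⟩, h1, -⟩ := exist_unique_eq_mul_prod L η
  obtain ⟨z, -, huniq⟩ := exist_unique_eq_mul_prod L (fundSystem L i)
  have h2 := huniq (1, Pi.single i 1) (by
    simp only [OneMemClass.coe_one, one_mul]
    rw [Finset.prod_eq_single i]
    · simp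
    · intro j _ hj
      rw [Pi.single_eq_of_ne hj, zpow_zero]
    · intro hi
      exact absurd (Finset.mem_univ i) hi)
  have h3 := huniq (⟨ζ, hζ⟩ * ζ' ^ 3, fun j => e j * 3) (by
    simp only [Subgroup.coe_mul, SubmonoidClass.coe_pow]
    rw [he, h1, mul_pow, ← Finset.prod_pow, mul_assoc]
    congr 2
    apply Finset.prod_congr rfl
    intro j _
    rw [zpow_mul, zpow_ofNat])
  have h4 := congrFun (congrArg Prod.snd (h2.trans h3.symm)) i
  simp only [Pi.single_eq_same] at h4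
  omega

/-- some unit is not a torsion unit times `ξ / σ ξ` -/
theorem exists_unit_not_coboundary (h : 0 < Units.rank L) (σ : (𝓞 L)ˣ →* (𝓞 L)ˣ)
    (hN : ∀ v : (𝓞 L)ˣ, v * σ v * σ (σ v) ∈ torsion L) :
    ∃ w : (𝓞 L)ˣ, ∀ ζ ∈ torsion L, ∀ ξ : (𝓞 L)ˣ, w ≠ ζ * (ξ / σ ξ) := by
  by_contra hcon
  push_neg at hcon
  obtain ⟨w, hw⟩ := exists_not_torsion_mul_cube L h
  obtain ⟨ζ, hζ, ξ, h1⟩ := hcon w
  obtain ⟨ζ', hζ', η, h2⟩ := hcon ξ
  have hs : ∀ z ∈ torsion L, σ z ∈ torsion L := by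
    intro z hz
    rw [torsion, CommGroup.mem_torsion, isOfFinOrder_iff_pow_eq_one] at hz ⊢
    obtain ⟨n, hn, hz⟩ := hz
    exact ⟨n, hn, by rw [← map_pow, hz, map_one]⟩
  refine hw (ζ * (ζ' / σ ζ') * (η * σ η * σ (σ η))) ?_ (σ η)⁻¹ ?_
  · exact mul_mem (mul_mem hζ (div_mem hζ' (hs _ hζ'))) (hN η)
  · rw [h1, h2, map_mul, map_div, inv_pow]
    simp only [div_eq_mul_inv, mul_inv, inv_inv, pow_succ, pow_zero, one_mul]
    have e1 : σ η * (σ η)⁻¹ = 1 := mul_inv_cancel _
    calc ζ * (ζ' * (η * (σ η)⁻¹) * ((σ ζ')⁻¹ * ((σ η)⁻¹ * σ (σ η))))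
        = ζ * (ζ' * (σ ζ')⁻¹) * (η * σ (σ η)) * ((σ η)⁻¹ * (σ η)⁻¹) := by
          simp only [mul_assoc, mul_comm, mul_left_comm]
      _ = ζ * (ζ' * (σ ζ')⁻¹) * (η * σ (σ η)) * ((σ η)⁻¹ * (σ η)⁻¹) * (σ η * (σ η)⁻¹) := by
          rw [e1, mul_one]
      _ = _ := by simp only [mul_assoc, mul_comm, mul_left_comm]

/-- a unit of norm one which is not `ξ / σ ξ` -/
theorem exists_unit_norm_one (h : 0 < Units.rank L) (σ : (𝓞 L)ˣ →* (𝓞 L)ˣ)
    (h3 : ∀ v, σ (σ (σ v)) = v)
    (hN : ∀ v : (𝓞 L)ˣ, (v * σ v * σ (σ v)) ^ 4 = 1) :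
    ∃ u : (𝓞 L)ˣ, u * σ u * σ (σ u) = 1 ∧ ∀ ξ : (𝓞 L)ˣ, u ≠ ξ / σ ξ := by
  have hT : ∀ v : (𝓞 L)ˣ, v * σ v * σ (σ v) ∈ torsion L := by
    intro v
    rw [torsion, CommGroup.mem_torsion, isOfFinOrder_iff_pow_eq_one]
    exact ⟨4, by norm_num, hN v⟩
  obtain ⟨w, hw⟩ := exists_unit_not_coboundary L h σ hT
  refine ⟨w ^ 4, ?_, ?_⟩
  · rw [← hN w, mul_pow, mul_pow, map_pow, map_pow]
  · intro ξ hξ
    refine hw (w * σ w * σ (σ w))⁻¹ (inv_mem (hT w)) (ξ / (w / σ (σ w))) ?_
    rw [map_div, map_div, h3]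
    have e : w = w ^ 4 * (w ^ 3)⁻¹ := by
      rw [pow_succ w 3, mul_comm (w ^ 3) w, mul_assoc, mul_inv_cancel, mul_one]
    conv_lhs => rw [e, hξ]
    simp only [div_eq_mul_inv, mul_inv, inv_inv, pow_succ, pow_zero, one_mul]
    have e1 : σ w * (σ w)⁻¹ = 1 := mul_inv_cancel _
    have e2 : σ (σ w) * (σ (σ w))⁻¹ = 1 := mul_inv_cancel _
    calc ξ * (σ ξ)⁻¹ * (w⁻¹ * w⁻¹ * w⁻¹)
        = ξ * (σ ξ)⁻¹ * (w⁻¹ * w⁻¹ * w⁻¹) * (σ w * (σ w)⁻¹) * (σ (σ w) * (σ (σ w))⁻¹) := by
          rw [e1, e2, mul_one, mul_one]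
      _ = _ := by simp only [mul_assoc, mul_comm, mul_left_comm]

end Pool.Agent.Lib.MP3650db
end

section

set_option autoImplicit false

/-!
Hilbert's theorem 94 for an unramified cyclic cubic extension, in the special shape used here.
-/

namespace Pool.Agent.Lib.MP3650db

open NumberField ComplexConjugate

section Aux

variable {K : Type} [Field K] [NumberField K]

/-- units of an imaginary quadratic field other than `ℚ(√-3)` are fourth roots of unity -/
theorem unit_pow_four (w : K) (n : ℤ) (hn : n < 0) (hw : w ^ 2 = (n : K))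
    (hgen : Algebra.adjoin ℚ {w} = ⊤) (h3 : ∀ q : ℚ, (n : ℚ) ≠ -3 * q ^ 2) (u : (𝓞 K)ˣ) :
    u ^ 4 = 1 := by
  obtain ⟨φ⟩ : Nonempty (K →+* ℂ) := inferInstance
  obtain ⟨⟨t, ht⟩, ⟨b, hb⟩⟩ := trace_norm_int φ w n hn hw hgen (u : 𝓞 K)
  obtain ⟨-, ⟨b', hb'⟩⟩ := trace_norm_int φ w n hn hw hgen ((u⁻¹ : (𝓞 K)ˣ) : 𝓞 K)
  have huu : φ ((u : 𝓞 K) : K) * φ (((u⁻¹ : (𝓞 K)ˣ) : 𝓞 K) : K) = 1 := by
    rw [← map_mul, ← map_mul]
    simp
  have hbb : b * b' = 1 := by
    have : ((b * b' : ℤ) : ℂ) = 1 := by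
      push_cast
      rw [← hb, ← hb']
      have h := congrArg (fun z => z * conj z) huu
      simp only [map_mul, map_one, mul_one] at h
      linear_combination h
    exact_mod_cast this
  have hbnn : 0 ≤ b := by
    have h1 : ((Complex.normSq (φ ((u : 𝓞 K) : K)) : ℝ) : ℂ) = (b : ℂ) := by
      rw [← hb, Complex.mul_conj]
    have h2 : Complex.normSq (φ ((u : 𝓞 K) : K)) = (b : ℝ) := by exact_mod_cast h1
    have h3 := Complex.normSq_nonneg (φ ((u : 𝓞 K) : K))
    rw [h2] at h3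
    exact_mod_cast h3
  have hb1 : b = 1 := by
    rcases Int.eq_one_or_neg_one_of_mul_eq_one hbb with h | h
    · exact h
    · omega
  subst hb1
  set z : ℂ := φ ((u : 𝓞 K) : K) with hz
  -- z^2 - t z + 1 = 0
  have hquad : z ^ 2 - t * z + 1 = 0 := by
    have h1 : z * conj z = 1 := by rw [hb]; simp
    linear_combination z * ht - h1
  have ht2 : t ^ 2 ≤ 4 := by
    have hre : 2 * z.re = t := by
      have := congrArg Complex.re ht
      simp at this
      linarith
    have hns : z.re ^ 2 + z.im ^ 2 = 1 := by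
      have h1 : ((Complex.normSq z : ℝ) : ℂ) = 1 := by
        rw [← Complex.mul_conj, hb]; simp
      have h2 : Complex.normSq z = 1 := by exact_mod_cast h1
      rw [Complex.normSq_apply] at h2
      nlinarith
    have : (t : ℝ) ^ 2 ≤ 4 := by
      rw [← hre]; nlinarith [sq_nonneg z.im]
    exact_mod_cast this
  have ht3 : -2 ≤ t ∧ t ≤ 2 := by
    constructor <;> nlinarith
  have hinj : Function.Injective φ := φ.injective
  -- reduce to the ring of integers
  have hK : ((u : 𝓞 K) : K) ^ 2 - t * ((u : 𝓞 K) : K) + 1 = 0 := by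
    apply hinj
    simpa using hquad
  have hO : (u : 𝓞 K) ^ 2 - t * (u : 𝓞 K) + 1 = 0 := by
    apply RingOfIntegers.ext
    simpa using hK
  obtain ⟨ht4, ht5⟩ := ht3
  have hcase : t = -2 ∨ t = 0 ∨ t = 2 ∨ t ^ 2 = 1 := by
    interval_cases t <;> simp
  suffices hv : (u : 𝓞 K) ^ 4 = 1 by
    apply Units.ext
    rw [Units.val_pow_eq_pow_val, hv, Units.val_one]
  rcases hcase with h | h | h | h
  · subst h
    have h1 : ((u : 𝓞 K) + 1) ^ 2 = 0 := by
      push_cast at hO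
      linear_combination hO
    have h2 : (u : 𝓞 K) + 1 = 0 := by simpa using h1
    linear_combination ((u : 𝓞 K) ^ 3 - (u : 𝓞 K) ^ 2 + (u : 𝓞 K) - 1) * h2
  · subst h
    push_cast at hO
    linear_combination ((u : 𝓞 K) ^ 2 - 1) * hO
  · subst h
    have h1 : ((u : 𝓞 K) - 1) ^ 2 = 0 := by
      push_cast at hO
      linear_combination hO
    have h2 : (u : 𝓞 K) - 1 = 0 := by simpa using h1
    linear_combination ((u : 𝓞 K) ^ 3 + (u : 𝓞 K) ^ 2 + (u : 𝓞 K) + 1) * h2
  · exfalso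
    obtain ⟨r, s, hrs⟩ := exists_repr w n hw hgen ((u : 𝓞 K) : K)
    have hW : (φ w) ^ 2 = (n : ℂ) := by rw [← map_pow, hw]; simp
    have hc := conj_eq_neg (φ w) n hn hW
    have hφ : z = (r : ℂ) + s * φ w := by rw [hz, hrs]; simp
    have hcφ : conj z = (r : ℂ) - s * φ w := by
      rw [hφ]; simp [hc]; ring
    have h2 : (4 * s ^ 2 * n : ℂ) = -3 := by
      have hsum : (2 * r : ℂ) = t := by
        rw [← ht, hcφ]; rw [hφ]; ring
      have hprod : (r ^ 2 - s ^ 2 * n : ℂ) = 1 := by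
        have : z * conj z = 1 := by rw [hb]; simp
        rw [hcφ, hφ] at this
        linear_combination this + (s : ℂ) ^ 2 * hW
      have ht1 : (t : ℂ) ^ 2 = 1 := by exact_mod_cast h
      linear_combination (2 * r + t) * hsum - 4 * hprod + ht1
    have h4 : (4 * s ^ 2 * n : ℚ) = -3 := by exact_mod_cast h2
    have hs : s ≠ 0 := by
      rintro rfl
      norm_num at h4
    apply h3 (1 / (2 * s))
    field_simp
    linarith

end Aux

/-- If `L / K` has an automorphism of order three with fixed field `K` and an integral element `t`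
with `t + σ t + σ² t = 1`, `t σ t + σ t σ² t + σ² t t = 0`, if the units of `K` are fourth roots of
unity and `L` has a unit of infinite order, then `3` divides the class number of `K`. -/
theorem three_dvd_of_cubic {K L : Type*} [Field K] [NumberField K] [Field L] [NumberField L]
    [Algebra K L] (σ : L →ₐ[K] L) (h3 : ∀ y, σ (σ (σ y)) = y)
    (hfix : ∀ y, σ y = y → ∃ r : K, algebraMap K L r = y)
    (t : L) (hint : IsIntegral ℤ t) (ht1 : t + σ t + σ (σ t) = 1)
    (ht2 : t * σ t + σ t * σ (σ t) + σ (σ t) * t = 0)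
    (hunits : ∀ v : (𝓞 K)ˣ, v ^ 4 = 1) (hrank : 0 < Units.rank L) :
    3 ∣ classNumber K := by
  classical
  let s : 𝓞 L →+* 𝓞 L := RingOfIntegers.mapRingHom (σ : L →+* L)
  have hs : ∀ y : 𝓞 L, ((s y : 𝓞 L) : L) = σ (y : L) := fun y => rfl
  have h3' : ∀ y, s (s (s y)) = y := by
    intro y
    apply RingOfIntegers.ext
    rw [hs, hs, hs, h3]
  have hcoe : ∀ r : 𝓞 K, ((algebraMap (𝓞 K) (𝓞 L) r : 𝓞 L) : L) = algebraMap K L (r : K) :=
    fun r => rfl
  have hR : ∀ r : 𝓞 K, s (algebraMap (𝓞 K) (𝓞 L) r) = algebraMap (𝓞 K) (𝓞 L) r := by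
    intro r
    apply RingOfIntegers.ext
    rw [hs, hcoe, AlgHom.commutes]
  have hfix' : ∀ y : 𝓞 L, s y = y → ∃ r : 𝓞 K, algebraMap (𝓞 K) (𝓞 L) r = y := by
    intro y hy
    have h1 : σ (y : L) = y := by rw [← hs, hy]
    obtain ⟨r, hr⟩ := hfix _ h1
    have hri : IsIntegral ℤ r := by
      have h2 : IsIntegral ℤ (algebraMap K L r) := by rw [hr]; exact y.2
      exact (isIntegral_algebraMap_iff (algebraMap K L).injective).1 h2
    exact ⟨⟨r, hri⟩, RingOfIntegers.ext hr⟩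
  let t' : 𝓞 L := ⟨t, hint⟩
  have ht' : ((t' : 𝓞 L) : L) = t := rfl
  have ht1' : t' + s t' + s (s t') = 1 := by
    apply RingOfIntegers.ext
    simpa [hs, ht'] using ht1
  have ht2' : t' * s t' + s t' * s (s t') + s (s t') * t' = 0 := by
    apply RingOfIntegers.ext
    simpa [hs, ht'] using ht2
  have hinj : Function.Injective (algebraMap (𝓞 K) (𝓞 L)) := RingOfIntegers.algebraMap.injective K L
  -- the unit
  let S : (𝓞 L)ˣ →* (𝓞 L)ˣ := Units.map (s : 𝓞 L →* 𝓞 L)
  have hS : ∀ v : (𝓞 L)ˣ, ((S v : (𝓞 L)ˣ) : 𝓞 L) = s v := fun v => rfl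
  have hS3 : ∀ v, S (S (S v)) = v := by
    intro v
    apply Units.ext
    rw [hS, hS, hS, h3']
  have hfixu : ∀ v : (𝓞 L)ˣ, S v = v → v ^ 4 = 1 := by
    intro v hv
    have h1 : s (v : 𝓞 L) = v := by rw [← hS, hv]
    have h2 : s ((v⁻¹ : (𝓞 L)ˣ) : 𝓞 L) = ((v⁻¹ : (𝓞 L)ˣ) : 𝓞 L) := by
      rw [← hS, map_inv, hv]
    obtain ⟨r, hr⟩ := hfix' _ h1
    obtain ⟨r', hr'⟩ := hfix' _ h2
    have h12 : r * r' = 1 := by
      apply hinj
      rw [map_mul, hr, hr', map_one, Units.mul_inv]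
    have h21 : r' * r = 1 := by rw [mul_comm]; exact h12
    have h4 := hunits ⟨r, r', h12, h21⟩
    have h5 : r ^ 4 = 1 := by
      have := congrArg (fun z : (𝓞 K)ˣ => (z : 𝓞 K)) h4
      simpa using this
    apply Units.ext
    rw [Units.val_pow_eq_pow_val, ← hr, ← map_pow, h5, map_one, Units.val_one]
  have hN : ∀ v : (𝓞 L)ˣ, (v * S v * S (S v)) ^ 4 = 1 := by
    intro v
    apply hfixu
    rw [map_mul, map_mul, hS3]
    simp only [mul_comm, mul_left_comm]
  obtain ⟨u, hu1, hu2⟩ := exists_unit_norm_one L hrank S hS3 hN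
  have hu1' : (u : 𝓞 L) * s u * s (s u) = 1 := by
    have := congrArg (fun z : (𝓞 L)ˣ => (z : 𝓞 L)) hu1
    simpa [hS] using this
  have hu2' : ∀ ξ : (𝓞 L)ˣ, (u : 𝓞 L) * s ξ ≠ ξ := by
    intro ξ hξ
    apply hu2 ξ
    rw [eq_div_iff_mul_eq']
    apply Units.ext
    rw [Units.val_mul, hS]
    exact hξ
  obtain ⟨J, hJ0, hJp, y, hJ3⟩ := exists_ideal s h3' hR hfix' t' ht1' ht2' hinj u hu1' hu2'
  have hJm : J ∈ nonZeroDivisors (Ideal (𝓞 K)) := mem_nonZeroDivisors_iff_ne_zero.2 hJ0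
  let c : ClassGroup (𝓞 K) := ClassGroup.mk0 ⟨J, hJm⟩
  have hc1 : c ≠ 1 := by
    intro h
    rw [ClassGroup.mk0_eq_one_iff] at h
    obtain ⟨j, hj⟩ := h
    exact hJp ⟨j, hj⟩
  have hc3 : c ^ 3 = 1 := by
    rw [← map_pow, ClassGroup.mk0_eq_one_iff]
    exact ⟨y, by simpa using hJ3⟩
  have hord : orderOf c = 3 := orderOf_eq_prime hc3 hc1
  rw [classNumber, ← hord]
  exact orderOf_dvd_card

end Pool.Agent.Lib.MP3650db
end

section

set_option autoImplicit false

/-!
The cyclic cubic extension of a quadratic field `K` given by `Z³ - Z² - k` when its discriminant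
`-k(27k+4)` is a square in `K`.
-/

namespace Pool.Agent.Lib.MP3650db

open NumberField Polynomial

/-- the cubic polynomial -/
noncomputable def cub (F : Type*) [Field F] (k : ℤ) : F[X] := X ^ 3 - X ^ 2 - C (k : F)

theorem cub_monic (F : Type*) [Field F] (k : ℤ) : (cub F k).Monic := by
  unfold cub
  monicity!

theorem cub_natDegree (F : Type*) [Field F] (k : ℤ) : (cub F k).natDegree = 3 := by
  unfold cub
  compute_degree!

theorem cub_irreducible (F : Type*) [Field F] (k : ℤ) (h : ∀ ρ : F, ρ ^ 3 - ρ ^ 2 ≠ (k : F)) :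
    Irreducible (cub F k) := by
  rw [Polynomial.irreducible_iff_roots_eq_zero_of_degree_le_three
    (by rw [cub_natDegree]; norm_num) (by rw [cub_natDegree])]
  rw [Multiset.eq_zero_iff_forall_notMem]
  intro ρ hρ
  rw [mem_roots (cub_monic F k).ne_zero, IsRoot.def] at hρ
  apply h ρ
  simp only [cub, eval_sub, eval_pow, eval_X, eval_C] at hρ
  linear_combination hρ

theorem no_rat_root (k : ℤ) (hk : ∀ a : ℤ, a ^ 3 - a ^ 2 ≠ k) (ρ : ℚ) :
    ρ ^ 3 - ρ ^ 2 ≠ (k : ℚ) := by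
  intro h
  have hint : IsIntegral ℤ ρ := by
    refine ⟨X ^ 3 - X ^ 2 - C k, by monicity!, ?_⟩
    simp only [eval₂_sub, eval₂_pow, eval₂_X, eval₂_C]
    rw [algebraMap_int_eq, eq_intCast]
    linear_combination h
  obtain ⟨a, ha⟩ := IsIntegrallyClosed.isIntegral_iff.1 hint
  apply hk a
  rw [← ha] at h
  simp only [algebraMap_int_eq, eq_intCast] at h
  exact_mod_cast h

theorem no_root (K : Type*) [Field K] [NumberField K] (hK : Module.finrank ℚ K = 2) (k : ℤ)
    (hk : ∀ a : ℤ, a ^ 3 - a ^ 2 ≠ k) (ρ : K) : ρ ^ 3 - ρ ^ 2 ≠ (k : K) := by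
  intro h
  have h1 : minpoly ℚ ρ = cub ℚ k := by
    symm
    apply minpoly.eq_of_irreducible_of_monic (cub_irreducible ℚ k (no_rat_root k hk)) _
      (cub_monic ℚ k)
    simp only [cub, map_sub, map_pow, aeval_X, map_intCast]
    linear_combination h
  have h2 : (minpoly ℚ ρ).natDegree ∣ Module.finrank ℚ K :=
    minpoly.degree_dvd (Algebra.IsIntegral.isIntegral ρ)
  rw [h1, cub_natDegree, hK] at h2
  omega

theorem rank_pos (K L : Type*) [Field K] [NumberField K] [Field L] [NumberField L] [Algebra K L]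
    (h : Module.finrank ℚ K = 2) (h' : Module.finrank K L = 3) : 0 < Units.rank L := by
  have h1 : Module.finrank ℚ L = 6 := by
    rw [← Module.finrank_mul_finrank ℚ K L, h, h']
  have h2 := InfinitePlace.card_add_two_mul_card_eq_rank L
  have h3 := InfinitePlace.card_eq_nrRealPlaces_add_nrComplexPlaces L
  rw [h1] at h2
  rw [Units.rank]
  omega

/-- powers have rational traces -/
theorem tr_pow {K L : Type*} [Field K] [Field L] [Algebra K L] (σ : L →ₐ[K] L) (k : ℤ) (θ : L)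
    (hθ : θ ^ 3 = θ ^ 2 + (k : L)) (h1 : θ + σ θ + σ (σ θ) = 1)
    (h2 : θ * σ θ + σ θ * σ (σ θ) + σ (σ θ) * θ = 0) (n : ℕ) :
    ∃ r : K, algebraMap K L r = θ ^ n + σ (θ ^ n) + σ (σ (θ ^ n)) := by
  induction n using Nat.strong_induction_on with
  | _ n ih =>
    match n with
    | 0 => exact ⟨3, by simp only [pow_zero, map_one, map_ofNat]; norm_num⟩
    | 1 => exact ⟨1, by simp [h1]⟩
    | 2 => exact ⟨1, by
        simp only [map_one, map_pow]
        linear_combination (-1 - θ - σ θ - σ (σ θ)) * h1 + 2 * h2⟩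
    | m + 3 =>
      obtain ⟨r, hr⟩ := ih (m + 2) (by omega)
      obtain ⟨q, hq⟩ := ih m (by omega)
      refine ⟨r + k * q, ?_⟩
      have e : θ ^ (m + 3) = θ ^ (m + 2) + (k : L) * θ ^ m := by
        linear_combination θ ^ m * hθ
      rw [map_add, map_mul, hr, hq, e]
      simp only [map_add, map_mul, map_intCast]
      ring

theorem fixed_mem {K L : Type*} [Field K] [CharZero K] [Field L] [Algebra K L] (σ : L →ₐ[K] L) (k : ℤ) (θ : L)
    (hθ : θ ^ 3 = θ ^ 2 + (k : L)) (h1 : θ + σ θ + σ (σ θ) = 1)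
    (h2 : θ * σ θ + σ θ * σ (σ θ) + σ (σ θ) * θ = 0) (hgen : ∀ y : L, ∃ p : K[X], aeval θ p = y)
    (y : L) (hy : σ y = y) : ∃ r : K, algebraMap K L r = y := by
  have key : ∀ p : K[X], ∃ r : K, algebraMap K L r =
      aeval θ p + σ (aeval θ p) + σ (σ (aeval θ p)) := by
    intro p
    induction p using Polynomial.induction_on' with
    | add p q hp hq =>
      obtain ⟨r, hr⟩ := hp
      obtain ⟨r', hr'⟩ := hq
      exact ⟨r + r', by rw [map_add, hr, hr']; simp only [map_add]; ring⟩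
    | monomial n a =>
      obtain ⟨r, hr⟩ := tr_pow σ k θ hθ h1 h2 n
      refine ⟨a * r, ?_⟩
      rw [map_mul, hr, aeval_monomial]
      simp only [map_mul, AlgHom.commutes]
      ring
  obtain ⟨p, hp⟩ := hgen y
  obtain ⟨r, hr⟩ := key p
  rw [hp, hy, hy] at hr
  refine ⟨r / 3, ?_⟩
  have h3 : (3 : L) ≠ 0 := by
    have : (algebraMap K L 3) ≠ 0 := by
      rw [Ne, map_eq_zero]
      norm_num
    rwa [map_ofNat] at this
  rw [map_div₀, hr, map_ofNat]
  field_simp
  ring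

theorem three_dvd_abstract (K L : Type*) [Field K] [NumberField K] [Field L] [NumberField L]
    [Algebra K L] (hK : Module.finrank ℚ K = 2) (hL : Module.finrank K L = 3) (k : ℤ) (s : K)
    (hs0 : s ≠ 0) (hs : s ^ 2 = ((-(k * (27 * k + 4)) : ℤ) : K)) (hunits : ∀ v : (𝓞 K)ˣ, v ^ 4 = 1)
    (θ : L) (hθ : θ ^ 3 = θ ^ 2 + (k : L))
    (hlift : ∀ θ' : L, θ' ^ 3 = θ' ^ 2 + (k : L) → ∃ σ : L →ₐ[K] L, σ θ = θ')
    (hgen : ∀ y : L, ∃ p : K[X], aeval θ p = y) : 3 ∣ classNumber K := by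
  have hk0 : (k : K) ≠ 0 := by
    intro h
    apply hs0
    have : s ^ 2 = 0 := by
      rw [hs]; push_cast; rw [h]; ring
    simpa using this
  have hk1 : (27 * (k : K) + 4) ≠ 0 := by
    intro h
    apply hs0
    have : s ^ 2 = 0 := by
      rw [hs]; push_cast; rw [h]; ring
    simpa using this
  have hinj : Function.Injective (algebraMap K L) := (algebraMap K L).injective
  have hk0' : (k : L) ≠ 0 := by
    intro h
    apply hk0
    apply hinj
    rw [map_intCast, map_zero, h]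
  have hk1' : (27 * (k : L) + 4) ≠ 0 := by
    intro h
    apply hk1
    apply hinj
    rw [map_zero, ← h, map_add, map_mul, map_intCast, map_ofNat, map_ofNat]
  set S : L := algebraMap K L s with hS
  have hS2 : S ^ 2 = -((k : L) * (27 * (k : L) + 4)) := by
    rw [hS, ← map_pow, hs, map_intCast]
    push_cast
    ring
  set D : L := 3 * θ ^ 2 - 2 * θ with hD
  have hD0 : D ≠ 0 := by
    intro h
    have h1 : θ * (3 * θ - 2) = 0 := by rw [← h, hD]; ring
    rcases mul_eq_zero.1 h1 with h2 | h2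
    · apply hk0'
      rw [h2] at hθ
      linear_combination -hθ
    · apply hk1'
      have : (27 : L) * (θ ^ 3 - θ ^ 2) + 4 = 0 := by
        linear_combination (9 * θ ^ 2 - 3 * θ - 2) * h2
      linear_combination this - 27 * hθ
  have h20 : (2 : L) ≠ 0 := two_ne_zero
  set θ₁ : L := (1 - θ + S / D) / 2 with hθ₁
  set θ₂ : L := (1 - θ - S / D) / 2 with hθ₂
  have hsum : θ₁ + θ₂ = 1 - θ := by rw [hθ₁, hθ₂]; ring
  have hdiff : D * (θ₁ - θ₂) = S := by
    rw [hθ₁, hθ₂]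
    field_simp
    ring
  have hprod : θ₁ * θ₂ = θ ^ 2 - θ := by
    have e1 : 4 * (D ^ 2 * (θ₁ * θ₂)) = 4 * (D ^ 2 * (θ ^ 2 - θ)) := by
      have : 4 * (D ^ 2 * (θ₁ * θ₂)) = D ^ 2 * (θ₁ + θ₂) ^ 2 - (D * (θ₁ - θ₂)) ^ 2 := by ring
      rw [this, hdiff, hsum, hS2, hD]
      have hk : (k : L) = θ ^ 3 - θ ^ 2 := by linear_combination -hθ
      rw [hk]
      ring
    have e2 : (4 * D ^ 2) ≠ 0 := by
      apply mul_ne_zero
      · norm_num
      · exact pow_ne_zero 2 hD0
    apply mul_left_cancel₀ e2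
    linear_combination e1
  have hθ₁' : θ₁ ^ 3 = θ₁ ^ 2 + (k : L) := by
    have hk : (k : L) = θ ^ 3 - θ ^ 2 := by linear_combination -hθ
    have e : θ₁ ^ 2 = (1 - θ) * θ₁ - (θ ^ 2 - θ) := by
      rw [← hprod, ← hsum]; ring
    rw [hk]
    linear_combination (θ₁ - θ) * e
  obtain ⟨σ, hσ⟩ := hlift θ₁ hθ₁'
  have hσS : σ S = S := by rw [hS, AlgHom.commutes]
  have hσ₁ : σ θ₁ = θ₂ := by
    have e0 : 2 * (θ₁ * D) = (1 - θ) * D + S := by
      rw [← hdiff, ← hsum]; ring
    have e1 := congrArg σ e0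
    simp only [map_mul, map_add, map_sub, map_one, map_ofNat, hσS, hσ] at e1
    have hσD : σ D = 3 * θ₁ ^ 2 - 2 * θ₁ := by
      rw [hD]; simp only [map_sub, map_mul, map_pow, map_ofNat, hσ]
    have hσD0 : σ D ≠ 0 := by
      intro h
      apply hD0
      rw [← map_zero σ] at h
      exact σ.toRingHom.injective h
    have h2 : θ₂ = 1 - θ - θ₁ := by linear_combination hsum
    have e : θ₁ ^ 2 = (1 - θ) * θ₁ - (θ ^ 2 - θ) := by
      rw [← hprod, ← hsum]; ring
    have e3 : 2 * (σ D * σ θ₁) = 2 * (σ D * θ₂) := by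
      have e4 : S = D * (θ₁ - θ₂) := hdiff.symm
      rw [e4] at e1
      rw [hσD] at e1 ⊢
      rw [h2, hD] at e1
      rw [h2]
      linear_combination e1 + (3 * θ₁ + 3 * θ - 2) * e
    have e5 : (2 * σ D) ≠ 0 := mul_ne_zero h20 hσD0
    apply mul_left_cancel₀ e5
    linear_combination e3
  have hσ₂ : σ θ₂ = θ := by
    have h2 : θ₂ = 1 - θ - θ₁ := by linear_combination hsum
    rw [h2, map_sub, map_sub, map_one, hσ, hσ₁, h2]
    ring
  have h1 : θ + σ θ + σ (σ θ) = 1 := by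
    rw [hσ, hσ₁]; linear_combination hsum
  have h2 : θ * σ θ + σ θ * σ (σ θ) + σ (σ θ) * θ = 0 := by
    rw [hσ, hσ₁, hprod]; linear_combination θ * hsum
  have h3 : ∀ y, σ (σ (σ y)) = y := by
    intro y
    obtain ⟨p, rfl⟩ := hgen y
    rw [← aeval_algHom_apply, ← aeval_algHom_apply, ← aeval_algHom_apply, hσ, hσ₁, hσ₂]
  have hint : IsIntegral ℤ θ := by
    refine ⟨X ^ 3 - X ^ 2 - C k, by monicity!, ?_⟩
    simp only [eval₂_sub, eval₂_pow, eval₂_X, eval₂_C]
    rw [algebraMap_int_eq, eq_intCast]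
    linear_combination hθ
  exact three_dvd_of_cubic σ h3 (fixed_mem σ k θ hθ h1 h2 hgen) θ hint h1 h2 hunits
    (rank_pos K L hK hL)

theorem aeval_cub {K L : Type*} [Field K] [Field L] [Algebra K L] (k : ℤ) (x : L) :
    aeval x (cub K k) = x ^ 3 - x ^ 2 - (k : L) := by
  simp only [cub, map_sub, map_pow, aeval_X, map_intCast]

/-- the class number of a quadratic field `K` in which the discriminant of `Z³ - Z² - k` is a
square -/
theorem three_dvd_of_disc (K : Type) [Field K] [NumberField K] (hK : Module.finrank ℚ K = 2)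
    (k : ℤ) (hk : ∀ a : ℤ, a ^ 3 - a ^ 2 ≠ k) (s : K)
    (hs0 : s ≠ 0) (hs : s ^ 2 = ((-(k * (27 * k + 4)) : ℤ) : K))
    (hunits : ∀ v : (𝓞 K)ˣ, v ^ 4 = 1) : 3 ∣ classNumber K := by
  have hirr : Fact (Irreducible (cub K k)) := ⟨cub_irreducible K k (no_root K hK k hk)⟩
  have hfin : Module.Finite K (AdjoinRoot (cub K k)) := (cub_monic K k).finite_adjoinRoot
  have hNF : NumberField (AdjoinRoot (cub K k)) := NumberField.of_module_finite K _
  have hroot : ∀ θ' : AdjoinRoot (cub K k), θ' ^ 3 = θ' ^ 2 + ((k : ℤ) : AdjoinRoot (cub K k)) →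
      aeval θ' (cub K k) = 0 := by
    intro θ' h
    rw [aeval_cub]
    linear_combination h
  refine three_dvd_abstract K (AdjoinRoot (cub K k)) hK ?_ k s hs0 hs hunits
    (AdjoinRoot.root (cub K k)) ?_ ?_ ?_
  · rw [(AdjoinRoot.powerBasis' (cub_monic K k)).finrank]
    exact cub_natDegree K k
  · have h : aeval (AdjoinRoot.root (cub K k)) (cub K k) = 0 := by
      rw [AdjoinRoot.aeval_eq, AdjoinRoot.mk_self]
    rw [aeval_cub] at h
    linear_combination h
  · intro θ' h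
    refine ⟨AdjoinRoot.liftAlgHom (cub K k) (Algebra.ofId K _) θ' (hroot θ' h), ?_⟩
    exact AdjoinRoot.liftAlgHom_root (cub K k) (Algebra.ofId K _) θ' (hroot θ' h)
  · intro y
    obtain ⟨p, hp⟩ := AdjoinRoot.mk_surjective y
    exact ⟨p, by rw [AdjoinRoot.aeval_eq, hp]⟩

end Pool.Agent.Lib.MP3650db
end

section

set_option autoImplicit false

/-!
The family `d = -(27 L² m² + n + 1)`, `L = (n + 1)!`, `m` a large prime: all of `d, d + 1, …, d + n`
are `-(27 L² m² + c)` with `1 ≤ c ≤ n + 1`, and `c ∣ L`.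
-/

namespace Pool.Agent.Lib.MP3650db

open NumberField

/-- the degree of a quadratic field -/
theorem finrank_eq_two (K : Type) [Field K] [NumberField K] (x : K) (D : ℤ) (hD : D < 0)
    (hx : x ^ 2 = (D : K)) (hgen : Algebra.adjoin ℚ {x} = ⊤) : Module.finrank ℚ K = 2 := by
  classical
  have h1 : Module.finrank ℚ K ≤ 2 := by
    have hspan : Submodule.span ℚ (({1, x} : Finset K) : Set K) = ⊤ := by
      rw [eq_top_iff]
      intro y _
      obtain ⟨r, s, hy⟩ := exists_repr x D hx hgen y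
      have : y = r • (1 : K) + s • x := by
        rw [hy, Algebra.smul_def, Algebra.smul_def]
        simp
      rw [this]
      refine Submodule.add_mem _ (Submodule.smul_mem _ _ (Submodule.subset_span ?_))
        (Submodule.smul_mem _ _ (Submodule.subset_span ?_)) <;> simp
    have h2 := finrank_span_finset_le_card (R := ℚ) ({1, x} : Finset K)
    rw [Set.finrank, hspan, finrank_top] at h2
    exact h2.trans (Finset.card_le_two)
  have h0 : 0 < Module.finrank ℚ K := Module.finrank_pos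
  have h3 : Module.finrank ℚ K ≠ 1 := by
    intro h
    rw [finrank_eq_one_iff_of_nonzero' (1 : K) one_ne_zero] at h
    obtain ⟨c, hc⟩ := h x
    have hc' : x = (c : K) := by
      rw [← hc, Algebra.smul_def]
      simp
    rw [hc'] at hx
    have : c ^ 2 = (D : ℚ) := by exact_mod_cast hx
    have hD' : (D : ℚ) < 0 := by exact_mod_cast hD
    nlinarith [sq_nonneg c]
  omega

/-- `a³ - a² = K m²` has no solution if `m` is a prime greater than `K + 1` -/
theorem no_int_root (K : ℤ) (m : ℕ) (hm : m.Prime) (hK : 0 < K) (hKm : K + 1 < m) (a : ℤ) :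
    a ^ 3 - a ^ 2 ≠ K * (m : ℤ) ^ 2 := by
  intro h
  have hm0 : (0 : ℤ) < m := by exact_mod_cast hm.pos
  have hprime : Prime (m : ℤ) := Nat.prime_iff_prime_int.1 hm
  have hpos : 0 < a ^ 2 * (a - 1) := by
    have : a ^ 2 * (a - 1) = K * (m : ℤ) ^ 2 := by rw [← h]; ring
    rw [this]; positivity
  have ha : 1 < a := by
    by_contra hcon
    push Not at hcon
    have : a ^ 2 * (a - 1) ≤ 0 := mul_nonpos_of_nonneg_of_nonpos (sq_nonneg a) (by linarith)
    linarith
  have hdvd : (m : ℤ) ^ 2 ∣ a ^ 2 * (a - 1) := ⟨K, by rw [mul_comm _ K, ← h]; ring⟩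
  by_cases hma : (m : ℤ) ∣ a
  · obtain ⟨b, hb⟩ := hma
    have hb1 : 1 ≤ b := by
      by_contra hcon
      push Not at hcon
      have : b ≤ 0 := by linarith
      have : a ≤ 0 := by rw [hb]; exact mul_nonpos_of_nonneg_of_nonpos hm0.le this
      linarith
    have h1 : (m : ℤ) ^ 2 * (b ^ 2 * (m * b - 1)) = (m : ℤ) ^ 2 * K := by
      rw [hb] at h
      linear_combination h
    have h2 : b ^ 2 * (m * b - 1) = K := mul_left_cancel₀ (by positivity) h1
    have h3 : (m : ℤ) ≤ m * b := by nlinarith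
    have h4 : 1 ≤ b ^ 2 := by nlinarith
    nlinarith
  · have hcop : IsCoprime ((m : ℤ) ^ 2) (a ^ 2) := by
      apply IsCoprime.pow
      exact (Prime.coprime_iff_not_dvd hprime).2 hma
    obtain ⟨b, hb⟩ := hcop.dvd_of_dvd_mul_left hdvd
    have hb1 : 1 ≤ b := by
      by_contra hcon
      push Not at hcon
      have : b ≤ 0 := by linarith
      have : a - 1 ≤ 0 := by rw [hb]; exact mul_nonpos_of_nonneg_of_nonpos (by positivity) this
      linarith
    have h1 : (m : ℤ) ^ 2 * (a ^ 2 * b) = (m : ℤ) ^ 2 * K := by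
      have : a ^ 2 * (a - 1) = K * (m : ℤ) ^ 2 := by rw [← h]; ring
      rw [hb] at this
      linear_combination this
    have h2 : a ^ 2 * b = K := mul_left_cancel₀ (by positivity) h1
    have h3 : (m : ℤ) ≤ a := by nlinarith
    have h4 : a ≤ a ^ 2 := by nlinarith
    nlinarith

theorem not_three_sq (A c : ℤ) (hA : 0 < A) (hc : 0 < c) (hcA : c ≤ A) (q : ℚ) :
    ((-(27 * A ^ 2 + c) : ℤ) : ℚ) ≠ -3 * q ^ 2 := by
  intro h
  have h1 : IsSquare ((((9 * A) ^ 2 + 3 * c : ℤ)) : ℚ) := by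
    refine ⟨3 * q, ?_⟩
    push_cast at h ⊢
    linear_combination -3 * h
  rw [Rat.isSquare_intCast_iff] at h1
  obtain ⟨r, hr⟩ := h1
  have h2 : (9 * A) ^ 2 < r ^ 2 := by nlinarith
  have h3 : r ^ 2 < (9 * A + 1) ^ 2 := by nlinarith
  have h4 : 9 * A < |r| := by
    rw [← sq_abs r] at h2
    exact lt_of_pow_lt_pow_left₀ 2 (abs_nonneg r) h2
  have h5 : |r| < 9 * A + 1 := by
    rw [← sq_abs r] at h3
    exact lt_of_pow_lt_pow_left₀ 2 (by positivity) h3
  omega

theorem family_gen (L m c K₀ : ℤ) (hm0 : 0 < m) (hL : 0 < L) (hc : 0 < c)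
    (hcL : c ≤ L) (hK₀ : c * K₀ = 4 * L ^ 2) (hroot : ∀ a : ℤ, a ^ 3 - a ^ 2 ≠ K₀ * m ^ 2)
    (K : Type) [Field K] [NumberField K]
    (hK : ∃ x : K, x ^ 2 = (((-(27 * (L * m) ^ 2 + c)) : ℤ) : K) ∧ Algebra.adjoin ℚ {x} = ⊤) :
    3 ∣ classNumber K := by
  obtain ⟨x, hx, hgen⟩ := hK
  have hneg : (-(27 * (L * m) ^ 2 + c)) < 0 := by nlinarith [sq_nonneg (L * m)]
  have hfin := finrank_eq_two K x _ hneg hx hgen
  have hc0 : (c : K) ≠ 0 := by exact_mod_cast hc.ne'
  have hx0 : x ≠ 0 := by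
    intro h
    rw [h] at hx
    have h1 : (((-(27 * (L * m) ^ 2 + c)) : ℤ) : K) = 0 := by rw [← hx]; ring
    have h2 : (-(27 * (L * m) ^ 2 + c)) = 0 := by exact_mod_cast h1
    omega
  refine three_dvd_of_disc K hfin (K₀ * m ^ 2) ?_ (4 * (L : K) * m / c * x) ?_ ?_ ?_
  · exact hroot
  · have h1 : (L : K) ≠ 0 := by exact_mod_cast hL.ne'
    have h2 : (m : K) ≠ 0 := by exact_mod_cast hm0.ne'
    have h3 : (4 : K) ≠ 0 := by norm_num
    exact mul_ne_zero (div_ne_zero (mul_ne_zero (mul_ne_zero h3 h1) h2) hc0) hx0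
  · have hK₁ : (c : K) * K₀ = 4 * (L : K) ^ 2 := by exact_mod_cast hK₀
    rw [mul_pow, hx, div_pow, div_mul_eq_mul_div, div_eq_iff (pow_ne_zero 2 hc0)]
    push_cast
    linear_combination (4 * m ^ 2 * c + 27 * m ^ 4 * (c * K₀ + 4 * (L : K) ^ 2)) * hK₁
  · intro v
    refine unit_pow_four x _ hneg hx hgen ?_ v
    intro q
    apply not_three_sq (L * m) c (by positivity) hc
    nlinarith

theorem family_three (L m c K₀ : ℤ) (p : ℕ) (hp : p.Prime) (hmp : m = p) (hL : 0 < L) (hc : 0 < c)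
    (hcL : c ≤ L) (hK₀ : c * K₀ = 4 * L ^ 2) (hK₀' : 0 < K₀) (hbig : K₀ + 1 < m)
    (K : Type) [Field K] [NumberField K]
    (hK : ∃ x : K, x ^ 2 = (((-(27 * (L * m) ^ 2 + c)) : ℤ) : K) ∧ Algebra.adjoin ℚ {x} = ⊤) :
    3 ∣ classNumber K := by
  refine family_gen L m c K₀ (by linarith) hL hc hcL hK₀ ?_ K hK
  intro a
  rw [hmp]
  exact no_int_root K₀ p hp hK₀' (by rw [← hmp]; exact hbig) a

theorem infinite_three (n : ℕ) : Set.Infinite {d : ℤ | d + (n : ℤ) < 0 ∧ ∀ i : ℕ, i ≤ n →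
      ∀ (K : Type) [Field K] [NumberField K],
        (∃ x : K, x ^ 2 = (((d + (i : ℤ)) : ℤ) : K) ∧ Algebra.adjoin ℚ {x} = ⊤) →
          3 ∣ NumberField.classNumber K} := by
  apply Set.infinite_of_forall_exists_lt
  intro a
  set L : ℕ := (n + 1).factorial with hLdef
  have hL : 0 < L := Nat.factorial_pos _
  obtain ⟨p, hp1, hp⟩ := Nat.exists_infinite_primes (4 * L ^ 2 + 2 + a.natAbs)
  have hpL : (4 * (L : ℤ) ^ 2 + 2 + |a|) ≤ p := by
    rw [← Int.natCast_natAbs]
    exact_mod_cast hp1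
  have hLz : (0 : ℤ) < L := by exact_mod_cast hL
  have ha0 : 0 ≤ |a| := abs_nonneg a
  refine ⟨-(27 * ((L : ℤ) * p) ^ 2 + (n + 1)), ⟨by nlinarith [sq_nonneg ((L : ℤ) * p)], ?_⟩, ?_⟩
  · intro i hi K _ _ hK
    have hcd : (n + 1 - i) ∣ L := Nat.dvd_factorial (by omega) (by omega)
    obtain ⟨q, hq⟩ := hcd
    have hc : ((n + 1 - i : ℕ) : ℤ) = n + 1 - i := by
      have : i ≤ n + 1 := by omega
      push_cast [this]
      ring
    have hqz : (L : ℤ) = ((n + 1 - i : ℕ) : ℤ) * q := by exact_mod_cast hq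
    have hcpos : (0 : ℤ) < ((n + 1 - i : ℕ) : ℤ) := by
      have : 0 < n + 1 - i := by omega
      exact_mod_cast this
    have hqpos : (0 : ℤ) < q := by
      rcases Nat.eq_zero_or_pos q with h | h
      · rw [h, mul_zero] at hq; omega
      · exact_mod_cast h
    refine family_three (L : ℤ) (p : ℤ) ((n + 1 - i : ℕ) : ℤ) (4 * q * L) p hp rfl hLz hcpos ?_ ?_
      ?_ ?_ K ?_
    · nlinarith
    · rw [hqz]; ring
    · positivity
    · have h1 : (q : ℤ) ≤ L := by nlinarith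
      nlinarith
    · obtain ⟨x, hx, hgen⟩ := hK
      refine ⟨x, ?_, hgen⟩
      rw [hx]
      congr 1
      rw [hc]
      ring
  · have h1 : (p : ℤ) ≤ ((L : ℤ) * p) ^ 2 := by
      have h0 : (1 : ℤ) ≤ p := by nlinarith
      have h1 : (p : ℤ) ≤ (L : ℤ) * p := by nlinarith
      nlinarith
    have h2 : -|a| ≤ a := neg_abs_le a
    nlinarith

end Pool.Agent.Lib.MP3650db
end

section

set_option autoImplicit false

/-!
Genus theory for a power of two: if `r + 1` different primes `> 3` divide `D < 0` exactly once, then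
`2 ^ r` divides the class number of `ℚ(√D)`; and such primes for the numbers `3 * (3 * L * m) ^ 2 + c`,
`1 ≤ c ≤ n + 1`, for all `m` in one residue class.
-/

namespace Pool.Agent.Lib.MP3650db

open NumberField

/-- elements of order two which are independent give a power of two in the group order -/
theorem tp_group {G : Type*} [CommGroup G] [Finite G] (r : ℕ) (c : Fin r → G)
    (h2 : ∀ j, c j * c j = 1) (h1 : ∀ S : Finset (Fin r), S.Nonempty → ∏ j ∈ S, c j ≠ 1) :
    2 ^ r ∣ Nat.card G := by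
  classical
  let f : Finset (Fin r) → G := fun S => ∏ j ∈ S, c j
  have hf : ∀ S : Finset (Fin r), f S = ∏ j, (if j ∈ S then c j else 1) := by
    intro S
    simp only [f]
    rw [Finset.prod_ite_mem, Finset.univ_inter]
  have hmul : ∀ S T : Finset (Fin r), f S * f T = f (symmDiff S T) := by
    intro S T
    rw [hf, hf, hf, ← Finset.prod_mul_distrib]
    refine Finset.prod_congr rfl (fun j _ => ?_)
    by_cases hS : j ∈ S <;> by_cases hT : j ∈ T <;> simp [Finset.mem_symmDiff, hS, hT, h2]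
  have hempty : f ∅ = 1 := by simp [f]
  have hself : ∀ S, f S * f S = 1 := by
    intro S
    rw [hmul, symmDiff_self]
    exact hempty
  have hinj : Function.Injective f := by
    intro S T h
    by_contra hne
    apply h1 (symmDiff S T)
    · rw [Finset.nonempty_iff_ne_empty]
      intro h3
      apply hne
      have h4 : symmDiff S T = ⊥ := h3
      exact symmDiff_eq_bot.1 h4
    · have h5 : f (symmDiff S T) = 1 := by rw [← hmul, h, hself]
      exact h5
  let H : Subgroup G :=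
    { carrier := Set.range f
      mul_mem' := by
        rintro _ _ ⟨S, rfl⟩ ⟨T, rfl⟩
        exact ⟨symmDiff S T, (hmul S T).symm⟩
      one_mem' := ⟨∅, hempty⟩
      inv_mem' := by
        rintro _ ⟨S, rfl⟩
        exact ⟨S, eq_inv_of_mul_eq_one_left (hself S)⟩ }
  have hcard : Nat.card H = 2 ^ r := by
    have h3 : Nat.card H = Nat.card (Finset (Fin r)) :=
      (Nat.card_congr (Equiv.ofInjective f hinj)).symm
    rw [h3, Nat.card_eq_fintype_card, Fintype.card_finset, Fintype.card_fin]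
  rw [← hcard]
  exact Subgroup.card_subgroup_dvd_card H

/-- an integer with a simple prime factor is not the square of a rational number -/
theorem tp_sq_ne (p : ℕ) (hp : p.Prime) (m : ℤ) (h1 : (p : ℤ) ∣ m) (h2 : ¬ (p : ℤ) ^ 2 ∣ m)
    (q : ℚ) : q ^ 2 ≠ (m : ℚ) := by
  intro h
  have hint : IsIntegral ℤ q := by
    refine ⟨Polynomial.X ^ 2 - Polynomial.C m, ?_, ?_⟩
    · exact Polynomial.monic_X_pow_sub_C m (by norm_num)
    · rw [Polynomial.eval₂_sub, Polynomial.eval₂_pow, Polynomial.eval₂_X, Polynomial.eval₂_C, h,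
        algebraMap_int_eq, eq_intCast, sub_self]
  obtain ⟨a, ha⟩ := IsIntegrallyClosed.isIntegral_iff.1 hint
  have ha' : (a : ℚ) = q := by rw [← ha]; simp
  have h3 : a ^ 2 = m := by
    have : ((a ^ 2 : ℤ) : ℚ) = (m : ℚ) := by
      push_cast
      rw [ha', h]
    exact_mod_cast this
  have hpi : Prime (p : ℤ) := Nat.prime_iff_prime_int.1 hp
  have h4 : (p : ℤ) ∣ a := by
    rw [← h3] at h1
    exact hpi.dvd_of_dvd_pow h1
  apply h2
  rw [← h3]
  exact pow_dvd_pow_of_dvd h4 2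

/-- if a prime is simple in `m` and does not divide `c`, it is simple in `c * m` -/
theorem tp_simple_mul (p : ℕ) (hp : p.Prime) (c m : ℤ) (hc : ¬ (p : ℤ) ∣ c) (h1 : (p : ℤ) ∣ m)
    (h2 : ¬ (p : ℤ) ^ 2 ∣ m) : (p : ℤ) ∣ c * m ∧ ¬ (p : ℤ) ^ 2 ∣ c * m := by
  have hpi : Prime (p : ℤ) := Nat.prime_iff_prime_int.1 hp
  refine ⟨h1.mul_left c, fun h => ?_⟩
  apply h2
  have hcop : IsCoprime ((p : ℤ) ^ 2) c := by
    apply IsCoprime.pow_left
    exact (hpi.coprime_iff_not_dvd).2 hc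
  exact hcop.dvd_of_dvd_mul_left h

/-- genus theory: `r + 1` simple prime factors `> 3` give `2 ^ r ∣ h` -/
theorem two_pow_dvd_classNumber (K : Type) [Field K] [NumberField K] (w : K) (D : ℤ) (hD : D < 0)
    (hw : w ^ 2 = (D : K)) (hgen : Algebra.adjoin ℚ {w} = ⊤)
    (r : ℕ) (l : Fin (r + 1) → ℕ) (hl : ∀ j, (l j).Prime) (hinj : Function.Injective l)
    (h3l : ∀ j, 3 < l j)
    (hd : ∀ j, (l j : ℤ) ∣ D) (hd2 : ∀ j, ¬ (l j : ℤ) ^ 2 ∣ D) :
    2 ^ r ∣ classNumber K := by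
  classical
  have hlp : ∀ j, Prime (l j : ℤ) := fun j => Nat.prime_iff_prime_int.1 (hl j)
  have hndvd : ∀ i j, i ≠ j → ¬ (l i : ℤ) ∣ (l j : ℤ) := by
    intro i j hij h
    have h2 : l i ∣ l j := by exact_mod_cast h
    exact hij (hinj ((Nat.prime_dvd_prime_iff_eq (hl i) (hl j)).1 h2))
  have hself : ∀ j, ¬ (l j : ℤ) ^ 2 ∣ (l j : ℤ) := by
    intro j h
    have h3 : (3 : ℤ) < l j := by exact_mod_cast h3l j
    have h2 : (l j : ℤ) ^ 2 ≤ l j := Int.le_of_dvd (by omega) h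
    nlinarith
  -- `w` is not rational
  have hwirr : ∀ q : ℚ, w ≠ (q : K) := by
    intro q hq
    apply tp_sq_ne (l 0) (hl 0) D (hd 0) (hd2 0) q
    have : ((q ^ 2 : ℚ) : K) = ((D : ℚ) : K) := by
      push_cast
      rw [← hq, hw]
    exact_mod_cast this
  -- a rational square of an element of `K`
  have hsq : ∀ (y : K) (x : ℤ), y ^ 2 = (x : K) →
      ∃ q : ℚ, q ^ 2 = (x : ℚ) ∨ (q * D) ^ 2 = ((x * D : ℤ) : ℚ) := by
    intro y x hy
    obtain ⟨a, s, hrs⟩ := exists_repr w D hw hgen y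
    have h1 : ((a ^ 2 + s ^ 2 * D - x : ℚ) : K) + ((2 * a * s : ℚ) : K) * w = 0 := by
      rw [hrs] at hy
      push_cast
      linear_combination hy - (s : K) ^ 2 * hw
    by_cases hrs0 : 2 * a * s = 0
    · rw [hrs0] at h1
      have h2 : a ^ 2 + s ^ 2 * D - x = 0 := by
        have h3 : ((a ^ 2 + s ^ 2 * D - x : ℚ) : K) = 0 := by
          rw [Rat.cast_zero, zero_mul, add_zero] at h1
          exact h1
        exact_mod_cast h3
      rcases mul_eq_zero.1 hrs0 with h | h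
      · have hr : a = 0 := by linarith
        refine ⟨s, Or.inr ?_⟩
        rw [hr] at h2
        push_cast
        linear_combination (D : ℚ) * h2
      · refine ⟨a, Or.inl ?_⟩
        rw [h] at h2
        linarith
    · exfalso
      apply hwirr (-(a ^ 2 + s ^ 2 * D - x) / (2 * a * s))
      have hne : ((2 * a * s : ℚ) : K) ≠ 0 := by exact_mod_cast hrs0
      rw [Rat.cast_div, eq_div_iff hne, Rat.cast_neg]
      linear_combination h1
  have h3 : ∀ q : ℚ, (D : ℚ) ≠ -3 * q ^ 2 := by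
    intro q hq
    have hneg3 : (l 0 : ℤ) ∣ (-3) * D ∧ ¬ (l 0 : ℤ) ^ 2 ∣ (-3) * D := by
      refine tp_simple_mul (l 0) (hl 0) (-3) D ?_ (hd 0) (hd2 0)
      rw [dvd_neg]
      intro h
      have h2 : (l 0 : ℤ) ≤ 3 := Int.le_of_dvd (by norm_num) h
      have h4 := h3l 0
      omega
    apply tp_sq_ne (l 0) (hl 0) _ hneg3.1 hneg3.2 (3 * q)
    push_cast
    linear_combination 3 * hq
  have himp1 : ∀ y : K, y ^ 2 ≠ -1 := by
    intro y hy
    obtain ⟨q, hq | hq⟩ := hsq y (-1) (by rw [hy]; norm_num)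
    · push_cast at hq
      nlinarith [sq_nonneg q]
    · have hneg1 : (l 0 : ℤ) ∣ (-1) * D ∧ ¬ (l 0 : ℤ) ^ 2 ∣ (-1) * D := by
        refine tp_simple_mul (l 0) (hl 0) (-1) D ?_ (hd 0) (hd2 0)
        rw [dvd_neg]
        intro h
        exact (hlp 0).not_isUnit (isUnit_of_dvd_one h)
      exact tp_sq_ne (l 0) (hl 0) _ hneg1.1 hneg1.2 (q * D) hq
  -- the products of the primes in a set
  have himp2 : ∀ (S : Finset (Fin r)), S.Nonempty → ∀ (ε : ℤ), (ε = 1 ∨ ε = -1) → ∀ y : K,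
      y ^ 2 ≠ ((ε * ∏ j ∈ S, (l j.castSucc : ℤ) : ℤ) : K) := by
    intro S hS ε hε y hy
    obtain ⟨j0, hj0⟩ := hS
    have hndS : ∀ i : Fin (r + 1), (∀ j ∈ S, j.castSucc ≠ i) →
        ¬ (l i : ℤ) ∣ ∏ j ∈ S, (l j.castSucc : ℤ) := by
      intro i hi h
      obtain ⟨j, hj, hdj⟩ := ((hlp i).dvd_finsetProd_iff _).1 h
      exact hndvd i j.castSucc (hi j hj).symm hdj
    have hε' : ∀ p : ℤ, Prime p → ¬ p ∣ ε := by
      intro p hp h
      apply hp.not_isUnit
      rcases hε with h1 | h1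
      · rw [h1] at h; exact isUnit_of_dvd_one h
      · rw [h1, dvd_neg] at h; exact isUnit_of_dvd_one h
    obtain ⟨q, hq | hq⟩ := hsq y _ hy
    · have hrest : ¬ (l j0.castSucc : ℤ) ∣ ∏ j ∈ S.erase j0, (l j.castSucc : ℤ) := by
        intro h
        obtain ⟨j, hj, hdj⟩ := ((hlp j0.castSucc).dvd_finsetProd_iff _).1 h
        rw [Finset.mem_erase] at hj
        refine hndvd j0.castSucc j.castSucc (fun h5 => hj.1 ?_) hdj
        exact (Fin.castSucc_injective r h5).symm
      have hc : ¬ (l j0.castSucc : ℤ) ∣ ε * ∏ j ∈ S.erase j0, (l j.castSucc : ℤ) := by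
        intro h
        rcases (hlp j0.castSucc).dvd_or_dvd h with h5 | h5
        · exact hε' _ (hlp _) h5
        · exact hrest h5
      have hs := tp_simple_mul (l j0.castSucc) (hl _) _ (l j0.castSucc : ℤ) hc dvd_rfl (hself _)
      have he : ε * (∏ j ∈ S.erase j0, (l j.castSucc : ℤ)) * (l j0.castSucc : ℤ)
          = ε * ∏ j ∈ S, (l j.castSucc : ℤ) := by
        rw [mul_assoc, Finset.prod_erase_mul _ _ hj0]
      rw [he] at hs
      exact tp_sq_ne (l j0.castSucc) (hl _) _ hs.1 hs.2 q hq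
    · have hc : ¬ (l (Fin.last r) : ℤ) ∣ ε * ∏ j ∈ S, (l j.castSucc : ℤ) := by
        intro h
        rcases (hlp (Fin.last r)).dvd_or_dvd h with h5 | h5
        · exact hε' _ (hlp _) h5
        · exact hndS (Fin.last r) (fun j _ => (Fin.castSucc_lt_last j).ne) h5
      have hs := tp_simple_mul (l (Fin.last r)) (hl _) _ D hc (hd _) (hd2 _)
      exact tp_sq_ne (l (Fin.last r)) (hl _) _ hs.1 hs.2 (q * D) hq
  -- the ideals
  have hint : IsIntegral ℤ w := by
    refine ⟨Polynomial.X ^ 2 - Polynomial.C D, ?_, ?_⟩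
    · exact Polynomial.monic_X_pow_sub_C D (by norm_num)
    · rw [Polynomial.eval₂_sub, Polynomial.eval₂_pow, Polynomial.eval₂_X, Polynomial.eval₂_C, hw,
        algebraMap_int_eq, eq_intCast, sub_self]
  let ω : 𝓞 K := ⟨w, hint⟩
  have hωc : ((ω : 𝓞 K) : K) = w := rfl
  have hω : ω * ω = (D : 𝓞 K) := by
    apply RingOfIntegers.ext
    simp only [map_mul, hωc, map_intCast]
    rw [← hw]; ring
  let A : Fin (r + 1) → Ideal (𝓞 K) := fun j => Ideal.span {(l j : 𝓞 K), ω}
  have hA2 : ∀ j, A j * A j = Ideal.span {(l j : 𝓞 K)} := by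
    intro j
    obtain ⟨D1, hD1⟩ := hd j
    have hcopD : IsCoprime (l j : ℤ) D1 := by
      refine ((hlp j).coprime_iff_not_dvd).2 (fun h => hd2 j ?_)
      obtain ⟨c, hc⟩ := h
      exact ⟨c, by rw [hD1, hc]; ring⟩
    obtain ⟨a, b, hab⟩ := hcopD
    have hlmem : (l j : 𝓞 K) = (a : 𝓞 K) * ((l j : 𝓞 K) * l j) + (b : 𝓞 K) * (ω * ω) := by
      rw [hω, hD1]
      have h1 : ((a * l j + b * D1 : ℤ) : 𝓞 K) = 1 := by rw [hab]; simp
      push_cast at h1 ⊢
      linear_combination (-(l j : 𝓞 K)) * h1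
    apply le_antisymm
    · rw [Ideal.mul_le]
      intro x hx y hy
      simp only [A] at hx hy
      rw [Ideal.mem_span_pair] at hx hy
      obtain ⟨x1, x2, rfl⟩ := hx
      obtain ⟨y1, y2, rfl⟩ := hy
      rw [Ideal.mem_span_singleton]
      refine ⟨x1 * y1 * l j + (x1 * y2 + x2 * y1) * ω + x2 * y2 * D1, ?_⟩
      have hω' := hω
      rw [hD1] at hω'
      push_cast at hω'
      linear_combination (x2 * y2) * hω'
    · rw [Ideal.span_singleton_le_iff_mem, hlmem]
      have hl1 : (l j : 𝓞 K) ∈ A j := Ideal.subset_span (by simp)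
      have hω1 : ω ∈ A j := Ideal.subset_span (by simp)
      exact Ideal.add_mem _ (Ideal.mul_mem_left _ _ (Ideal.mul_mem_mul hl1 hl1))
        (Ideal.mul_mem_left _ _ (Ideal.mul_mem_mul hω1 hω1))
  have hl0 : ∀ j, (l j : 𝓞 K) ≠ 0 := by
    intro j
    exact_mod_cast (hl j).ne_zero
  have hA0 : ∀ j, A j ∈ nonZeroDivisors (Ideal (𝓞 K)) := by
    intro j
    rw [mem_nonZeroDivisors_iff_ne_zero]
    intro h
    have h1 := hA2 j
    rw [h, zero_mul] at h1
    have h2 : Ideal.span {(l j : 𝓞 K)} = ⊥ := h1.symm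
    rw [Ideal.span_singleton_eq_bot] at h2
    exact hl0 j h2
  let c : Fin r → ClassGroup (𝓞 K) := fun j => ClassGroup.mk0 ⟨A j.castSucc, hA0 _⟩
  have hc2 : ∀ j, c j * c j = 1 := by
    intro j
    simp only [c]
    rw [← map_mul, ClassGroup.mk0_eq_one_iff]
    refine ⟨(l j.castSucc : 𝓞 K), ?_⟩
    rw [Submonoid.coe_mul]
    exact hA2 _
  have hc1 : ∀ S : Finset (Fin r), S.Nonempty → ∏ j ∈ S, c j ≠ 1 := by
    intro S hS h
    have hprod : ∏ j ∈ S, c j
        = ClassGroup.mk0 (∏ j ∈ S, (⟨A j.castSucc, hA0 _⟩ : nonZeroDivisors (Ideal (𝓞 K)))) := by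
      rw [map_prod]
    rw [hprod, ClassGroup.mk0_eq_one_iff, Submonoid.coe_finsetProd] at h
    obtain ⟨β, hβ⟩ := h
    have hβ' : Ideal.span {β} = ∏ j ∈ S, A j.castSucc := hβ.symm
    have hsq2 : Ideal.span {β ^ 2} = Ideal.span {∏ j ∈ S, (l j.castSucc : 𝓞 K)} := by
      rw [← Ideal.span_singleton_pow, hβ', pow_two, ← Finset.prod_mul_distrib,
        ← Ideal.prod_span_singleton]
      exact Finset.prod_congr rfl (fun j _ => hA2 _)
    rw [Ideal.span_singleton_eq_span_singleton] at hsq2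
    obtain ⟨u, hu⟩ := hsq2
    have hu4 := unit_pow_four w D hD hw hgen h3 u
    have hu4' : (u : 𝓞 K) ^ 4 = 1 := by
      have := congrArg (fun z : (𝓞 K)ˣ => (z : 𝓞 K)) hu4
      simpa using this
    have hfac : ((u : 𝓞 K) ^ 2 + 1) * (((u : 𝓞 K) - 1) * ((u : 𝓞 K) + 1)) = 0 := by
      linear_combination hu4'
    rcases mul_eq_zero.1 hfac with h | h
    · apply himp1 ((u : 𝓞 K) : K)
      have h5 := congrArg (fun z : 𝓞 K => (z : K)) h
      simp only [map_add, map_pow, map_one, map_zero] at h5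
      linear_combination h5
    · rcases mul_eq_zero.1 h with h | h
      · apply himp2 S hS 1 (Or.inl rfl) ((β : 𝓞 K) : K)
        have hu1 : (u : 𝓞 K) = 1 := by linear_combination h
        rw [hu1, mul_one] at hu
        have h5 := congrArg (fun z : 𝓞 K => (z : K)) hu
        simpa using h5
      · apply himp2 S hS (-1) (Or.inr rfl) ((β : 𝓞 K) : K)
        have hu1 : (u : 𝓞 K) = -1 := by linear_combination h
        rw [hu1] at hu
        have hu' : β ^ 2 = -∏ j ∈ S, (l j.castSucc : 𝓞 K) := by linear_combination -hu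
        have h5 := congrArg (fun z : 𝓞 K => (z : K)) hu'
        simpa using h5
  have hmain := tp_group r c hc2 hc1
  rw [classNumber, ← Nat.card_eq_fintype_card]
  exact hmain

/-- the condition on the prime `l`: all `m` in one class modulo `l ^ 2`, prime to `l`, make `l` a
simple divisor of `3 * (3 * L * m) ^ 2 + c` -/
def TPGood (L c l : ℕ) : Prop :=
  l.Prime ∧ 3 < l ∧ ∃ m0 : ℕ, Nat.Coprime m0 l ∧ ∀ m : ℕ, m ≡ m0 [MOD l ^ 2] →
    (l : ℤ) ∣ (3 * (3 * (L : ℤ) * m) ^ 2 + c) ∧ ¬ (l : ℤ) ^ 2 ∣ (3 * (3 * (L : ℤ) * m) ^ 2 + c)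

theorem tp_exists (L c : ℕ) (hL : 0 < L) (hc : 0 < c) (B : ℕ) : ∃ l : ℕ, B < l ∧ TPGood L c l := by
  set F : ℕ := (B + 3 + 3 * L + c).factorial with hF
  have hF0 : 0 < F := Nat.factorial_pos _
  set Y : ℕ := 27 * L ^ 2 * c * F ^ 2 + 1 with hY
  have hY1 : Y ≠ 1 := by
    have : 0 < 27 * L ^ 2 * c * F ^ 2 := by positivity
    omega
  obtain ⟨l, hl, hlY⟩ := Nat.exists_prime_and_dvd hY1
  have hlF : ¬ l ∣ F := by
    intro h
    have h1 : l ∣ 27 * L ^ 2 * c * F ^ 2 := (h.trans (dvd_pow_self F two_ne_zero)).mul_left _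
    have h2 : l ∣ 1 := (Nat.dvd_add_right h1).1 hlY
    exact hl.one_lt.ne' (Nat.dvd_one.1 h2)
  have hbig : B + 3 + 3 * L + c < l := by
    by_contra h
    exact hlF (Nat.dvd_factorial hl.pos (not_lt.1 h))
  have hlc : ¬ l ∣ c := fun h => by
    have := Nat.le_of_dvd hc h
    omega
  have hlL : ¬ l ∣ L := fun h => by
    have := Nat.le_of_dvd hL h
    omega
  refine ⟨l, by omega, hl, by omega, ?_⟩
  have : Fact l.Prime := ⟨hl⟩
  set a : ℕ := c * F with ha
  have hla : ¬ l ∣ a := by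
    intro h
    rcases hl.dvd_mul.1 h with h | h
    · exact hlc h
    · exact hlF h
  obtain ⟨Y', hY'⟩ := hlY
  -- 27 L^2 a^2 + c = l b with b = c Y'
  set b : ℕ := c * Y' with hb
  have hab : 27 * L ^ 2 * a ^ 2 + c = l * b := by
    have h1 : 27 * L ^ 2 * a ^ 2 + c = c * Y := by rw [hY, ha]; ring
    rw [h1, hY', hb]; ring
  have hne : ((54 * L ^ 2 * a : ℕ) : ZMod l) ≠ 0 := by
    rw [Ne, ZMod.natCast_eq_zero_iff]
    intro h
    rcases hl.dvd_mul.1 h with h | h
    · rcases hl.dvd_mul.1 h with h | h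
      · have h54 : l ∣ 2 * 3 ^ 3 := by norm_num; exact h
        rcases hl.dvd_mul.1 h54 with h | h
        · have := Nat.le_of_dvd (by norm_num) h
          omega
        · have := Nat.le_of_dvd (by norm_num) (hl.dvd_of_dvd_pow h)
          omega
      · exact hlL (hl.dvd_of_dvd_pow h)
    · exact hla h
  obtain ⟨x, hx⟩ : ∃ x : ℕ, (x : ZMod l) = (1 - (b : ZMod l)) * ((54 * L ^ 2 * a : ℕ) : ZMod l)⁻¹ :=
    ⟨_, ZMod.natCast_zmod_val _⟩
  have hxeq : ((b + 54 * L ^ 2 * a * x : ℕ) : ZMod l) = ((1 : ℕ) : ZMod l) := by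
    have h1 : ((54 * L ^ 2 * a : ℕ) : ZMod l) * x = 1 - b := by
      rw [hx, mul_comm, mul_assoc, inv_mul_cancel₀ hne, mul_one]
    have h2 : ((b + 54 * L ^ 2 * a * x : ℕ) : ZMod l)
        = (b : ZMod l) + ((54 * L ^ 2 * a : ℕ) : ZMod l) * x := by push_cast; ring
    rw [h2, h1, Nat.cast_one]
    ring
  have hxmod : ((1 : ℕ) : ℤ) ≡ ((b + 54 * L ^ 2 * a * x : ℕ) : ℤ) [ZMOD l] := by
    have := (ZMod.natCast_eq_natCast_iff _ _ _).1 hxeq
    exact (Int.natCast_modEq_iff.2 this).symm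
  obtain ⟨z, hz⟩ := hxmod.dvd
  refine ⟨a + l * x, ?_, ?_⟩
  · rw [Nat.coprime_comm, Nat.Prime.coprime_iff_not_dvd hl]
    intro h
    exact hla ((Nat.dvd_add_left (dvd_mul_right l x)).1 h)
  · intro m hm
    obtain ⟨y, hy⟩ := (Nat.modEq_iff_dvd.1 hm)
    have hm' : (m : ℤ) = (a : ℤ) + l * x - l ^ 2 * y := by
      push_cast at hy
      linarith
    have hab' : 27 * (L : ℤ) ^ 2 * a ^ 2 + c = l * b := by exact_mod_cast hab
    have hz' : (b : ℤ) + 54 * L ^ 2 * a * x = 1 + l * z := by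
      push_cast at hz
      linarith
    have hmain : 3 * (3 * (L : ℤ) * m) ^ 2 + c = (l : ℤ) + (l : ℤ) ^ 2 *
        (z + 27 * L ^ 2 * x ^ 2 - 54 * L ^ 2 * (a + l * x) * y + 27 * L ^ 2 * l ^ 2 * y ^ 2) := by
      rw [hm']
      linear_combination hab' + (l : ℤ) * hz'
    rw [hmain]
    constructor
    · exact Dvd.intro (1 + (l : ℤ) *
        (z + 27 * L ^ 2 * x ^ 2 - 54 * L ^ 2 * (a + l * x) * y + 27 * L ^ 2 * l ^ 2 * y ^ 2)) (by ring)
    · intro h
      have h5 : ((l : ℕ) : ℤ) ^ 2 ∣ (l : ℤ) := (Int.dvd_add_left (dvd_mul_right _ _)).1 h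
      have h0 : (0 : ℤ) < l := by exact_mod_cast hl.pos
      have h6 : ((l : ℕ) : ℤ) ^ 2 ≤ l := Int.le_of_dvd h0 h5
      have h7 : (3 : ℤ) < l := by exact_mod_cast (by omega : 3 < l)
      nlinarith

/-- increasing choices -/
theorem tp_seq (P : ℕ → ℕ → Prop) (h : ∀ k B : ℕ, ∃ l : ℕ, B < l ∧ P k l) :
    ∃ l : ℕ → ℕ, StrictMono l ∧ ∀ k, P k (l k) := by
  choose g hg1 hg2 using h
  let l : ℕ → ℕ := fun k => Nat.rec (g 0 0) (fun j lj => g (j + 1) lj) k
  refine ⟨l, strictMono_nat_of_lt_succ (fun k => ?_), fun k => ?_⟩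
  · exact hg1 (k + 1) (l k)
  · cases k with
    | zero => exact hg2 0 0
    | succ k => exact hg2 (k + 1) (l k)

/-- For all `m` in a residue class, prime to the modulus, the class numbers of all fields
`ℚ(√-(3 T ^ 2 + c))`, `T = 3 L m`, `1 ≤ c ≤ n + 1`, are divisible by `2 ^ t`. -/
theorem two_pow_class (n t L : ℕ) (hL : 0 < L) : ∃ Q m0 : ℕ, 0 < Q ∧ Nat.Coprime m0 Q ∧
    ∀ m : ℕ, m ≡ m0 [MOD Q] → ∀ c : ℕ, 1 ≤ c → c ≤ n + 1 →
      ∀ (K : Type) [Field K] [NumberField K],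
        (∃ x : K, x ^ 2 = ((-(3 * (3 * (L : ℤ) * m) ^ 2 + c) : ℤ) : K) ∧
          Algebra.adjoin ℚ {x} = ⊤) → 2 ^ t ∣ classNumber K := by
  classical
  obtain ⟨l, hmono, hgood⟩ := tp_seq (fun k l => TPGood L (k / (t + 1) + 1) l)
    (fun k B => tp_exists L _ hL (Nat.succ_pos _) B)
  have hprime : ∀ k, (l k).Prime := fun k => (hgood k).1
  have h3l : ∀ k, 3 < l k := fun k => (hgood k).2.1
  choose r hr1 hr2 using fun k => (hgood k).2.2
  have hpp : Set.Pairwise ((Finset.range ((n + 1) * (t + 1)) : Finset ℕ) : Set ℕ)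
      (Function.onFun Nat.Coprime (fun j => l j ^ 2)) := by
    intro i _ j _ hij
    simp only [Function.onFun]
    apply Nat.Coprime.pow
    rw [Nat.coprime_primes (hprime i) (hprime j)]
    intro h
    exact hij (hmono.injective h)
  obtain ⟨m0, hm0⟩ := Nat.chineseRemainderOfFinset r (fun j => l j ^ 2)
    (Finset.range ((n + 1) * (t + 1))) (fun j _ => pow_ne_zero 2 (hprime j).ne_zero) hpp
  refine ⟨∏ j ∈ Finset.range ((n + 1) * (t + 1)), l j ^ 2, m0,
    Finset.prod_pos (fun j _ => pow_pos (hprime j).pos 2), ?_, ?_⟩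
  · apply Nat.Coprime.prod_right
    intro j hj
    apply Nat.Coprime.pow_right
    have h1 : m0 ≡ r j [MOD l j] := (hm0 j hj).of_dvd (dvd_pow_self _ two_ne_zero)
    unfold Nat.Coprime
    rw [h1.gcd_eq]
    exact hr1 j
  · intro m hm c hc1 hc2 K _ _ hx
    obtain ⟨x, hx2, hgen⟩ := hx
    have hidx : ∀ j : Fin (t + 1), (c - 1) * (t + 1) + (j : ℕ) < (n + 1) * (t + 1) := by
      intro j
      have h1 : (c - 1) * (t + 1) ≤ n * (t + 1) := Nat.mul_le_mul_right _ (by omega)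
      have h2 : (n + 1) * (t + 1) = n * (t + 1) + (t + 1) := by ring
      have := j.2
      omega
    have hdiv : ∀ j : Fin (t + 1), ((c - 1) * (t + 1) + (j : ℕ)) / (t + 1) + 1 = c := by
      intro j
      rw [mul_comm, Nat.mul_add_div (Nat.succ_pos t), Nat.div_eq_of_lt j.2]
      omega
    have hs : ∀ j : Fin (t + 1),
        ((l ((c - 1) * (t + 1) + (j : ℕ)) : ℕ) : ℤ) ∣ (3 * (3 * (L : ℤ) * m) ^ 2 + c) ∧
        ¬ ((l ((c - 1) * (t + 1) + (j : ℕ)) : ℕ) : ℤ) ^ 2 ∣ (3 * (3 * (L : ℤ) * m) ^ 2 + c) := by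
      intro j
      have h1 : m ≡ r ((c - 1) * (t + 1) + (j : ℕ)) [MOD l ((c - 1) * (t + 1) + (j : ℕ)) ^ 2] := by
        refine (hm.of_dvd ?_).trans (hm0 _ (Finset.mem_range.2 (hidx j)))
        exact Finset.dvd_prod_of_mem (fun j => l j ^ 2) (Finset.mem_range.2 (hidx j))
      have h2 := hr2 _ m h1
      rw [hdiv j] at h2
      exact h2
    have hneg : -(3 * (3 * (L : ℤ) * m) ^ 2 + c) < 0 := by
      have h1 : (1 : ℤ) ≤ c := by exact_mod_cast hc1
      have h2 : 0 ≤ (3 * (L : ℤ) * m) ^ 2 := sq_nonneg _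
      linarith
    refine two_pow_dvd_classNumber K x _ hneg hx2 hgen t
      (fun j => l ((c - 1) * (t + 1) + (j : ℕ))) (fun j => hprime _) ?_ (fun j => h3l _)
      (fun j => ?_) (fun j => ?_)
    · intro i j hij
      have h1 := hmono.injective hij
      apply Fin.ext
      omega
    · rw [dvd_neg]
      exact (hs j).1
    · rw [dvd_neg]
      exact (hs j).2

end Pool.Agent.Lib.MP3650db
end
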