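import Pool.Agent.Lib.MP_3650db_nt.Core

section

set_option autoImplicit false

/-!
Class number criterion for a prime `p ≥ 5`: if `K = ℚ(√D)` is imaginary quadratic with class number prime
to `p` and `X ^ 2 - D * Y ^ 2 = 4 * B ^ p` with `X`, `B` coprime, then `(X + Y √D) / 2` is a `p`-th power
of an algebraic integer of `K`.
-/

namespace Pool.Agent.Lib.MP3650db.N2

open NumberField ComplexConjugate Pool.Agent.Lib.MP3650db

section Aux

variable {K : Type} [Field K] [NumberField K]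

/-- units of an imaginary quadratic field are `p`-th powers for a prime `p ≥ 5` -/
theorem unit_pow (x : K) (D : ℤ) (hD : D < 0) (hx : x ^ 2 = (D : K))
    (hgen : Algebra.adjoin ℚ {x} = ⊤) (p : ℕ) (hp : p.Prime) (hp5 : 5 ≤ p) (u : (𝓞 K)ˣ) :
    ∃ e : 𝓞 K, (u : 𝓞 K) = e ^ p := by
  obtain ⟨φ⟩ : Nonempty (K →+* ℂ) := inferInstance
  obtain ⟨⟨t, ht⟩, ⟨b, hb⟩⟩ := trace_norm_int φ x D hD hx hgen (u : 𝓞 K)
  obtain ⟨-, ⟨b', hb'⟩⟩ := trace_norm_int φ x D hD hx hgen ((u⁻¹ : (𝓞 K)ˣ) : 𝓞 K)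
  have huu : φ ((u : 𝓞 K) : K) * φ (((u⁻¹ : (𝓞 K)ˣ) : 𝓞 K) : K) = 1 := by
    rw [← map_mul, ← map_mul]
    simp
  have hbb : b * b' = 1 := by
    have : ((b * b' : ℤ) : ℂ) = 1 := by
      push_cast
      rw [← hb, ← hb']
      have h := congrArg (fun z => z * conj z) huu
      simp only [map_mul, map_one, mul_one] at h
      linear_combination h
    exact_mod_cast this
  have hbnn : 0 ≤ b := by
    have h1 : ((Complex.normSq (φ ((u : 𝓞 K) : K)) : ℝ) : ℂ) = (b : ℂ) := by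
      rw [← hb, Complex.mul_conj]
    have h2 : Complex.normSq (φ ((u : 𝓞 K) : K)) = (b : ℝ) := by exact_mod_cast h1
    have h3 := Complex.normSq_nonneg (φ ((u : 𝓞 K) : K))
    rw [h2] at h3
    exact_mod_cast h3
  have hb1 : b = 1 := by
    rcases Int.eq_one_or_neg_one_of_mul_eq_one hbb with h | h
    · exact h
    · omega
  subst hb1
  set z : ℂ := φ ((u : 𝓞 K) : K) with hz
  have hquad : z ^ 2 - t * z + 1 = 0 := by
    have h1 : z * conj z = 1 := by rw [hb]; simp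
    linear_combination z * ht - h1
  have ht2 : t ^ 2 ≤ 4 := by
    have hre : 2 * z.re = t := by
      have := congrArg Complex.re ht
      simp at this
      linarith
    have hns : z.re ^ 2 + z.im ^ 2 = 1 := by
      have h1 : ((Complex.normSq z : ℝ) : ℂ) = 1 := by
        rw [← Complex.mul_conj, hb]; simp
      have h2 : Complex.normSq z = 1 := by exact_mod_cast h1
      rw [Complex.normSq_apply] at h2
      nlinarith
    have : (t : ℝ) ^ 2 ≤ 4 := by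
      rw [← hre]; nlinarith [sq_nonneg z.im]
    exact_mod_cast this
  have ht3 : -2 ≤ t ∧ t ≤ 2 := by
    constructor <;> nlinarith
  have hinj : Function.Injective φ := φ.injective
  have hK : ((u : 𝓞 K) : K) ^ 2 - t * ((u : 𝓞 K) : K) + 1 = 0 := by
    apply hinj
    simpa using hquad
  have hO : (u : 𝓞 K) ^ 2 - t * (u : 𝓞 K) + 1 = 0 := by
    apply RingOfIntegers.ext
    simpa using hK
  obtain ⟨ht4, ht5⟩ := ht3
  have h12 : (u : 𝓞 K) ^ 12 = 1 := by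
    interval_cases t
    · have h1 : ((u : 𝓞 K) + 1) ^ 2 = 0 := by
        push_cast at hO
        linear_combination hO
      have h2 : (u : 𝓞 K) = -1 := by
        have h3 : (u : 𝓞 K) + 1 = 0 := by simpa using h1
        linear_combination h3
      rw [h2]; norm_num
    · push_cast at hO
      have h3 : (u : 𝓞 K) ^ 3 = 1 := by linear_combination ((u : 𝓞 K) - 1) * hO
      calc (u : 𝓞 K) ^ 12 = ((u : 𝓞 K) ^ 3) ^ 4 := by ring
        _ = 1 := by rw [h3]; ring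
    · push_cast at hO
      have h3 : (u : 𝓞 K) ^ 2 = -1 := by linear_combination hO
      calc (u : 𝓞 K) ^ 12 = ((u : 𝓞 K) ^ 2) ^ 6 := by ring
        _ = 1 := by rw [h3]; ring
    · push_cast at hO
      have h3 : (u : 𝓞 K) ^ 3 = -1 := by linear_combination ((u : 𝓞 K) + 1) * hO
      calc (u : 𝓞 K) ^ 12 = ((u : 𝓞 K) ^ 3) ^ 4 := by ring
        _ = 1 := by rw [h3]; ring
    · have h1 : ((u : 𝓞 K) - 1) ^ 2 = 0 := by
        push_cast at hO
        linear_combination hO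
      have h2 : (u : 𝓞 K) = 1 := by
        have h3 : (u : 𝓞 K) - 1 = 0 := by simpa using h1
        linear_combination h3
      rw [h2]; norm_num
  -- `j * p = 1 + 12 * i`
  have hcop : Nat.Coprime p 12 := by
    rw [Nat.Prime.coprime_iff_not_dvd hp]
    intro h
    have h1 : p ∣ 2 ^ 2 * 3 := by simpa using h
    rcases (Nat.Prime.dvd_mul hp).1 h1 with h2 | h2
    · have := Nat.le_of_dvd (by norm_num) (hp.dvd_of_dvd_pow h2)
      omega
    · have := Nat.le_of_dvd (by norm_num) h2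
      omega
  obtain ⟨j, hj⟩ := Nat.exists_mul_mod_eq_one_of_coprime hcop (by norm_num)
  refine ⟨(u : 𝓞 K) ^ j, ?_⟩
  have h5 : p * j = 12 * (p * j / 12) + 1 := by
    have := Nat.div_add_mod (p * j) 12
    omega
  rw [← pow_mul, mul_comm j p, h5, pow_succ, pow_mul, h12, one_pow, one_mul]

end Aux

/-- The criterion. -/
theorem crit (K : Type) [Field K] [NumberField K] (x : K) (D : ℤ) (hD : D < 0)
    (hx : x ^ 2 = (D : K)) (htop : Algebra.adjoin ℚ {x} = ⊤) (p : ℕ) (hp : p.Prime) (hp5 : 5 ≤ p)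
    (X Y B : ℤ) (hN : X ^ 2 - D * Y ^ 2 = 4 * B ^ p) (hc : IsCoprime X B)
    (hh : ¬ p ∣ NumberField.classNumber K) :
    ∃ (α : ℂ) (a : ℤ), 2 * α.re = a ∧ Complex.normSq α = B ∧ 2 * (α ^ p).re = X := by
  classical
  obtain ⟨φ⟩ : Nonempty (K →+* ℂ) := inferInstance
  have hNK : (X : K) ^ 2 - D * (Y : K) ^ 2 = 4 * (B : K) ^ p := by exact_mod_cast congrArg (Int.cast : ℤ → K) hN
  have hint : ∀ v : K, v ^ 2 = (D : K) → IsIntegral ℤ ((X + Y * v) / 2 : K) := by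
    intro v hv
    refine ⟨Polynomial.X ^ 2 - Polynomial.C X * Polynomial.X + Polynomial.C (B ^ p), ?_, ?_⟩
    · monicity!
    · simp only [Polynomial.eval₂_add, Polynomial.eval₂_sub, Polynomial.eval₂_mul,
        Polynomial.eval₂_pow, Polynomial.eval₂_X, Polynomial.eval₂_C]
      simp only [algebraMap_int_eq, eq_intCast, Int.cast_pow]
      linear_combination ((Y : K) ^ 2 / 4) * hv - (1 / 4 : K) * hNK
  let α : 𝓞 K := ⟨(X + Y * x) / 2, hint x hx⟩
  let α' : 𝓞 K := ⟨(X + Y * (-x)) / 2, hint (-x) (by rw [neg_sq, hx])⟩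
  have hαc : ((α : 𝓞 K) : K) = (X + Y * x) / 2 := rfl
  have hα'c : ((α' : 𝓞 K) : K) = (X + Y * (-x)) / 2 := rfl
  have hsum : α + α' = (X : 𝓞 K) := by
    apply RingOfIntegers.ext
    simp only [map_add, hαc, hα'c, map_intCast]
    ring
  have hprod : α * α' = (B : 𝓞 K) ^ p := by
    apply RingOfIntegers.ext
    simp only [map_mul, map_pow, hαc, hα'c, map_intCast]
    linear_combination (-(Y : K) ^ 2 / 4 : K) * hx + (1 / 4 : K) * hNK
  have hcopE : IsCoprime α α' := by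
    obtain ⟨r, q, hrq⟩ := (hc.pow_right : IsCoprime X (B ^ p))
    have h1 : (r : 𝓞 K) * (α + α') + (q : 𝓞 K) * (α * α') = 1 := by
      rw [hsum, hprod]
      exact_mod_cast congrArg (Int.cast : ℤ → 𝓞 K) hrq
    exact ⟨(r : 𝓞 K) + q * α', r, by linear_combination h1⟩
  have hcopI : IsCoprime (Ideal.span {α}) (Ideal.span {α'}) := by
    rw [Ideal.isCoprime_span_singleton_iff]
    exact hcopE
  have hprodI : Ideal.span {α} * Ideal.span {α'} = (Ideal.span {(B : 𝓞 K)}) ^ p := by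
    rw [Ideal.span_singleton_mul_span_singleton, Ideal.span_singleton_pow, hprod]
  obtain ⟨I, hI⟩ := exists_eq_pow_of_mul_eq_pow_of_coprime hcopI hprodI
  have hcard : Nat.Coprime p (Fintype.card (ClassGroup (𝓞 K))) :=
    (Nat.Prime.coprime_iff_not_dvd hp).2 hh
  have hIp : I.IsPrincipal := by
    apply Ideal.IsPrincipal.of_isPrincipal_pow_of_coprime hcard
    rw [← hI]
    exact ⟨α, rfl⟩
  obtain ⟨β, hβ⟩ := hIp
  have hassoc : Associated (β ^ p) α := by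
    rw [← Ideal.span_singleton_eq_span_singleton, ← Ideal.span_singleton_pow, hI, hβ]
  obtain ⟨u, hu⟩ := hassoc
  obtain ⟨e, he⟩ := unit_pow x D hD hx htop p hp hp5 u
  have hγ : α = (β * e) ^ p := by
    rw [← hu, he]; ring
  set γ : 𝓞 K := β * e with hγdef
  obtain ⟨⟨a, ha⟩, ⟨b, hb⟩⟩ := trace_norm_int φ x D hD hx htop γ
  have hW : (φ x) ^ 2 = (D : ℂ) := by rw [← map_pow, hx, map_intCast]
  have hcj := conj_eq_neg (φ x) D hD hW
  have hNC : (X : ℂ) ^ 2 - D * (Y : ℂ) ^ 2 = 4 * (B : ℂ) ^ p := by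
    exact_mod_cast congrArg (Int.cast : ℤ → ℂ) hN
  have hφα : φ ((α : 𝓞 K) : K) = (X + Y * φ x) / 2 := by
    rw [hαc, map_div₀, map_add, map_mul, map_intCast, map_intCast, map_ofNat]
  have hcφα : conj (φ ((α : 𝓞 K) : K)) = (X - Y * φ x) / 2 := by
    rw [hφα, map_div₀, map_add, map_mul, map_intCast, map_intCast, map_ofNat, hcj]; ring
  have hγ3 : φ ((α : 𝓞 K) : K) = (φ ((γ : 𝓞 K) : K)) ^ p := by
    rw [hγ]; simp
  have hcγ3 : conj (φ ((α : 𝓞 K) : K)) = (conj (φ ((γ : 𝓞 K) : K))) ^ p := by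
    rw [hγ3]; simp
  have hbp : b ^ p = B ^ p := by
    have h1 : ((b ^ p : ℤ) : ℂ) = ((B ^ p : ℤ) : ℂ) := by
      push_cast
      rw [← hb, mul_pow, ← hγ3, ← hcγ3, hcφα, hφα]
      linear_combination (-(Y : ℂ) ^ 2 / 4 : ℂ) * hW + (1 / 4 : ℂ) * hNC
    exact_mod_cast h1
  have hodd : Odd p := hp.odd_of_ne_two (by omega)
  have hbB : b = B := (hodd.strictMono_pow).injective hbp
  refine ⟨φ ((γ : 𝓞 K) : K), a, ?_, ?_, ?_⟩
  · have := congrArg Complex.re ha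
    simp at this
    linarith
  · have h1 : ((Complex.normSq (φ ((γ : 𝓞 K) : K)) : ℝ) : ℂ) = (B : ℂ) := by
      rw [← Complex.mul_conj, hb, hbB]
    exact_mod_cast h1
  · rw [← hγ3]
    have h2 : (X : ℂ) = φ ((α : 𝓞 K) : K) + conj (φ ((α : 𝓞 K) : K)) := by
      rw [hcφα, hφα]; ring
    have := congrArg Complex.re h2
    simp at this
    linarith

end Pool.Agent.Lib.MP3650db.N2
end

section

set_option autoImplicit false

/-! BASE: a Pythagorean triple `w² + v² = z²` with `p ∣ h(ℚ(√(w² - v²)))` and `w` a `p`-th power modulo `v`. -/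

namespace Pool.Agent.Lib.MP3650db.N2

/-- the sequence `2 Re (α ^ n)` for `2 Re α = a`, `|α|² = B` -/
def VS (a B : ℤ) : ℕ → ℤ
  | 0 => 2
  | 1 => a
  | (n + 2) => a * VS a B (n + 1) - B * VS a B n

lemma VS_step (a B : ℤ) (n : ℕ) : VS a B (n + 2) = a * VS a B (n + 1) - B * VS a B n := rfl

lemma sq_of_tr (α : ℂ) (a B : ℤ) (ha : 2 * α.re = a) (hB : Complex.normSq α = B) : α ^ 2 = a * α - B := by
  have h1 : (a : ℝ) = 2 * α.re := ha.symm
  have h2 : (B : ℝ) = α.re * α.re + α.im * α.im := by rw [← hB, Complex.normSq_apply]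
  apply Complex.ext
  · have e : (((a : ℂ)) * α - (B : ℂ)).re = a * α.re - B := by simp
    rw [e, h1, h2, pow_two, Complex.mul_re]
    ring
  · have e : (((a : ℂ)) * α - (B : ℂ)).im = a * α.im := by simp
    rw [e, h1, pow_two, Complex.mul_im]
    ring

lemma VS_eq (α : ℂ) (a B : ℤ) (ha : 2 * α.re = a) (hB : Complex.normSq α = B) (n : ℕ) :
    (VS a B n : ℝ) = 2 * (α ^ n).re := by
  induction n using Nat.twoStepInduction with
  | zero => simp [VS]
  | one => simp [VS, ha]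
  | more n h1 h2 =>
    have h3 : α ^ (n + 2) = a * α ^ (n + 1) - B * α ^ n := by
      have := sq_of_tr α a B ha hB
      calc α ^ (n + 2) = α ^ n * α ^ 2 := by ring
        _ = α ^ n * (a * α - B) := by rw [this]
        _ = _ := by ring
    have e : (((a : ℂ)) * α ^ (n + 1) - (B : ℂ) * α ^ n).re = a * (α ^ (n + 1)).re - B * (α ^ n).re := by simp
    rw [VS_step, h3, e]
    push_cast
    rw [h1, h2]
    ring

lemma VS_mod (a B : ℤ) (n : ℕ) : VS a B (n + 1) ≡ a ^ (n + 1) [ZMOD B] := by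
  induction n with
  | zero => simp [VS]
  | succ n ih =>
    rw [VS_step]
    have h1 : a * VS a B (n + 1) - B * VS a B n ≡ a * VS a B (n + 1) [ZMOD B] := by
      apply Int.ModEq.symm
      rw [Int.modEq_iff_dvd]
      exact ⟨-VS a B n, by ring⟩
    refine h1.trans ?_
    rw [pow_succ' a (n + 1)]
    exact ih.mul_left a

/-- the comparison sequence -/
def ES (ρ σ : ℤ) (n : ℕ) : ℤ := ρ ^ n + (-σ) ^ n

lemma ES_step (ρ σ : ℤ) (n : ℕ) : ES ρ σ (n + 2) = (ρ - σ) * ES ρ σ (n + 1) + (ρ * σ) * ES ρ σ n := by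
  unfold ES
  ring

lemma VS_lt (ρ σ : ℤ) (h1 : 0 < σ) (h2 : σ < ρ) (n : ℕ) :
    |VS (ρ - σ) (ρ * σ) (n + 2)| < ES ρ σ (n + 2) ∧ |VS (ρ - σ) (ρ * σ) (n + 3)| < ES ρ σ (n + 3) := by
  have ha : 0 < ρ - σ := by linarith
  have hB : 0 < ρ * σ := mul_pos (by linarith) h1
  have b0 : |VS (ρ - σ) (ρ * σ) 2| < ES ρ σ 2 := by
    have e1 : VS (ρ - σ) (ρ * σ) 2 = (ρ - σ) * (ρ - σ) - (ρ * σ) * 2 := rfl
    have e2 : ES ρ σ 2 = (ρ - σ) * (ρ - σ) + (ρ * σ) * 2 := by unfold ES; ring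
    rw [e1, e2, abs_lt]
    constructor
    · have := mul_pos ha ha
      linarith
    · linarith
  induction n with
  | zero =>
    refine ⟨b0, ?_⟩
    have e1 : VS (ρ - σ) (ρ * σ) 3 = (ρ - σ) * VS (ρ - σ) (ρ * σ) 2 - (ρ * σ) * (ρ - σ) := rfl
    have e2 : ES ρ σ 3 = (ρ - σ) * ES ρ σ 2 + (ρ * σ) * (ρ - σ) := by
      unfold ES
      ring
    show |VS (ρ - σ) (ρ * σ) 3| < ES ρ σ 3
    rw [e1, e2]
    rw [abs_lt] at b0 ⊢
    have h3 := mul_pos hB ha
    constructor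
    · nlinarith
    · nlinarith
  | succ n ih =>
    obtain ⟨ih1, ih2⟩ := ih
    refine ⟨ih2, ?_⟩
    have e1 : VS (ρ - σ) (ρ * σ) (n + 2 + 2) = _ := VS_step (ρ - σ) (ρ * σ) (n + 2)
    have e2 : ES ρ σ (n + 2 + 2) = _ := ES_step ρ σ (n + 2)
    show |VS (ρ - σ) (ρ * σ) (n + 2 + 2)| < ES ρ σ (n + 2 + 2)
    rw [e1, e2]
    have ih2' : |VS (ρ - σ) (ρ * σ) (n + 2 + 1)| < ES ρ σ (n + 2 + 1) := ih2
    rw [abs_lt] at ih1 ih2' ⊢
    constructor
    · nlinarith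
    · nlinarith

/-- the power map is injective on units modulo `m` -/
lemma pow_inj_mod (m p : ℕ) (hm : 0 < m) (hcop : Nat.Coprime (Nat.totient m) p) (a b : ℤ)
    (hb : IsCoprime b (m : ℤ)) (hp : 0 < p) (h : a ^ p ≡ b ^ p [ZMOD m]) : a ≡ b [ZMOD m] := by
  have : NeZero m := ⟨hm.ne'⟩
  have h1 : ((a : ZMod m)) ^ p = (b : ZMod m) ^ p := by
    have := (ZMod.intCast_eq_intCast_iff (a ^ p) (b ^ p) m).mpr h
    push_cast at this
    exact this
  have hub : IsUnit (b : ZMod m) := by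
    obtain ⟨u, v, huv⟩ := hb
    apply IsUnit.of_mul_eq_one (u : ZMod m)
    have := congrArg (fun z : ℤ => (z : ZMod m)) huv
    push_cast at this
    rw [ZMod.natCast_self, mul_zero, add_zero] at this
    rw [mul_comm]
    exact this
  have hua : IsUnit (a : ZMod m) := by
    have : IsUnit ((a : ZMod m) ^ p) := by rw [h1]; exact hub.pow p
    exact (isUnit_pow_iff hp.ne').mp this
  obtain ⟨ua, hua⟩ := hua
  obtain ⟨ub, hub⟩ := hub
  have hcard : (Nat.card (ZMod m)ˣ).Coprime p := by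
    rw [Nat.card_eq_fintype_card, ZMod.card_units_eq_totient]
    exact hcop
  have h2 : ua ^ p = ub ^ p := by
    apply Units.ext
    push_cast
    rw [hua, hub, h1]
  have h3 : ua = ub := (Nat.Coprime.pow_left_bijective hcard).injective h2
  rw [← ZMod.intCast_eq_intCast_iff, ← hua, ← hub, h3]

/-- the key arithmetic: with `q = r - 1`, the element of trace `a`, norm `(r q)²` cannot have `p`-th power of trace
`(r²)^p - (q²)^p` -/
lemma base_key (p : ℕ) (hp : p.Prime) (hp5 : 5 ≤ p) (r : ℕ) (hr : r.Prime) (hr2 : p < r) (hrp : (r : ZMod p) = 2)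
    (α : ℂ) (a : ℤ) (ha : 2 * α.re = a) (hB : Complex.normSq α = ((((r : ℤ) * (r - 1)) ^ 2 : ℤ) : ℝ))
    (hV : 2 * (α ^ p).re = (((((r : ℤ) ^ p) ^ 2 - (((r : ℤ) - 1) ^ p) ^ 2 : ℤ)) : ℝ)) : False := by
  obtain ⟨R, hR⟩ : ∃ R : ℤ, R = (r : ℤ) := ⟨_, rfl⟩
  rw [← hR] at hB hV
  have hR6 : 6 ≤ R := by rw [hR]; exact_mod_cast (by omega : 6 ≤ r)
  have hodd : Odd R := by
    rw [hR]
    exact_mod_cast hr.odd_of_ne_two (by omega)
  have hpodd : Odd p := hp.odd_of_ne_two (by omega)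
  obtain ⟨B, hBd⟩ : ∃ B : ℤ, B = (R * (R - 1)) ^ 2 := ⟨_, rfl⟩
  rw [← hBd] at hB
  have hVS := VS_eq α a B ha hB p
  rw [hV] at hVS
  have hVS' : VS a B p = (R ^ p) ^ 2 - ((R - 1) ^ p) ^ 2 := by exact_mod_cast hVS
  have hmod := VS_mod a B (p - 1)
  have hp1 : p - 1 + 1 = p := by omega
  rw [hp1, hVS'] at hmod
  -- a mod r²
  have hR2B : R ^ 2 ∣ B := ⟨(R - 1) ^ 2, by rw [hBd]; ring⟩
  have h2B : 2 ∣ B := by
    obtain ⟨k, hk⟩ := hodd
    refine ⟨R * (R - 1) * R * k, ?_⟩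
    rw [hBd, hk]; ring
  have hm1 : a ^ p ≡ (-(R - 1) ^ 2) ^ p [ZMOD R ^ 2] := by
    have e1 : (R ^ p) ^ 2 - ((R - 1) ^ p) ^ 2 ≡ a ^ p [ZMOD R ^ 2] := hmod.of_dvd hR2B
    refine e1.symm.trans ?_
    rw [Int.modEq_iff_dvd]
    have e2 : (-(R - 1) ^ 2) ^ p = -((R - 1) ^ p) ^ 2 := by
      rw [hpodd.neg_pow, ← pow_mul, ← pow_mul, mul_comm 2 p]
    rw [e2]
    have e3 : -((R - 1) ^ p) ^ 2 - ((R ^ p) ^ 2 - ((R - 1) ^ p) ^ 2) = -((R ^ p) ^ 2) := by ring
    rw [e3, dvd_neg]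
    exact pow_dvd_pow_of_dvd (dvd_pow_self R (by omega)) 2
  have hcop : Nat.Coprime (Nat.totient (r ^ 2)) p := by
    rw [Nat.totient_prime_pow hr (by norm_num)]
    have e0 : r ^ (2 - 1) * (r - 1) = r * (r - 1) := by norm_num
    rw [e0]
    rw [Nat.coprime_comm, hp.coprime_iff_not_dvd]
    intro hdvd
    have e1 : ((r * (r - 1) : ℕ) : ZMod p) = 0 := (ZMod.natCast_eq_zero_iff _ _).mpr hdvd
    rw [Nat.cast_mul, Nat.cast_sub (by omega : 1 ≤ r), hrp] at e1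
    have e2 : ((2 : ℕ) : ZMod p) = 0 := by
      rw [← e1]
      push_cast
      ring
    rw [ZMod.natCast_eq_zero_iff] at e2
    have := Nat.le_of_dvd (by norm_num) e2
    omega
  have hcR : IsCoprime (R - 1) R := ⟨-1, 1, by ring⟩
  have hcR2 : IsCoprime (-(R - 1) ^ 2) ((r ^ 2 : ℕ) : ℤ) := by
    push_cast
    rw [← hR]
    exact (hcR.pow).neg_left
  have hm2 : a ≡ -(R - 1) ^ 2 [ZMOD R ^ 2] := by
    have := pow_inj_mod (r ^ 2) p (pow_pos hr.pos 2) hcop a (-(R - 1) ^ 2) hcR2 hp.pos (by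
      push_cast; rw [← hR]; exact hm1)
    push_cast at this
    rw [← hR] at this
    exact this
  -- a odd
  have haodd : Odd a := by
    have e1 : (R ^ p) ^ 2 - ((R - 1) ^ p) ^ 2 ≡ a ^ p [ZMOD 2] := hmod.of_dvd h2B
    have e2 : Odd ((R ^ p) ^ 2 - ((R - 1) ^ p) ^ 2) := by
      have o1 : Odd ((R ^ p) ^ 2) := (hodd.pow).pow
      have o2 : Even (((R - 1) ^ p) ^ 2) := by
        have : Even (R - 1) := hodd.sub_odd odd_one
        exact (this.pow_of_ne_zero (by omega)).pow_of_ne_zero (by norm_num)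
      exact o1.sub_even o2
    have e3 : Odd (a ^ p) := by
      rw [Int.odd_iff] at e2 ⊢
      rw [← e1]
      exact e2
    exact (Int.odd_pow' (by omega)).mp e3
  -- size of a
  have hsz : a ^ 2 ≤ (2 * (R * (R - 1))) ^ 2 := by
    have e1 : ((a : ℝ)) ^ 2 ≤ 4 * (B : ℝ) := by
      rw [← ha, ← hB, Complex.normSq_apply]
      nlinarith [mul_self_nonneg α.im]
    have e2 : a ^ 2 ≤ 4 * B := by exact_mod_cast e1
    rw [hBd] at e2
    linarith
  have hpos : 0 ≤ 2 * (R * (R - 1)) := by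
    have : 0 ≤ R - 1 := by linarith
    positivity
  have habs := abs_le_of_sq_le_sq' hsz hpos
  obtain ⟨habs1, habs2⟩ := habs
  have haeq : a = 2 * R - 1 := by
    rw [Int.modEq_iff_dvd] at hm2
    obtain ⟨k, hk⟩ := hm2
    -- -(R-1)^2 - a = R^2 k
    have e1 : a = 2 * R - 1 - R ^ 2 * (k + 1) := by linear_combination -hk
    obtain ⟨j, hj⟩ : ∃ j, j = k + 1 := ⟨_, rfl⟩
    rw [← hj] at e1
    have hRsq : 0 < R ^ 2 := pow_pos (by linarith) 2
    have j1 : j < 2 := by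
      by_contra hcon
      have : 2 ≤ j := by omega
      nlinarith
    have j2 : -2 < j := by
      by_contra hcon
      have : j ≤ -2 := by omega
      nlinarith
    have j3 : Even j := by
      by_contra hcon
      rw [Int.not_even_iff_odd] at hcon
      have o1 : Odd (R ^ 2 * j) := (hodd.pow).mul hcon
      have o2 : Odd (2 * R - 1) := ⟨R - 1, by ring⟩
      have o3 : Even a := by rw [e1]; exact o2.sub_odd o1
      exact (Int.not_even_iff_odd.mpr haodd) o3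
    have j4 : j = 0 := by
      obtain ⟨i, hi⟩ := j3
      omega
    rw [e1, j4]
    ring
  -- comparison
  have hlt := VS_lt (R ^ 2) ((R - 1) ^ 2) (pow_pos (by linarith) 2) (by nlinarith) (p - 2)
  have hp2 : p - 2 + 2 = p := by omega
  rw [hp2] at hlt
  have e1 : R ^ 2 - (R - 1) ^ 2 = a := by rw [haeq]; ring
  have e2 : R ^ 2 * (R - 1) ^ 2 = B := by rw [hBd]; ring
  have e3 : ES (R ^ 2) ((R - 1) ^ 2) p = (R ^ p) ^ 2 - ((R - 1) ^ p) ^ 2 := by
    unfold ES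
    rw [hpodd.neg_pow, ← pow_mul, ← pow_mul, ← pow_mul, ← pow_mul, mul_comm 2 p]
    ring
  rw [e1, e2, e3, hVS'] at hlt
  exact absurd (le_abs_self _) (not_le.mpr hlt.1)

/-- BASE -/
theorem base (p : ℕ) (hp : p.Prime) (hp5 : 5 ≤ p) : ∃ w v z g : ℤ, 0 < w ∧ w < v ∧ 0 < z ∧ w ^ 2 + v ^ 2 = z ^ 2 ∧
    IsCoprime w v ∧ Even v ∧ g ^ p ≡ w [ZMOD v] ∧ ∀ (K : Type) [Field K] [NumberField K],
    (∃ x : K, x ^ 2 = ((w ^ 2 - v ^ 2 : ℤ) : K) ∧ Algebra.adjoin ℚ {x} = ⊤) → p ∣ NumberField.classNumber K := by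
  have : NeZero p := ⟨hp.ne_zero⟩
  have : Fact p.Prime := ⟨hp⟩
  have hpodd : Odd p := hp.odd_of_ne_two (by omega)
  have hu2 : IsUnit (2 : ZMod p) := by
    rw [isUnit_iff_ne_zero]
    intro h
    have e2 : ((2 : ℕ) : ZMod p) = 0 := by exact_mod_cast h
    rw [ZMod.natCast_eq_zero_iff] at e2
    have := Nat.le_of_dvd (by norm_num) e2
    omega
  obtain ⟨r, hr2, hr, hrp⟩ := Nat.forall_exists_prime_gt_and_eq_mod hu2 (2 * p)
  obtain ⟨R, hR⟩ : ∃ R : ℤ, R = (r : ℤ) := ⟨_, rfl⟩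
  have hR2p : 2 * (p : ℤ) < R := by rw [hR]; exact_mod_cast hr2
  have hp5' : (5 : ℤ) ≤ p := by exact_mod_cast hp5
  have hodd : Odd R := by
    rw [hR]
    exact_mod_cast hr.odd_of_ne_two (by omega)
  have heven : Even (R - 1) := hodd.sub_odd odd_one
  have hR0 : 0 < R := by linarith
  have hQ0 : 0 < R - 1 := by linarith
  have hx0 : 0 < R ^ p := pow_pos hR0 p
  have hy0 : 0 < (R - 1) ^ p := pow_pos hQ0 p
  have hxy : (R - 1) ^ p < R ^ p := pow_lt_pow_left₀ (by linarith) hQ0.le hp.ne_zero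
  have h2y : R ^ p ≤ 2 * (R - 1) ^ p := by
    have hRr : (0 : ℝ) < (R : ℝ) := by exact_mod_cast hR0
    have h2pr : 2 * (p : ℝ) < (R : ℝ) := by exact_mod_cast hR2p
    have hR1 : (1 : ℝ) ≤ (R : ℝ) := by exact_mod_cast hR0
    have hb := one_add_mul_le_pow (R := ℝ) (a := -(1 / (R : ℝ))) (by
      have : 1 / (R : ℝ) ≤ 1 := by rw [div_le_one hRr]; exact hR1
      linarith) p
    have h3 : (1 : ℝ) / 2 ≤ 1 + (p : ℝ) * -(1 / (R : ℝ)) := by
      have : (p : ℝ) * (1 / (R : ℝ)) ≤ 1 / 2 := by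
        rw [mul_one_div, div_le_div_iff₀ hRr (by norm_num)]
        linarith
      linarith
    have h4 := h3.trans hb
    have h5 : (1 + -(1 / (R : ℝ))) ^ p * (R : ℝ) ^ p = ((R : ℝ) - 1) ^ p := by
      rw [← mul_pow]
      congr 1
      field_simp
      ring
    have h6 : (R : ℝ) ^ p ≤ 2 * ((R : ℝ) - 1) ^ p := by
      rw [← h5]
      have h7 : (0 : ℝ) < (R : ℝ) ^ p := pow_pos hRr p
      nlinarith
    exact_mod_cast h6
  have hcRQ : IsCoprime R (R - 1) := ⟨1, -1, by ring⟩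
  have hcxy : IsCoprime (R ^ p) ((R - 1) ^ p) := hcRQ.pow
  have hxodd : Odd (R ^ p) := hodd.pow
  have hyeven : Even ((R - 1) ^ p) := heven.pow_of_ne_zero hp.ne_zero
  obtain ⟨x, hx⟩ : ∃ x, x = R ^ p := ⟨_, rfl⟩
  obtain ⟨y, hy⟩ : ∃ y, y = (R - 1) ^ p := ⟨_, rfl⟩
  have hV0 : (R ^ p) ^ 2 - ((R - 1) ^ p) ^ 2 = x ^ 2 - y ^ 2 := by rw [hx, hy]
  rw [← hx] at hx0 hxy h2y hcxy hxodd
  rw [← hy] at hy0 hxy h2y hcxy hyeven
  -- coprimality of w and v
  have hwodd : Odd (x ^ 2 - y ^ 2) := (hxodd.pow).sub_even (hyeven.pow_of_ne_zero (by norm_num))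
  have hcw2 : IsCoprime (x ^ 2 - y ^ 2) 2 := by
    obtain ⟨k, hk⟩ := hwodd
    exact ⟨1, -k, by rw [hk]; ring⟩
  have hcwx : IsCoprime (x ^ 2 - y ^ 2) x := by
    have h1 : IsCoprime (-(y ^ 2)) x := (hcxy.symm.pow_left).neg_left
    have h2 := h1.add_mul_right_left x
    have e : -(y ^ 2) + x * x = x ^ 2 - y ^ 2 := by ring
    rw [e] at h2
    exact h2
  have hcwy : IsCoprime (x ^ 2 - y ^ 2) y := by
    have h1 : IsCoprime (x ^ 2) y := hcxy.pow_left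
    have h2 := h1.add_mul_right_left (-y)
    have e : x ^ 2 + -y * y = x ^ 2 - y ^ 2 := by ring
    rw [e] at h2
    exact h2
  have hcwv : IsCoprime (x ^ 2 - y ^ 2) (2 * x * y) := (hcw2.mul_right hcwx).mul_right hcwy
  -- the p-th root
  have hcx2y : IsCoprime x (2 * y) := by
    have h1 : IsCoprime x 2 := by
      obtain ⟨k, hk⟩ := hxodd
      exact ⟨1, -k, by rw [hk]; ring⟩
    exact h1.mul_right hcxy
  obtain ⟨a1, b1, hab⟩ := hcx2y
  obtain ⟨g, hg⟩ : ∃ g : ℤ, g = R ^ 2 * (a1 * x) + (-(R - 1) ^ 2) * (b1 * (2 * y)) := ⟨_, rfl⟩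
  have hg1 : g ≡ R ^ 2 [ZMOD 2 * y] := by
    rw [Int.modEq_iff_dvd]
    refine ⟨b1 * (R ^ 2 + (R - 1) ^ 2), ?_⟩
    rw [hg]
    linear_combination R ^ 2 * (-1) * hab
  have hg2 : g ≡ -(R - 1) ^ 2 [ZMOD x] := by
    rw [Int.modEq_iff_dvd]
    refine ⟨-a1 * (R ^ 2 + (R - 1) ^ 2), ?_⟩
    rw [hg]
    linear_combination (R - 1) ^ 2 * hab
  have hgw1 : g ^ p ≡ x ^ 2 - y ^ 2 [ZMOD 2 * y] := by
    refine (hg1.pow p).trans ?_
    rw [← pow_mul, mul_comm 2 p, pow_mul, ← hx, Int.modEq_iff_dvd]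
    obtain ⟨k, hk⟩ := hyeven
    refine ⟨-k, ?_⟩
    rw [hk]; ring
  have hgw2 : g ^ p ≡ x ^ 2 - y ^ 2 [ZMOD x] := by
    refine (hg2.pow p).trans ?_
    rw [hpodd.neg_pow, ← pow_mul, mul_comm 2 p, pow_mul, ← hy, Int.modEq_iff_dvd]
    exact ⟨x, by ring⟩
  have hgw : g ^ p ≡ x ^ 2 - y ^ 2 [ZMOD 2 * x * y] := by
    rw [Int.modEq_iff_dvd] at hgw1 hgw2 ⊢
    have hc' : IsCoprime x (2 * y) := ⟨a1, b1, hab⟩
    have := hc'.mul_dvd hgw2 hgw1
    have e : x * (2 * y) = 2 * x * y := by ring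
    rw [e] at this
    exact this
  have hw0 : 0 < x ^ 2 - y ^ 2 := by nlinarith
  have hwv : x ^ 2 - y ^ 2 < 2 * x * y := by nlinarith
  refine ⟨x ^ 2 - y ^ 2, 2 * x * y, x ^ 2 + y ^ 2, g, hw0, hwv, by positivity, by ring, hcwv,
    ⟨x * y, by ring⟩, hgw, ?_⟩
  intro K _ _ hK
  obtain ⟨ξ, hξ, htop⟩ := hK
  by_contra hh
  have hBv : (2 * x * y) ^ 2 = 4 * ((R * (R - 1)) ^ 2) ^ p := by
    have e1 : x * y = (R * (R - 1)) ^ p := by rw [hx, hy, mul_pow]
    calc (2 * x * y) ^ 2 = 4 * (x * y) ^ 2 := by ring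
      _ = 4 * ((R * (R - 1)) ^ p) ^ 2 := by rw [e1]
      _ = 4 * ((R * (R - 1)) ^ 2) ^ p := by rw [← pow_mul, ← pow_mul, mul_comm 2 p]
  have hcB : IsCoprime (x ^ 2 - y ^ 2) ((R * (R - 1)) ^ 2) := by
    apply IsCoprime.pow_right
    apply IsCoprime.mul_right
    · rw [hx] at hcwx ⊢
      exact hcwx.of_isCoprime_of_dvd_right (dvd_pow_self R hp.ne_zero)
    · rw [hy] at hcwy ⊢
      exact hcwy.of_isCoprime_of_dvd_right (dvd_pow_self (R - 1) hp.ne_zero)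
  obtain ⟨α, a, h1, h2, h3⟩ := crit K ξ ((x ^ 2 - y ^ 2) ^ 2 - (2 * x * y) ^ 2) (by nlinarith) hξ htop p hp hp5
    (x ^ 2 - y ^ 2) 1 ((R * (R - 1)) ^ 2) (by rw [← hBv]; ring) hcB hh
  rw [← hV0] at h3
  rw [hR] at h2 h3
  exact base_key p hp hp5 r hr (by omega) hrp α a h1 h2 h3

end Pool.Agent.Lib.MP3650db.N2
end
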